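import Pool.Agent.L5helper69.SV.Defs
import Pool.Agent.H853R2.Skolem.Count

/-!
# Skolem–Mahler–Lech with one period for all rational solutions of a monic integer recurrence
-/

set_option autoImplicit false

namespace Pool.Agent.L5helper85.SV

open Pool.Agent.L5helper69.SV (St_SML)

/-- common denominator -/
theorem den (a : ℕ → ℚ) (k : ℕ) : ∃ D : ℕ, 0 < D ∧ ∀ i < k, ∃ z : ℤ, (D : ℚ) * a i = z := by
  induction k with
  | zero => exact ⟨1, one_pos, fun i hi => absurd hi (Nat.not_lt_zero i)⟩
  | succ k ih =>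
    obtain ⟨D, hD, h⟩ := ih
    refine ⟨D * (a k).den, Nat.mul_pos hD (a k).den_pos, fun i hi => ?_⟩
    rcases Nat.lt_succ_iff_lt_or_eq.mp hi with h1 | h1
    · obtain ⟨z, hz⟩ := h i h1
      refine ⟨z * (a k).den, ?_⟩
      push_cast
      rw [← hz]
      ring
    · subst h1
      refine ⟨D * (a i).num, ?_⟩
      push_cast
      rw [mul_assoc, mul_comm ((a i).den : ℚ), Rat.mul_den_eq_num]

/-- integrality along a monic integer recurrence -/
theorem integral (χ : Polynomial ℤ) (hχ : χ.Monic) (f : ℕ → ℚ)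
    (h : ∀ n, ∑ i ∈ Finset.range (χ.natDegree + 1), (χ.coeff i : ℚ) * f (n + i) = 0) :
    ∃ (D : ℕ) (g : ℕ → ℤ), 0 < D ∧ ∀ n, (g n : ℚ) = D * f n := by
  obtain ⟨D, hD, hz⟩ := den f χ.natDegree
  have key : ∀ n : ℕ, ∃ z : ℤ, (z : ℚ) = D * f n := by
    intro n
    induction n using Nat.strong_induction_on with
    | _ n ih =>
      by_cases hn : n < χ.natDegree
      · obtain ⟨z, hz⟩ := hz n hn
        exact ⟨z, hz.symm⟩
      · obtain ⟨m, rfl⟩ : ∃ m, n = m + χ.natDegree := ⟨n - χ.natDegree, by omega⟩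
        have h2 : ∀ i : ℕ, ∃ z : ℤ, i < χ.natDegree → (z : ℚ) = D * f (m + i) := by
          intro i
          by_cases hi : i < χ.natDegree
          · obtain ⟨z, hz⟩ := ih (m + i) (by omega)
            exact ⟨z, fun _ => hz⟩
          · exact ⟨0, fun h => absurd h hi⟩
        choose z hz using h2
        refine ⟨-∑ i ∈ Finset.range χ.natDegree, χ.coeff i * z i, ?_⟩
        have h3 := h m
        rw [Finset.sum_range_succ, show χ.coeff χ.natDegree = 1 from hχ] at h3
        push_cast
        have h4 : ∑ i ∈ Finset.range χ.natDegree, (χ.coeff i : ℚ) * (z i : ℚ) =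
            D * ∑ i ∈ Finset.range χ.natDegree, (χ.coeff i : ℚ) * f (m + i) := by
          rw [Finset.mul_sum]
          refine Finset.sum_congr rfl fun i hi => ?_
          rw [hz i (Finset.mem_range.1 hi)]
          ring
        rw [h4]
        have h5 : f (m + χ.natDegree) =
            -∑ i ∈ Finset.range χ.natDegree, (χ.coeff i : ℚ) * f (m + i) := by
          have : ((1 : ℤ) : ℚ) * f (m + χ.natDegree) = f (m + χ.natDegree) := by simp
          rw [this] at h3
          linarith
        rw [h5]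
        ring
  choose g hg using key
  exact ⟨D, g, hD, hg⟩

/-- exponential growth -/
theorem growth (χ : Polynomial ℤ) (hχ : χ.Monic) (g : ℕ → ℤ)
    (h : ∀ n, ∑ i ∈ Finset.range (χ.natDegree + 1), χ.coeff i * g (n + i) = 0) :
    ∃ G : ℕ, ∀ n, |g n| ≤ (G : ℤ) ^ (n + 1) := by
  set k := χ.natDegree with hk
  refine ⟨(1 + ∑ i ∈ Finset.range k, |χ.coeff i| + ∑ i ∈ Finset.range k, |g i|).toNat, ?_⟩
  have hA : 0 ≤ ∑ i ∈ Finset.range k, |χ.coeff i| := Finset.sum_nonneg fun i _ => abs_nonneg _
  have hB : 0 ≤ ∑ i ∈ Finset.range k, |g i| := Finset.sum_nonneg fun i _ => abs_nonneg _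
  rw [Int.toNat_of_nonneg (by omega)]
  set G := 1 + ∑ i ∈ Finset.range k, |χ.coeff i| + ∑ i ∈ Finset.range k, |g i| with hG
  have hG1 : 1 ≤ G := by omega
  intro n
  induction n using Nat.strong_induction_on with
  | _ n ih =>
    by_cases hn : n < k
    · calc |g n| ≤ ∑ i ∈ Finset.range k, |g i| :=
            Finset.single_le_sum (f := fun i => |g i|) (fun i _ => abs_nonneg _)
              (Finset.mem_range.2 hn)
        _ ≤ G := by omega
        _ = G ^ 1 := (pow_one G).symm
        _ ≤ G ^ (n + 1) := pow_le_pow_right₀ hG1 (by omega)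
    · obtain ⟨m, rfl⟩ : ∃ m, n = m + k := ⟨n - k, by omega⟩
      have h3 := h m
      rw [Finset.sum_range_succ, show χ.coeff k = 1 from hχ, one_mul] at h3
      have h4 : g (m + k) = -∑ i ∈ Finset.range k, χ.coeff i * g (m + i) := by linarith
      rw [h4, abs_neg]
      calc |∑ i ∈ Finset.range k, χ.coeff i * g (m + i)|
          ≤ ∑ i ∈ Finset.range k, |χ.coeff i * g (m + i)| := Finset.abs_sum_le_sum_abs _ _
        _ ≤ ∑ i ∈ Finset.range k, |χ.coeff i| * G ^ (m + k) := by
            apply Finset.sum_le_sum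
            intro i hi
            rw [Finset.mem_range] at hi
            rw [abs_mul]
            apply mul_le_mul_of_nonneg_left _ (abs_nonneg _)
            refine (ih (m + i) (by omega)).trans ?_
            exact pow_le_pow_right₀ hG1 (by omega)
        _ = (∑ i ∈ Finset.range k, |χ.coeff i|) * G ^ (m + k) := by rw [Finset.sum_mul]
        _ ≤ G * G ^ (m + k) := mul_le_mul_of_nonneg_right (by omega) (by positivity)
        _ = G ^ (m + k + 1) := by rw [pow_succ]; ring

/-- splitting off the power of `X` -/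
theorem split (χ : Polynomial ℤ) (hχ : χ.Monic) : ∃ (j : ℕ) (P : Polynomial ℤ), P.Monic ∧
    χ = Polynomial.X ^ j * P ∧ j + P.natDegree = χ.natDegree ∧ P.coeff 0 ≠ 0 := by
  obtain ⟨P, h1, h2⟩ := Polynomial.exists_eq_pow_rootMultiplicity_mul_and_not_dvd χ hχ.ne_zero 0
  rw [Polynomial.C_0, sub_zero] at h1 h2
  set j := Polynomial.rootMultiplicity 0 χ with hj
  have hP : P.Monic := by
    have := (Polynomial.monic_X_pow j).of_mul_monic_left (q := P) (by rw [← h1]; exact hχ)
    exact this
  refine ⟨j, P, hP, h1, ?_, ?_⟩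
  · conv_rhs => rw [h1]
    rw [(Polynomial.monic_X_pow j).natDegree_mul hP, Polynomial.natDegree_X_pow]
  · intro h0
    exact h2 (Polynomial.X_dvd_iff.2 h0)

theorem sml : St_SML := by
  classical
  intro χ hχ
  obtain ⟨j, P, hP, hsplit, hdeg, hP0⟩ := split χ hχ
  obtain ⟨p, hp1, hp⟩ := Nat.exists_infinite_primes (max 3 ((P.coeff 0).natAbs + 1))
  have hp3 : 3 ≤ p := (le_max_left _ _).trans hp1
  have hpK : (P.coeff 0).natAbs < p := by
    have := (le_max_right 3 ((P.coeff 0).natAbs + 1)).trans hp1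
    omega
  set d := χ.natDegree with hd
  refine ⟨(p ^ d).factorial, d, Nat.factorial_pos _, ?_⟩
  set L := (p ^ d).factorial with hL
  have hL1 : 1 ≤ L := Nat.factorial_pos _
  intro f hf c
  obtain ⟨D, g, hD, hg⟩ := integral χ hχ f hf
  have hD' : (D : ℚ) ≠ 0 := by exact_mod_cast hD.ne'
  have hrec : ∀ n, ∑ i ∈ Finset.range (χ.natDegree + 1), χ.coeff i * g (n + i) = 0 := by
    intro n
    have h1 : ((∑ i ∈ Finset.range (χ.natDegree + 1), χ.coeff i * g (n + i) : ℤ) : ℚ) = 0 := by
      push_cast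
      have : ∑ i ∈ Finset.range (χ.natDegree + 1), (χ.coeff i : ℚ) * (g (n + i) : ℚ) =
          D * ∑ i ∈ Finset.range (χ.natDegree + 1), (χ.coeff i : ℚ) * f (n + i) := by
        rw [Finset.mul_sum]
        refine Finset.sum_congr rfl fun i _ => ?_
        rw [hg]
        ring
      rw [this, hf n, mul_zero]
    exact_mod_cast h1
  obtain ⟨G, hG⟩ := growth χ hχ g hrec
  have hzero : ∀ n, f n = 0 ↔ g n = 0 := by
    intro n
    constructor
    · intro h
      have : (g n : ℚ) = 0 := by rw [hg, h, mul_zero]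
      exact_mod_cast this
    · intro h
      have h1 := hg n
      rw [h, Int.cast_zero] at h1
      rcases mul_eq_zero.1 h1.symm with h2 | h2
      · exact absurd h2 hD'
      · exact h2
  have hbd : Pool.Agent.H853R2.Skolem.Bd g d (P.coeff 0).natAbs G := by
    refine ⟨j, P, hP, hdeg.le, hP0, ?_, ?_, hG⟩
    · rw [Int.natCast_natAbs]
    · rw [← hsplit]
      exact (Pool.Agent.H853R2.Skolem.ann_iff χ g).2 hrec
  obtain ⟨L0, hL01, hL02, hgood⟩ := Pool.Agent.H853R2.Skolem.good_of_bd hbd hp hp3 hpK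
  have hgd := hgood L (Nat.dvd_factorial hL01 hL02)
  by_cases hall : ∀ n, d ≤ n → n % L = c % L → f n = 0
  · exact Or.inl hall
  · right
    push Not at hall
    obtain ⟨s, hs, hsc, hsne⟩ := hall
    have hne : ∀ n, d ≤ n → n % L = c % L → ∃ m, g (n + L * m) ≠ 0 := by
      intro n hn hnc
      by_contra hcon
      push Not at hcon
      exact hsne ((hzero s).2
        (Pool.Agent.H853R2.Skolem.zero_class hL1 hgd s n hs hn (hsc.trans hnc.symm) hcon))
    have hfin : {n | d ≤ n ∧ n % L = c % L ∧ f n = 0}.Finite := by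
      by_contra hinf
      obtain ⟨A, hA1, hA2⟩ := Set.Infinite.exists_subset_card_eq hinf
        (Pool.Agent.H853R2.Skolem.NB d G L + 1)
      have := Pool.Agent.H853R2.Skolem.exc_count hL1 hgd A (by
        intro n hn
        obtain ⟨h1, h2, h3⟩ := hA1 (Finset.mem_coe.2 hn)
        exact ⟨h1, (hzero n).1 h3, hne n h1 h2⟩)
      omega
    refine (hfin.union (Set.finite_lt_nat d)).subset ?_
    rintro n ⟨h1, h2⟩
    by_cases hn : d ≤ n
    · exact Or.inl ⟨hn, h1, h2⟩
    · right
      exact not_le.1 hn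

end Pool.Agent.L5helper85.SV
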