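import Pool.Agent.L5helper85.CombSm

set_option autoImplicit false

open Set Filter Topology Metric

namespace Pool.Agent.L5helper85.Comb

noncomputable section

lemma sq_deriv_of (hs : ∀ x : ℝ, HasDerivAt (fun x : ℝ => (max x 0) ^ 2) (2 * max x 0) x)
    (a x : ℝ) : HasDerivAt (fun x : ℝ => sq (x - a)) (2 * max (x - a) 0) x := by
  have h1 := (hs (x - a)).comp x ((hasDerivAt_id x).sub_const a)
  simpa [sq, Function.comp_def] using h1

lemma psj_deriv_of (hs : ∀ x : ℝ, HasDerivAt (fun x : ℝ => (max x 0) ^ 2) (2 * max x 0) x)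
    (c x : ℝ) : HasDerivAt (psj c) (dpsj c x) x := by
  have s := sq_deriv_of hs
  have h0 : HasDerivAt (fun x : ℝ => c * x) c x := by
    simpa using (hasDerivAt_id x).const_mul c
  have e1 : ∀ x : ℝ, x - 15 / 16 + c / 64 = x - (15 / 16 - c / 64) := fun x => by ring
  have e2 : ∀ x : ℝ, x - 15 / 16 - c / 16 - 3 * c / 128 = x - (15 / 16 + c / 16 + 3 * c / 128) :=
    fun x => by ring
  have e3 : ∀ x : ℝ, x - 15 / 16 - c / 16 - 3 * c / 64 = x - (15 / 16 + c / 16 + 3 * c / 64) :=
    fun x => by ring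
  have e4 : ∀ x : ℝ, x - 15 / 16 - c / 16 = x - (15 / 16 + c / 16) := fun x => by ring
  have t1 : HasDerivAt (fun x : ℝ => sq (x - 15 / 16 + c / 64)) (2 * max (x - 15 / 16 + c / 64) 0) x := by
    have := s (15 / 16 - c / 64) x
    simp only [← e1] at this
    exact this
  have t2 : HasDerivAt (fun x : ℝ => sq (x - 15 / 16 - c / 16 - 3 * c / 128))
      (2 * max (x - 15 / 16 - c / 16 - 3 * c / 128) 0) x := by
    have := s (15 / 16 + c / 16 + 3 * c / 128) x
    simp only [← e2] at this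
    exact this
  have t3 : HasDerivAt (fun x : ℝ => sq (x - 15 / 16 - c / 16 - 3 * c / 64))
      (2 * max (x - 15 / 16 - c / 16 - 3 * c / 64) 0) x := by
    have := s (15 / 16 + c / 16 + 3 * c / 64) x
    simp only [← e3] at this
    exact this
  have t4 : HasDerivAt (fun x : ℝ => sq (x - 15 / 16 - c / 16))
      (2 * max (x - 15 / 16 - c / 16) 0) x := by
    have := s (15 / 16 + c / 16) x
    simp only [← e4] at this
    exact this
  have h := ((h0.sub ((((s (7 / 8) x).sub ((s (57 / 64) x).const_mul 2)).add (s (29 / 32) x)).const_mul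
    (16 * c * (1 - c)))).add ((t1.sub (s (15 / 16) x)).const_mul
    (32 * (1 - c) / c))).add (((t4.const_mul 3).sub (t2.const_mul 4)).add t3 |>.const_mul (160 / c))
  refine (h.congr_deriv ?_).congr_of_eventuallyEq (Eventually.of_forall fun y => ?_)
  · unfold dpsj
    ring
  · rfl

lemma dpsj_cont (c : ℝ) : Continuous (dpsj c) := by
  unfold dpsj
  fun_prop

lemma tent_nonneg (a h x : ℝ) (hh : 0 ≤ h) :
    0 ≤ max (x - a) 0 - 2 * max (x - a - h) 0 + max (x - a - 2 * h) 0 := by
  rcases le_total (x - a) 0 with h1 | h1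
  · rw [max_eq_right h1, max_eq_right (by linarith), max_eq_right (by linarith)]; norm_num
  rw [max_eq_left h1]
  rcases le_total (x - a - h) 0 with h2 | h2
  · rw [max_eq_right h2, max_eq_right (by linarith)]; linarith
  rw [max_eq_left h2]
  rcases le_total (x - a - 2 * h) 0 with h3 | h3
  · rw [max_eq_right h3]; linarith
  · rw [max_eq_left h3]; linarith

lemma tent_le (a h x : ℝ) (hh : 0 ≤ h) :
    max (x - a) 0 - 2 * max (x - a - h) 0 + max (x - a - 2 * h) 0 ≤ h := by
  rcases le_total (x - a) 0 with h1 | h1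
  · rw [max_eq_right h1, max_eq_right (by linarith), max_eq_right (by linarith)]; linarith
  rw [max_eq_left h1]
  rcases le_total (x - a - h) 0 with h2 | h2
  · rw [max_eq_right h2, max_eq_right (by linarith)]; linarith
  rw [max_eq_left h2]
  rcases le_total (x - a - 2 * h) 0 with h3 | h3
  · rw [max_eq_right h3]; linarith
  · rw [max_eq_left h3]; linarith

lemma ramp_bounds (a h x : ℝ) (hh : 0 ≤ h) :
    0 ≤ max (x - a + h) 0 - max (x - a) 0 ∧ max (x - a + h) 0 - max (x - a) 0 ≤ h := by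
  rcases le_total (x - a) 0 with h1 | h1
  · rw [max_eq_right h1]
    rcases le_total (x - a + h) 0 with h2 | h2
    · rw [max_eq_right h2]; constructor <;> linarith
    · rw [max_eq_left h2]; constructor <;> linarith
  · rw [max_eq_left h1, max_eq_left (by linarith)]; constructor <;> linarith

lemma over_bounds (a h x : ℝ) (hh : 0 ≤ h) :
    0 ≤ 3 * max (x - a) 0 - 4 * max (x - a - h) 0 + max (x - a - 2 * h) 0 ∧
    3 * max (x - a) 0 - 4 * max (x - a - h) 0 + max (x - a - 2 * h) 0 ≤ 3 * h := by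
  rcases le_total (x - a) 0 with h1 | h1
  · rw [max_eq_right h1, max_eq_right (by linarith), max_eq_right (by linarith)]
    constructor <;> linarith
  rw [max_eq_left h1]
  rcases le_total (x - a - h) 0 with h2 | h2
  · rw [max_eq_right h2, max_eq_right (by linarith)]; constructor <;> linarith
  rw [max_eq_left h2]
  rcases le_total (x - a - 2 * h) 0 with h3 | h3
  · rw [max_eq_right h3]; constructor <;> linarith
  · rw [max_eq_left h3]; constructor <;> linarith

lemma dpsj_ge {c : ℝ} (hc : 0 < c) (hc1 : c ≤ 1) (x : ℝ) : c / 2 ≤ dpsj c x := by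
  have h1 := tent_nonneg (7 / 8) (1 / 64) x (by norm_num)
  have h2 := tent_le (7 / 8) (1 / 64) x (by norm_num)
  have h3 := (ramp_bounds (15 / 16) (c / 64) x (by positivity)).1
  have h4 := (over_bounds (15 / 16 + c / 16) (3 * c / 128) x (by positivity)).1
  unfold dpsj
  have e1 : x - 57 / 64 = x - 7 / 8 - 1 / 64 := by ring
  have e2 : x - 29 / 32 = x - 7 / 8 - 2 * (1 / 64) := by ring
  have e3 : x - 15 / 16 - c / 16 - 3 * c / 128 = x - (15 / 16 + c / 16) - 3 * c / 128 := by ring
  have e4 : x - 15 / 16 - c / 16 - 3 * c / 64 = x - (15 / 16 + c / 16) - 2 * (3 * c / 128) := by ring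
  have e5 : x - 15 / 16 - c / 16 = x - (15 / 16 + c / 16) := by ring
  rw [e1, e2, e3, e4, e5]
  have h5 : 0 ≤ 64 * (1 - c) / c * (max (x - 15 / 16 + c / 64) 0 - max (x - 15 / 16) 0) := by
    apply mul_nonneg _ h3
    apply div_nonneg _ hc.le
    linarith
  have h6 : 0 ≤ 320 / c * (3 * max (x - (15 / 16 + c / 16)) 0 -
      4 * max (x - (15 / 16 + c / 16) - 3 * c / 128) 0 +
      max (x - (15 / 16 + c / 16) - 2 * (3 * c / 128)) 0) := by
    apply mul_nonneg (by positivity) h4
  have h7 : 32 * c * (1 - c) * (max (x - 7 / 8) 0 - 2 * max (x - 7 / 8 - 1 / 64) 0 +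
      max (x - 7 / 8 - 2 * (1 / 64)) 0) ≤ c / 2 := by
    calc _ ≤ 32 * c * 1 * (1 / 64) := by
          gcongr
          linarith
      _ = c / 2 := by ring
  linarith

lemma dpsj_le {c : ℝ} (hc : 0 < c) (hc1 : c ≤ 1) (x : ℝ) : dpsj c x ≤ 24 := by
  have h1 := tent_nonneg (7 / 8) (1 / 64) x (by norm_num)
  have h3 := (ramp_bounds (15 / 16) (c / 64) x (by positivity)).2
  have h4 := (over_bounds (15 / 16 + c / 16) (3 * c / 128) x (by positivity)).2
  unfold dpsj
  have e1 : x - 57 / 64 = x - 7 / 8 - 1 / 64 := by ring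
  have e2 : x - 29 / 32 = x - 7 / 8 - 2 * (1 / 64) := by ring
  have e3 : x - 15 / 16 - c / 16 - 3 * c / 128 = x - (15 / 16 + c / 16) - 3 * c / 128 := by ring
  have e4 : x - 15 / 16 - c / 16 - 3 * c / 64 = x - (15 / 16 + c / 16) - 2 * (3 * c / 128) := by ring
  have e5 : x - 15 / 16 - c / 16 = x - (15 / 16 + c / 16) := by ring
  rw [e1, e2, e3, e4, e5]
  have h5 : 64 * (1 - c) / c * (max (x - 15 / 16 + c / 64) 0 - max (x - 15 / 16) 0) ≤ 1 - c := by
    calc _ ≤ 64 * (1 - c) / c * (c / 64) := by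
          exact mul_le_mul_of_nonneg_left h3 (div_nonneg (by linarith) hc.le)
      _ = 1 - c := by field_simp
  have h6 : 320 / c * (3 * max (x - (15 / 16 + c / 16)) 0 -
      4 * max (x - (15 / 16 + c / 16) - 3 * c / 128) 0 +
      max (x - (15 / 16 + c / 16) - 2 * (3 * c / 128)) 0) ≤ 45 / 2 := by
    calc _ ≤ 320 / c * (3 * (3 * c / 128)) := by gcongr
      _ = 45 / 2 := by field_simp; norm_num
  have h7 : 0 ≤ 32 * c * (1 - c) * (max (x - 7 / 8) 0 - 2 * max (x - 7 / 8 - 1 / 64) 0 +
      max (x - 7 / 8 - 2 * (1 / 64)) 0) := by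
    apply mul_nonneg _ h1
    apply mul_nonneg _ (by linarith)
    positivity
  linarith

lemma sq_neg {x : ℝ} (h : x ≤ 0) : sq x = 0 := by
  unfold sq; rw [max_eq_right h]; norm_num

lemma sq_pos {x : ℝ} (h : 0 ≤ x) : sq x = x ^ 2 := by
  unfold sq; rw [max_eq_left h]

lemma psj_left {c x : ℝ} (hc : 0 < c) (hc1 : c ≤ 1) (hx : x ≤ 7 / 8) : psj c x = c * x := by
  unfold psj
  rw [sq_neg (by linarith), sq_neg (by linarith), sq_neg (by linarith), sq_neg (by linarith),
    sq_neg (by linarith), sq_neg (by linarith), sq_neg (by linarith), sq_neg (by linarith)]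
  ring

lemma psj_mid {c x : ℝ} (hc : 0 < c) (hx : 15 / 16 ≤ x) (hx2 : x ≤ 15 / 16 + c / 16) :
    psj c x = x - 15 / 16 + 15 / 16 * c := by
  unfold psj
  rw [sq_pos (x := x - 7 / 8) (by linarith), sq_pos (x := x - 57 / 64) (by linarith),
    sq_pos (x := x - 29 / 32) (by linarith), sq_pos (x := x - 15 / 16 + c / 64) (by linarith),
    sq_pos (x := x - 15 / 16) (by linarith), sq_neg (x := x - 15 / 16 - c / 16) (by linarith),
    sq_neg (x := x - 15 / 16 - c / 16 - 3 * c / 128) (by linarith),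
    sq_neg (x := x - 15 / 16 - c / 16 - 3 * c / 64) (by linarith)]
  field_simp
  ring

lemma psj_right {c x : ℝ} (hc : 0 < c) (hx : 15 / 16 + 7 * c / 64 ≤ x) :
    psj c x = 16 * x - 15 := by
  unfold psj
  rw [sq_pos (x := x - 7 / 8) (by linarith), sq_pos (x := x - 57 / 64) (by linarith),
    sq_pos (x := x - 29 / 32) (by linarith), sq_pos (x := x - 15 / 16 + c / 64) (by linarith),
    sq_pos (x := x - 15 / 16) (by linarith), sq_pos (x := x - 15 / 16 - c / 16) (by linarith),
    sq_pos (x := x - 15 / 16 - c / 16 - 3 * c / 128) (by linarith),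
    sq_pos (x := x - 15 / 16 - c / 16 - 3 * c / 64) (by linarith)]
  field_simp
  ring

end

end Pool.Agent.L5helper85.Comb
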