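import Mathlib

/-!
# The inverse of a continuously differentiable function with derivative bounded below
-/

set_option autoImplicit false

namespace Pool.Agent.L5helper85.Comb

open Filter Topology

theorem exists_c1_inverse {f f' : ℝ → ℝ} {δ : ℝ} (hδ : 0 < δ) (hf : ∀ x, HasDerivAt f (f' x) x)
    (hc : Continuous f') (h : ∀ x, δ ≤ f' x) : StrictMono f ∧ ∃ g : ℝ → ℝ, ContDiff ℝ 1 g ∧
      (∀ x, g (f x) = x) ∧ (∀ y, f (g y) = y) := by
  have hpos : ∀ x, 0 < f' x := fun x => lt_of_lt_of_le hδ (h x)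
  have hmono : StrictMono f := strictMono_of_deriv_pos fun x => by rw [(hf x).deriv]; exact hpos x
  refine ⟨hmono, ?_⟩
  have hcont : Continuous f := continuous_iff_continuousAt.mpr fun x => (hf x).continuousAt
  -- `f x - δ x` is monotone
  have hm : Monotone fun x => f x - δ * x := by
    have hd : ∀ x, HasDerivAt (fun x => f x - δ * x) (f' x - δ * 1) x := fun x =>
      (hf x).sub ((hasDerivAt_id x).const_mul δ)
    refine monotone_of_deriv_nonneg (fun x => (hd x).differentiableAt) fun x => ?_
    rw [(hd x).deriv, mul_one]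
    have := h x
    linarith
  have htop : Tendsto f atTop atTop := by
    have h1 : Tendsto (fun x : ℝ => f 0 + δ * x) atTop atTop :=
      tendsto_atTop_add_const_left _ _ (tendsto_id.const_mul_atTop hδ)
    refine tendsto_atTop_mono' _ ?_ h1
    filter_upwards [eventually_ge_atTop 0] with x hx
    have h2 : f 0 - δ * 0 ≤ f x - δ * x := hm hx
    linarith
  have hbot : Tendsto f atBot atBot := by
    have h1 : Tendsto (fun x : ℝ => f 0 + δ * x) atBot atBot :=
      tendsto_atBot_add_const_left _ _ (tendsto_id.const_mul_atBot hδ)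
    refine tendsto_atBot_mono' _ ?_ h1
    filter_upwards [eventually_le_atBot 0] with x hx
    have h2 : f x - δ * x ≤ f 0 - δ * 0 := hm hx
    linarith
  have hsurj : Function.Surjective f := hcont.surjective htop hbot
  let e : ℝ ≃o ℝ := StrictMono.orderIsoOfSurjective f hmono hsurj
  have he : ∀ x, e.toHomeomorph x = f x := fun x => rfl
  have hC : ContDiff ℝ 1 f := by
    rw [contDiff_one_iff_deriv]
    refine ⟨fun x => (hf x).differentiableAt, ?_⟩
    have : deriv f = f' := funext fun x => (hf x).deriv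
    rw [this]
    exact hc
  refine ⟨e.toHomeomorph.symm, ?_, fun x => ?_, fun y => ?_⟩
  · exact e.toHomeomorph.contDiff_symm_deriv (f' := f') (fun x => (hpos x).ne')
      (fun x => hf x) hC
  · exact e.toHomeomorph.symm_apply_apply x
  · exact e.toHomeomorph.apply_symm_apply y

open Filter Topology Asymptotics

lemma cs2_zero {f : ℝ → ℝ} {C : ℝ} (h0 : f 0 = 0) (h : ∀ x, |f x| ≤ C * x ^ 2) :
    HasDerivAt f 0 0 := by
  rw [hasDerivAt_iff_isLittleO_nhds_zero]
  have h1 : (fun x : ℝ => f (0 + x) - f 0 - x • (0 : ℝ)) =O[𝓝 0] fun x : ℝ => x ^ 2 := by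
    refine IsBigO.of_bound C (Eventually.of_forall fun x => ?_)
    rw [zero_add, h0, sub_zero, smul_zero, sub_zero, Real.norm_eq_abs, Real.norm_eq_abs, abs_pow,
      sq_abs]
    exact h x
  exact h1.trans_isLittleO (isLittleO_pow_id one_lt_two)

theorem hasDerivAt_sq (x : ℝ) : HasDerivAt (fun x : ℝ => (max x 0) ^ 2) (2 * max x 0) x := by
  rcases lt_trichotomy x 0 with hx | hx | hx
  · have h1 : (fun y : ℝ => (max y 0) ^ 2) =ᶠ[𝓝 x] fun _ => (0 : ℝ) := by
      filter_upwards [Iio_mem_nhds hx] with y hy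
      rw [max_eq_right (le_of_lt hy)]; simp
    rw [max_eq_right hx.le, mul_zero]
    exact (hasDerivAt_const x (0 : ℝ)).congr_of_eventuallyEq h1
  · subst hx
    rw [max_self, mul_zero]
    refine cs2_zero (C := 1) (by simp) ?_
    intro x
    rw [one_mul, abs_of_nonneg (by positivity)]
    rcases le_total x 0 with h | h
    · rw [max_eq_right h]
      simpa using sq_nonneg x
    · rw [max_eq_left h]
  · have h1 : (fun y : ℝ => (max y 0) ^ 2) =ᶠ[𝓝 x] fun y => y ^ 2 := by
      filter_upwards [Ioi_mem_nhds hx] with y hy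
      rw [max_eq_left (le_of_lt hy)]
    rw [max_eq_left hx.le]
    have h2 := (hasDerivAt_pow 2 x).congr_of_eventuallyEq h1
    simpa using h2

lemma cs2_deriv {l : ℝ} (hl : 0 < l) (x : ℝ) :
    HasDerivAt (fun s : ℝ => l / 4 * (1 - Real.cos (Real.pi * max s 0 / l)))
      (Real.pi / 4 * Real.sin (Real.pi * max x 0 / l)) x := by
  rcases lt_trichotomy x 0 with hx | hx | hx
  · have h1 : (fun s : ℝ => l / 4 * (1 - Real.cos (Real.pi * max s 0 / l))) =ᶠ[𝓝 x]
        fun _ => (0 : ℝ) := by
      filter_upwards [Iio_mem_nhds hx] with y hy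
      rw [max_eq_right (le_of_lt hy)]; simp
    rw [max_eq_right hx.le]
    simp only [mul_zero, zero_div, Real.sin_zero]
    exact (hasDerivAt_const x (0 : ℝ)).congr_of_eventuallyEq h1
  · subst hx
    rw [max_self]
    simp only [mul_zero, zero_div, Real.sin_zero]
    refine cs2_zero (C := l / 4 * ((Real.pi / l) ^ 2 / 2)) (by simp) ?_
    intro x
    have h1 : 0 ≤ 1 - Real.cos (Real.pi * max x 0 / l) := by
      linarith [Real.cos_le_one (Real.pi * max x 0 / l)]
    have h2 := Real.one_sub_sq_div_two_le_cos (x := Real.pi * max x 0 / l)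
    rw [abs_of_nonneg (by positivity)]
    have h3 : (max x 0) ^ 2 ≤ x ^ 2 := by
      rcases le_total x 0 with h | h
      · rw [max_eq_right h]
        simpa using sq_nonneg x
      · rw [max_eq_left h]
    have h4 : (Real.pi * max x 0 / l) ^ 2 = (Real.pi / l) ^ 2 * (max x 0) ^ 2 := by
      ring
    have h5 : 1 - Real.cos (Real.pi * max x 0 / l) ≤ (Real.pi / l) ^ 2 / 2 * x ^ 2 := by
      have h6 : (Real.pi / l) ^ 2 * (max x 0) ^ 2 ≤ (Real.pi / l) ^ 2 * x ^ 2 :=
        mul_le_mul_of_nonneg_left h3 (by positivity)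
      rw [h4] at h2
      linarith
    calc l / 4 * (1 - Real.cos (Real.pi * max x 0 / l))
        ≤ l / 4 * ((Real.pi / l) ^ 2 / 2 * x ^ 2) :=
          mul_le_mul_of_nonneg_left h5 (by positivity)
      _ = l / 4 * ((Real.pi / l) ^ 2 / 2) * x ^ 2 := by ring
  · have h1 : (fun s : ℝ => l / 4 * (1 - Real.cos (Real.pi * max s 0 / l))) =ᶠ[𝓝 x]
        fun s => l / 4 * (1 - Real.cos (Real.pi * s / l)) := by
      filter_upwards [Ioi_mem_nhds hx] with y hy
      rw [max_eq_left (le_of_lt hy)]
    rw [max_eq_left hx.le]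
    have h2 : HasDerivAt (fun s : ℝ => Real.pi * s / l) (Real.pi / l) x := by
      have := ((hasDerivAt_id x).const_mul Real.pi).div_const l
      simpa using this
    have h3 : HasDerivAt (fun s : ℝ => l / 4 * (1 - Real.cos (Real.pi * s / l)))
        (l / 4 * (Real.sin (Real.pi * x / l) * (Real.pi / l))) x := by
      have h4 := (h2.cos.const_sub 1).const_mul (l / 4)
      refine h4.congr_deriv ?_
      ring
    refine (h3.congr_of_eventuallyEq h1).congr_deriv ?_
    field_simp

theorem contDiff_prof {l : ℝ} (hl : 0 < l) :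
    ContDiff ℝ 1 (fun s : ℝ => l / 4 * (1 - Real.cos (Real.pi * max s 0 / l))) := by
  rw [contDiff_one_iff_deriv]
  refine ⟨fun x => (cs2_deriv hl x).differentiableAt, ?_⟩
  have h : deriv (fun s : ℝ => l / 4 * (1 - Real.cos (Real.pi * max s 0 / l))) =
      fun x => Real.pi / 4 * Real.sin (Real.pi * max x 0 / l) := by
    funext x
    exact (cs2_deriv hl x).deriv
  rw [h]
  fun_prop

end Pool.Agent.L5helper85.Comb
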