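import Pool.Agent.L5helper85.CombSm

/-!
# The heights are preserved by the continuously differentiable squeezing maps
-/

set_option autoImplicit false

open Set Filter Topology Metric

namespace Pool.Agent.L5helper85.Comb

noncomputable section

/-- no height lies between `c` and `7 c / 4` for a power `c` of `1/2` -/
lemma InO.gap {k : ℕ} {y : ℝ} (h1 : (1 / 2 : ℝ) ^ k < y) (h2 : y < 7 / 4 * (1 / 2 : ℝ) ^ k) :
    ¬ InO y := by
  intro h
  obtain ⟨i, hi1, hi2⟩ := h.level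
  have h3 : (1 / 2 : ℝ) ^ k < (1 / 2 : ℝ) ^ i := h1.trans hi2
  have h4 : i < k := (pow_lt_pow_iff_right_of_lt_one₀ (by norm_num) (by norm_num)).mp h3
  have h5 : (1 / 2 : ℝ) ^ k ≤ (1 / 2 : ℝ) ^ (i + 1) :=
    pow_le_pow_of_le_one (by norm_num) (by norm_num) h4
  rw [pow_succ] at h5
  linarith

theorem InO_psj_of {k : ℕ} {x : ℝ} (hx0 : 0 < x) (hx1 : x < 1)
    (hm : StrictMono (psj ((1/2)^k)))
    (hL : ∀ x, x ≤ 7/8 → psj ((1/2)^k) x = (1/2)^k * x)
    (hM : ∀ x, 15/16 ≤ x → x ≤ 15/16 + (1/2)^k/16 →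
      psj ((1/2)^k) x = x - 15/16 + 15/16 * (1/2)^k)
    (hR : ∀ x, 15/16 + 7 * (1/2)^k / 64 ≤ x → psj ((1/2)^k) x = 16 * x - 15) :
    InO (psj ((1/2)^k) x) ↔ InO x := by
  have hc : (0 : ℝ) < (1 / 2) ^ k := by positivity
  have hc1 : (1 / 2 : ℝ) ^ k ≤ 1 := pow_le_one₀ (by norm_num) (by norm_num)
  rcases le_or_gt x (7 / 8) with h | h
  · rw [hL x h, mul_comm]
    exact InO.pow_iff hx1.le hx0 k
  rcases lt_or_ge x (15 / 16) with h' | h'
  · have hxO : InO x := InO.base x h h'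
    have e1 := hm h
    have e2 := hm h'
    rw [hL _ le_rfl] at e1
    rw [hM (15 / 16) le_rfl (by linarith)] at e2
    refine iff_of_true ?_ hxO
    have e3 : psj ((1/2)^k) x = (psj ((1/2)^k) x / (1/2)^k) * (1/2)^k := by
      rw [div_mul_cancel₀ _ hc.ne']
    have h1 : 7 / 8 < psj ((1/2)^k) x / (1/2)^k := by
      rw [lt_div_iff₀ hc]; linarith
    have h2 : psj ((1/2)^k) x / (1/2)^k < 15 / 16 := by
      rw [div_lt_iff₀ hc]; linarith
    rw [e3, InO.pow_iff (by linarith) (by linarith)]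
    exact InO.base _ h1 h2
  rcases le_or_gt x (15 / 16 + (1 / 2) ^ k / 16) with h'' | h''
  · have e1 : psj ((1/2)^k) x = psi ((1/2)^k) x := by
      rw [hM x h' h'', psi_mid hc1 h' h'']
    rw [e1]
    exact InO_psi hx0 hx1
  have hx15 : 15 / 16 < x := by linarith
  rcases lt_or_ge x (15 / 16 + 7 * (1 / 2) ^ k / 64) with h3 | h3
  · have e1 := hm h''
    have e2 := hm h3
    rw [hM _ (by linarith) le_rfl] at e1
    rw [hR _ le_rfl] at e2
    refine iff_of_false (InO.gap (k := k) (by linarith) (by linarith)) ?_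
    rw [← InO.right_iff' hx15]
    exact InO.gap (k := k) (by linarith) (by linarith)
  · rw [hR x h3]
    exact InO.right_iff' hx15

end

end Pool.Agent.L5helper85.Comb
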