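import Pool.Agent.L5helper85.CombWeak
import Pool.Agent.L5helper85.CombSm2
import Pool.Agent.L5helper85.CombSm3
import Pool.Agent.L5helper85.CombSm4

/-!
# The limit map of the comb is a weak limit of `C¹` diffeomorphisms
-/

set_option autoImplicit false

open MeasureTheory Set Filter Topology Metric
open scoped ENNReal NNReal InnerProductSpace

namespace Pool.Agent.L5helper85.Comb

open Pool.Agent.L5helper85.Sob

noncomputable section

variable {m : ℕ}

/-- the parameters -/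
def ck (k : ℕ) : ℝ := (1 / 2) ^ k

lemma ck_pos (k : ℕ) : 0 < ck k := hk_pos k

lemma ck_le (k : ℕ) : ck k ≤ 1 := hk_le k

lemma psj_deriv (c x : ℝ) : HasDerivAt (psj c) (dpsj c x) x := psj_deriv_of hasDerivAt_sq c x

lemma psj_c1 (c : ℝ) : ContDiff ℝ 1 (psj c) := by
  rw [contDiff_one_iff_deriv]
  refine ⟨fun x => (psj_deriv c x).differentiableAt, ?_⟩
  have h : deriv (psj c) = dpsj c := funext fun x => (psj_deriv c x).deriv
  rw [h]
  exact dpsj_cont c

lemma psj_inv (k : ℕ) : StrictMono (psj (ck k)) ∧ ∃ g : ℝ → ℝ, ContDiff ℝ 1 g ∧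
    (∀ x, g (psj (ck k) x) = x) ∧ (∀ y, psj (ck k) (g y) = y) :=
  exists_c1_inverse (half_pos (ck_pos k)) (psj_deriv (ck k)) (dpsj_cont _)
    (dpsj_ge (ck_pos k) (ck_le k))

/-- the inverse -/
def chj (k : ℕ) : ℝ → ℝ := (psj_inv k).2.choose

lemma chj_c1 (k : ℕ) : ContDiff ℝ 1 (chj k) := (psj_inv k).2.choose_spec.1

lemma chj_psj (k : ℕ) (x : ℝ) : chj k (psj (ck k) x) = x := (psj_inv k).2.choose_spec.2.1 x

lemma psj_chj (k : ℕ) (x : ℝ) : psj (ck k) (chj k x) = x := (psj_inv k).2.choose_spec.2.2 x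

lemma psj_mono (k : ℕ) : StrictMono (psj (ck k)) := (psj_inv k).1

lemma psj_zero (k : ℕ) : psj (ck k) 0 = 0 := by
  rw [psj_left (ck_pos k) (ck_le k) (by norm_num)]; simp

lemma psj_one (k : ℕ) : psj (ck k) 1 = 1 := by
  rcases Nat.eq_zero_or_pos k with h | h
  · subst h
    have : ck 0 = 1 := by simp [ck]
    rw [this, psj_mid one_pos (by norm_num) (by norm_num)]; norm_num
  · have h2 : ck k ≤ 1 / 2 := by
      unfold ck
      calc (1 / 2 : ℝ) ^ k ≤ (1 / 2) ^ 1 := pow_le_pow_of_le_one (by norm_num) (by norm_num) h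
        _ = 1 / 2 := pow_one _
    rw [psj_right (ck_pos k) (by linarith)]; norm_num

lemma psj_pos (k : ℕ) {x : ℝ} (hx : 0 < x) : 0 < psj (ck k) x := by
  have := psj_mono k hx
  rwa [psj_zero] at this

lemma psj_lt_one (k : ℕ) {x : ℝ} (hx : x < 1) : psj (ck k) x < 1 := by
  have := psj_mono k hx
  rwa [psj_one] at this

lemma chj_pos (k : ℕ) {y : ℝ} (hy : 0 < y) : 0 < chj k y := by
  by_contra h
  have h1 := (psj_mono k).monotone (not_lt.mp h)
  rw [psj_chj, psj_zero] at h1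
  linarith

lemma chj_lt_one (k : ℕ) {y : ℝ} (hy : y < 1) : chj k y < 1 := by
  by_contra h
  have h1 := (psj_mono k).monotone (not_lt.mp h)
  rw [psj_chj, psj_one] at h1
  linarith

lemma InO_psj (k : ℕ) {x : ℝ} (hx0 : 0 < x) (hx1 : x < 1) : InO (psj (ck k) x) ↔ InO x :=
  InO_psj_of hx0 hx1 (psj_mono k) (fun x hx => psj_left (ck_pos k) (ck_le k) hx)
    (fun x h1 h2 => psj_mid (ck_pos k) h1 h2) (fun x h => psj_right (ck_pos k) h)

lemma psj_lip (k : ℕ) (x y : ℝ) : |psj (ck k) x - psj (ck k) y| ≤ 24 * |x - y| := by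
  have h : LipschitzWith 24 (psj (ck k)) := by
    apply lipschitzWith_of_nnnorm_deriv_le
    · intro x
      exact (psj_deriv _ x).differentiableAt
    · intro x
      rw [(psj_deriv _ x).deriv, ← NNReal.coe_le_coe, coe_nnnorm, Real.norm_eq_abs,
        abs_of_nonneg (le_trans (half_pos (ck_pos k)).le (dpsj_ge (ck_pos k) (ck_le k) x))]
      exact dpsj_le (ck_pos k) (ck_le k) x
  have := h.dist_le_mul x y
  rw [Real.dist_eq, Real.dist_eq] at this
  exact_mod_cast this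

/-- the diffeomorphisms -/
def Fd (k : ℕ) (x : Eu (m + 2)) : Eu (m + 2) :=
  chg (psj (ck k) (x 1) + Z (x 0) (psj (ck k) (x 1))) x

/-- their inverses -/
def Gd (k : ℕ) (y : Eu (m + 2)) : Eu (m + 2) :=
  chg (chj k (y 1 - Z (y 0) (2 * y 1 / 3))) y

lemma Gd_Fd (k : ℕ) {x : Eu (m + 2)} (hx : x ∈ Om m) : Gd k (Fd k x) = x := by
  have h1 := Om.x1 hx
  have h : x 0 ≤ 0 ∨ InO (psj (ck k) (x 1)) := by
    rcases hx.2.2 with h | h
    · exact Or.inl h.le
    · exact Or.inr ((InO_psj k h1.1 h1.2).mpr h)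
  unfold Gd Fd
  rw [chg_chg, chg_one, chg_zero, Z_back h, add_sub_cancel_right, chj_psj, chg_self]

lemma Fd_eq (k : ℕ) {x : Eu (m + 2)} (hx1 : x 1 < 1) :
    Fd k x = Fc 1 (chg (psj (ck k) (x 1)) x) := by
  unfold Fc Fd
  rw [chg_chg, chg_one, chg_zero, psi_one (psj_lt_one k hx1).le]

lemma Fd_maps (k : ℕ) : MapsTo (Fd k) (Om m) (Om' m) := by
  intro x hx
  have h1 := Om.x1 hx
  rw [Fd_eq k h1.2]
  exact mem_image_of_mem _ (Om.chg_mem hx (psj_pos k h1.1) (psj_lt_one k h1.2)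
    fun h => (InO_psj k h1.1 h1.2).mpr h)

lemma Fd_surj (k : ℕ) : SurjOn (Fd k) (Om m) (Om' m) := by
  rintro y ⟨x, hx, rfl⟩
  have h1 := Om.x1 hx
  have h2 := chj_pos k h1.1
  have h3 := chj_lt_one k h1.2
  have h4 : chg (chj k (x 1)) x ∈ Om m := by
    refine Om.chg_mem hx h2 h3 fun h => ?_
    rw [← InO_psj k h2 h3, psj_chj]
    exact h
  refine ⟨_, h4, ?_⟩
  rw [Fd_eq k (Om.x1 h4).2, chg_one, psj_chj, chg_chg, chg_self]

lemma Fd_bij (k : ℕ) : BijOn (Fd k) (Om m) (Om' m) := by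
  refine ⟨Fd_maps k, ?_, Fd_surj k⟩
  intro x hx y hy h
  rw [← Gd_Fd k hx, ← Gd_Fd k hy, h]

lemma Fd_inv (k : ℕ) : InvOn (Gd k) (Fd k) (Om m) (Om' m) := by
  refine ⟨fun x hx => Gd_Fd k hx, ?_⟩
  intro y hy
  obtain ⟨x, hx, rfl⟩ := Fd_surj k hy
  rw [Gd_Fd k hx]

lemma chg_c1 {g : Eu (m + 2) → ℝ} {x : Eu (m + 2)} (hg : ContDiffAt ℝ 1 g x) :
    ContDiffAt ℝ 1 (fun x => chg (g x) x) x := by
  unfold chg
  have h1 : ContDiffAt ℝ 1 (fun x : Eu (m + 2) => x 1) x :=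
    (EuclideanSpace.proj (𝕜 := ℝ) (1 : Fin (m + 2))).contDiff.contDiffAt
  exact contDiffAt_id.add ((hg.sub h1).smul contDiffAt_const)

lemma coord_c1 (i : Fin (m + 2)) (x : Eu (m + 2)) : ContDiffAt ℝ 1 (fun x : Eu (m + 2) => x i) x :=
  (EuclideanSpace.proj (𝕜 := ℝ) i).contDiff.contDiffAt

lemma coord_cont (i : Fin (m + 2)) : Continuous (fun x : Eu (m + 2) => x i) := by fun_prop

/-- `Z` along a height function of locally constant scale -/
lemma Z_c1 {u v : Eu (m + 2) → ℝ} {x : Eu (m + 2)} (hv : ContDiffAt ℝ 1 v x) {l : ℝ} (hl : 0 < l)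
    (h : ∀ᶠ y in 𝓝 x, lam (u y) = l) : ContDiffAt ℝ 1 (fun y => Z (v y) (u y)) x := by
  have h1 := (contDiff_prof hl).contDiffAt.comp x hv
  refine h1.congr_of_eventuallyEq ?_
  filter_upwards [h] with y hy
  unfold Z
  rw [hy]
  rfl

lemma Fd_c1 (k : ℕ) : ContDiffOn ℝ 1 (Fd k) (Om m) := by
  intro x hx
  apply ContDiffAt.contDiffWithinAt
  have h1 := Om.x1 hx
  have hp : ContDiffAt ℝ 1 (fun x : Eu (m + 2) => psj (ck k) (x 1)) x :=
    (psj_c1 _).contDiffAt.comp x (coord_c1 1 x)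
  apply chg_c1
  refine hp.add ?_
  rcases hx.2.2 with h | h
  · have h2 : (fun x : Eu (m + 2) => Z (x 0) (psj (ck k) (x 1))) =ᶠ[𝓝 x] fun _ => (0 : ℝ) := by
      filter_upwards [(coord_cont 0).continuousAt.eventually_lt continuousAt_const h] with y hy
      exact Z_of_nonpos (le_of_lt hy) _
    exact contDiffAt_const.congr_of_eventuallyEq h2
  · have h3 := (InO_psj k h1.1 h1.2).mpr h
    have hb := h3.lam_bounds
    have hlp := lam_pos h3.pos
    refine Z_c1 (coord_c1 0 x) hlp ?_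
    have hc : ContinuousAt (fun x : Eu (m + 2) => psj (ck k) (x 1)) x := hp.continuousAt
    filter_upwards [hc.eventually_lt continuousAt_const hb.2,
      continuousAt_const.eventually_lt hc hb.1] with y hy1 hy2
    apply lam_eq_lam h3.pos
    · linarith
    · exact hy1.le

lemma Gd_c1 (k : ℕ) : ContDiffOn ℝ 1 (Gd k) (Om' m) := by
  rintro _ ⟨x, hx, rfl⟩
  apply ContDiffAt.contDiffWithinAt
  have h1 := Om.x1 hx
  apply chg_c1
  refine (chj_c1 k).contDiffAt.comp _ ?_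
  refine (coord_c1 1 _).sub ?_
  rcases hx.2.2 with h | h
  · have h0 : (Fc 1 x : Eu (m + 2)) 0 < 0 := by
      unfold Fc; rw [chg_zero]; exact h
    have h2 : (fun y : Eu (m + 2) => Z (y 0) (2 * y 1 / 3)) =ᶠ[𝓝 (Fc 1 x)] fun _ => (0 : ℝ) := by
      filter_upwards [(coord_cont 0).continuousAt.eventually_lt continuousAt_const h0] with y hy
      exact Z_of_nonpos (le_of_lt hy) _
    exact contDiffAt_const.congr_of_eventuallyEq h2
  · have hb := h.lam_bounds
    have hlp := lam_pos h.pos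
    have e1 : (Fc 1 x : Eu (m + 2)) 1 = x 1 + Z (x 0) (x 1) := by
      unfold Fc; rw [chg_one, psi_one h1.2.le]
    have hz0 := Z_nonneg (x 0) (x 1)
    have hz1 := Z_le (x 0) (x 1)
    refine Z_c1 (coord_c1 0 _) hlp ?_
    have hc : ContinuousAt (fun y : Eu (m + 2) => 2 * y 1 / 3) (Fc 1 x) := by
      have := (coord_cont (m := m) 1).continuousAt (x := Fc 1 x)
      fun_prop
    have b1 : 2 * (Fc 1 x : Eu (m + 2)) 1 / 3 < lam (x 1) := by rw [e1]; linarith
    have b2 : lam (x 1) / 2 < 2 * (Fc 1 x : Eu (m + 2)) 1 / 3 := by rw [e1]; linarith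
    filter_upwards [hc.eventually_lt continuousAt_const b1,
      continuousAt_const.eventually_lt hc b2] with y hy1 hy2
    apply lam_eq_lam h.pos
    · linarith
    · exact hy1.le

end

end Pool.Agent.L5helper85.Comb
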