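import Pool.Agent.L5helper85.CombDf

/-!
# The limit map of the comb is a weak limit of `C¹` diffeomorphisms
-/

set_option autoImplicit false

open MeasureTheory Set Filter Topology Metric
open scoped ENNReal NNReal InnerProductSpace

namespace Pool.Agent.L5helper85.Comb

open Pool.Agent.L5helper85.Sob

noncomputable section

/-- `f` is a diffeomorphism of `Ω` onto `Ω'`: a `C¹` bijection with `C¹` inverse. -/
def IsDiffeo {n : ℕ} (Ω Ω' : Set (Eu n)) (f : Eu n → Eu n) : Prop :=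
  BijOn f Ω Ω' ∧ ContDiffOn ℝ 1 f Ω ∧ ∃ g : Eu n → Eu n, InvOn g f Ω Ω' ∧ ContDiffOn ℝ 1 g Ω'

/-- The weak `W^{1,p}` closure of the diffeomorphisms of `Ω` onto `Ω'`: all `f ∈ W^{1,p}(Ω, ℝⁿ)`
with values a.e. in the closure of `Ω'` which are weak limits of diffeomorphisms
`F k ∈ W^{1,p}` of `Ω` onto `Ω'`. -/
def weakDiffClosure {n : ℕ} (p : ℝ≥0∞) (Ω Ω' : Set (Eu n)) : Set (Eu n → Eu n) :=
  {f | (∀ᵐ x ∂(volume.restrict Ω), f x ∈ closure Ω') ∧
    ∃ (Df : Eu n → (Eu n →L[ℝ] Eu n)) (F : ℕ → Eu n → Eu n) (DF : ℕ → Eu n → (Eu n →L[ℝ] Eu n)),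
      IsSobolev p Ω f Df ∧ (∀ k, IsDiffeo Ω Ω' (F k) ∧ IsSobolev p Ω (F k) (DF k)) ∧
      WeakConv p Ω F DF f Df}

/-- The strong `W^{1,p}` closure of the diffeomorphisms of `Ω` onto `Ω'`. -/
def strongDiffClosure {n : ℕ} (p : ℝ≥0∞) (Ω Ω' : Set (Eu n)) : Set (Eu n → Eu n) :=
  {f | (∀ᵐ x ∂(volume.restrict Ω), f x ∈ closure Ω') ∧
    ∃ (Df : Eu n → (Eu n →L[ℝ] Eu n)) (F : ℕ → Eu n → Eu n) (DF : ℕ → Eu n → (Eu n →L[ℝ] Eu n)),
      IsSobolev p Ω f Df ∧ (∀ k, IsDiffeo Ω Ω' (F k) ∧ IsSobolev p Ω (F k) (DF k)) ∧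
      StrongConv p Ω F DF f Df}

lemma IsDiffeo.isHomeo {n : ℕ} {Ω Ω' : Set (Eu n)} {f : Eu n → Eu n} (h : IsDiffeo Ω Ω' f) :
    IsHomeo Ω Ω' f := by
  obtain ⟨h1, h2, g, h3, h4⟩ := h
  exact ⟨h1, h2.continuousOn, g, h3, h4.continuousOn⟩

lemma strongDiff_subset {n : ℕ} {p : ℝ≥0∞} {Ω Ω' : Set (Eu n)} :
    strongDiffClosure p Ω Ω' ⊆ strongClosure p Ω Ω' := by
  rintro f ⟨h1, Df, F, DF, h2, h3, h4⟩
  exact ⟨h1, Df, F, DF, h2, fun k => ⟨(h3 k).1.isHomeo, (h3 k).2⟩, h4⟩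

variable {m : ℕ}

lemma Fd_diffeo (k : ℕ) : IsDiffeo (Om m) (Om' m) (Fd k) :=
  ⟨Fd_bij k, Fd_c1 k, Gd k, Fd_inv k, Gd_c1 k⟩

lemma psj_near (k : ℕ) {x : ℝ} (hx0 : 0 < x) : |psj (ck k) x - psi (ck k) x| ≤ ck k := by
  have hc := ck_pos k
  have hc1 := ck_le k
  have hm := psj_mono k
  rcases le_or_gt x (7 / 8) with h | h
  · rw [psj_left hc hc1 h, psi_left hc1 hc.le hx0 (by linarith)]; simp [hc.le]
  rcases lt_or_ge x (15 / 16) with h2 | h2
  · rw [psi_left hc1 hc.le hx0 h2.le]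
    have a1 := hm h
    have a2 := hm h2
    rw [psj_left hc hc1 le_rfl] at a1
    rw [psj_mid hc le_rfl (by linarith)] at a2
    have a3 : ck k * x ≤ ck k * (15 / 16) := by gcongr
    have a4 : ck k * (7 / 8) ≤ ck k * x := by gcongr
    rw [abs_le]; constructor <;> linarith
  rcases le_or_gt x (15 / 16 + ck k / 16) with h3 | h3
  · rw [psj_mid hc h2 h3, psi_mid hc1 h2 h3]; simp [hc.le]
  rw [psi_right hc1 hc.le h3.le]
  rcases lt_or_ge x (15 / 16 + 7 * ck k / 64) with h4 | h4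
  · have a1 := hm h3
    have a2 := hm h4
    rw [psj_mid hc (by linarith) le_rfl] at a1
    rw [psj_right hc le_rfl] at a2
    rw [abs_le]; constructor <;> linarith
  · rw [psj_right hc h4]; simp [hc.le]

lemma tendsto_psj {x : ℝ} (hx0 : 0 < x) :
    Tendsto (fun k : ℕ => psj (ck k) x) atTop (𝓝 (psi 0 x)) := by
  have h1 := tendsto_psi x
  have h2 : Tendsto (fun k : ℕ => ck k) atTop (𝓝 0) :=
    tendsto_pow_atTop_nhds_zero_of_lt_one (by norm_num) (by norm_num)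
  have h3 : Tendsto (fun k : ℕ => psj (ck k) x - psi (ck k) x) atTop (𝓝 0) := by
    apply squeeze_zero_norm _ h2
    intro k
    rw [Real.norm_eq_abs]
    exact psj_near k hx0
  have h4 := h3.add h1
  simpa [ck] using h4

lemma Fd_tendsto {x : Eu (m + 2)} (hx : x ∈ Om m) :
    Tendsto (fun k : ℕ => Fd k x) atTop (𝓝 (Fc 0 x)) := by
  have h1 := Om.x1 hx
  have h2 := tendsto_psj h1.1
  have h3 : Tendsto (fun k : ℕ => Z (x 0) (psj (ck k) (x 1))) atTop (𝓝 (Z (x 0) (psi 0 (x 1)))) := by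
    rw [tendsto_iff_dist_tendsto_zero]
    have h4 : Tendsto (fun k : ℕ => 6 * |psj (ck k) (x 1) - psi 0 (x 1)|) atTop (𝓝 0) := by
      have := h2
      rw [tendsto_iff_dist_tendsto_zero] at this
      simpa [Real.dist_eq] using this.const_mul 6
    refine squeeze_zero (fun k => dist_nonneg) (fun k => ?_) h4
    rw [Real.dist_eq]
    have := Z_lip_all (s := x 0) (s' := x 0) (u := psj (ck k) (x 1)) (u' := psi 0 (x 1))
      (hx.2.2.imp le_of_lt fun h => good_of_InO ((InO_psj k h1.1 h1.2).mpr h))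
      (hx.2.2.imp le_of_lt good_psi_zero)
    simpa using this
  unfold Fd Fc chg
  exact tendsto_const_nhds.add (((h2.add h3).sub_const _).smul_const _)

lemma Fd_lip (k : ℕ) {x y : Eu (m + 2)} (hx : x ∈ Om m) (hy : y ∈ Om m) :
    ‖Fd k x - Fd k y‖ ≤ 171 * ‖x - y‖ := by
  unfold Fd
  refine (chg_dist _ _ _ _).trans ?_
  have hx1 := Om.x1 hx
  have hy1 := Om.x1 hy
  have h1 := psj_lip k (x 1) (y 1)
  have h2 : |Z (x 0) (psj (ck k) (x 1)) - Z (y 0) (psj (ck k) (y 1))| ≤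
      |x 0 - y 0| + 6 * |psj (ck k) (x 1) - psj (ck k) (y 1)| := by
    apply Z_lip_all
    · exact hx.2.2.imp le_of_lt fun h => good_of_InO ((InO_psj k hx1.1 hx1.2).mpr h)
    · exact hy.2.2.imp le_of_lt fun h => good_of_InO ((InO_psj k hy1.1 hy1.2).mpr h)
  have h3 : |x 0 - y 0| ≤ ‖x - y‖ := by
    have := abs_coord_le (x - y) 0
    simpa using this
  have h4 : |x 1 - y 1| ≤ ‖x - y‖ := by
    have := abs_coord_le (x - y) 1
    simpa using this
  have h5 : |psj (ck k) (x 1) + Z (x 0) (psj (ck k) (x 1)) -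
      (psj (ck k) (y 1) + Z (y 0) (psj (ck k) (y 1)))| ≤
      |psj (ck k) (x 1) - psj (ck k) (y 1)| +
        |Z (x 0) (psj (ck k) (x 1)) - Z (y 0) (psj (ck k) (y 1))| := by
    have e : psj (ck k) (x 1) + Z (x 0) (psj (ck k) (x 1)) -
        (psj (ck k) (y 1) + Z (y 0) (psj (ck k) (y 1))) =
      (psj (ck k) (x 1) - psj (ck k) (y 1)) +
        (Z (x 0) (psj (ck k) (x 1)) - Z (y 0) (psj (ck k) (y 1))) := by ring
    rw [e]; exact abs_add_le _ _
  linarith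

lemma Fd_lipOn (k : ℕ) : LipschitzOnWith 171 (Fd k) (Om m) := by
  apply LipschitzOnWith.of_dist_le_mul
  intro x hx y hy
  rw [dist_eq_norm, dist_eq_norm]
  exact Fd_lip k hx hy

lemma Fd_bound (m : ℕ) : ∃ R : ℝ, (∀ k : ℕ, ∀ x ∈ Om m, ‖Fd k x‖ ≤ R) ∧
    ∀ x ∈ Om m, ‖Fc 0 x‖ ≤ R := by
  obtain ⟨R, hR⟩ := isBounded_iff_forall_norm_le.mp (Om_bdd (m := m))
  obtain ⟨R', hR'⟩ := Fc_bound m
  refine ⟨max (R + 3) R', fun k x hx => ?_, fun x hx => (hR' 0 (Or.inl rfl) x hx).trans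
    (le_max_right _ _)⟩
  refine le_trans ?_ (le_max_left _ _)
  have h1 := Om.x1 hx
  have hp0 := psj_pos k h1.1
  have hp1 := psj_lt_one k h1.2
  have hZ0 := Z_nonneg (x 0) (psj (ck k) (x 1))
  have hZ1 := Z_le (x 0) (psj (ck k) (x 1))
  have hl : lam (psj (ck k) (x 1)) ≤ 2 := by linarith [lam_lt hp0]
  unfold Fd chg
  calc ‖x + (psj (ck k) (x 1) + Z (x 0) (psj (ck k) (x 1)) - x 1) • e1 m‖
      ≤ ‖x‖ + ‖(psj (ck k) (x 1) + Z (x 0) (psj (ck k) (x 1)) - x 1) • e1 m‖ := norm_add_le _ _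
    _ = ‖x‖ + |psj (ck k) (x 1) + Z (x 0) (psj (ck k) (x 1)) - x 1| := by
        rw [norm_smul, norm_e1, mul_one, Real.norm_eq_abs]
    _ ≤ R + 3 := by
        have h4 : |psj (ck k) (x 1) + Z (x 0) (psj (ck k) (x 1)) - x 1| ≤ 3 := by
          rw [abs_le]; constructor <;> linarith [h1.1, h1.2]
        linarith [hR x hx]

lemma weak_diff_part (p : ℝ≥0∞) : Fc 0 ∈ weakDiffClosure p (Om m) (Om' m) := by
  obtain ⟨R, hR, hR0⟩ := Fd_bound m
  obtain ⟨K, hK⟩ := exists_sobolev_of_lip (m + 2) 171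
  have hex : ∀ k, ∃ Df : Eu (m + 2) → (Eu (m + 2) →L[ℝ] Eu (m + 2)),
      (∀ p, IsSobolev p (Om m) (Fd k) Df) ∧ (∀ x, ‖Df x‖ ≤ K) ∧ Measurable Df := fun k =>
    hK (Om m) (Fd k) R Om_open vol_Om_lt (hR k) (Fd_lipOn k)
  obtain ⟨D0, hD0, hD0K, hD0m⟩ := hK (Om m) (Fc 0) R Om_open vol_Om_lt hR0
    ((Fc_lipOn (Or.inl rfl)).weaken (by norm_num))
  choose D hD hDK hDm using hex
  have hmeas : ∀ k, AEStronglyMeasurable (Fd k) (volume.restrict (Om m)) := fun k =>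
    (Fd_lipOn k).continuousOn.aestronglyMeasurable Om_open.measurableSet
  have hmeas0 : AEStronglyMeasurable (Fc 0) (volume.restrict (Om m)) :=
    (Fc_cont (Or.inl rfl)).aestronglyMeasurable Om_open.measurableSet
  have hae : ∀ᵐ x ∂((volume : Measure (Eu (m + 2))).restrict (Om m)), x ∈ Om m :=
    ae_restrict_mem Om_open.measurableSet
  refine ⟨?_, D0, Fd, D, hD0 p, fun k => ⟨Fd_diffeo k, hD k p⟩, ?_, ?_⟩
  · filter_upwards [hae] with x hx
    exact mem_closure_of_tendsto (Fd_tendsto hx) (Eventually.of_forall fun k => Fd_maps k hx)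
  · apply weakLp_of_scalar (K := R) vol_Om_lt (fun k => hmeas k)
      (fun k => hae.mono fun x hx => hR k x hx) hmeas0
      (hae.mono fun x hx => hR0 x hx)
    intro η hη
    apply tendsto_integral_of_dominated_convergence (fun x => ‖η x‖ * R)
    · intro k
      exact hη.1.smul (hmeas k)
    · exact hη.norm.mul_const R
    · intro k
      filter_upwards [hae] with x hx
      rw [norm_smul]
      gcongr
      exact hR k x hx
    · filter_upwards [hae] with x hx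
      exact (Fd_tendsto hx).const_smul _
  · intro v
    have hv : ∀ (L : Eu (m + 2) →L[ℝ] Eu (m + 2)), ‖L‖ ≤ K → ‖L v‖ ≤ K * ‖v‖ := by
      intro L hL
      refine (ContinuousLinearMap.le_opNorm _ _).trans ?_
      gcongr
    have hma : ∀ (G : Eu (m + 2) → (Eu (m + 2) →L[ℝ] Eu (m + 2))), Measurable G →
        AEStronglyMeasurable (fun x => G x v) (volume.restrict (Om m)) := fun G hG =>
      (hG.aestronglyMeasurable).apply_continuousLinearMap v
    apply weakLp_of_scalar (K := K * ‖v‖) vol_Om_lt (fun k => hma _ (hDm k))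
      (fun k => Eventually.of_forall fun x => hv _ (hDK k x)) (hma _ hD0m)
      (Eventually.of_forall fun x => hv _ (hD0K x))
    intro η hη
    exact weak_deriv (v := v) Om_open Om_bdd (fun k => hmeas k)
      (fun k => hR k) (fun x hx => Fd_tendsto hx) (fun k => hma _ (hDm k))
      (fun k x => hv _ (hDK k x)) (hma _ hD0m) (fun x => hv _ (hD0K x))
      (fun k φ h1 h2 h3 => (hD k 1).2.2 φ h1 h2 h3 v)
      (fun φ h1 h2 h3 => (hD0 1).2.2 φ h1 h2 h3 v) hη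

end

end Pool.Agent.L5helper85.Comb
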