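import Mathlib

/-!
# The self similar set of heights of the teeth of the comb
-/

set_option autoImplicit false

open Set Filter Topology Metric

namespace Pool.Agent.L5helper85.Comb

noncomputable section

/-- The set of heights: generated from `(7/8, 15/16)` by `x ↦ x / 2` and `x ↦ 15/16 + x/16`. -/
inductive InO : ℝ → Prop
  | base (x : ℝ) : 7 / 8 < x → x < 15 / 16 → InO x
  | left (x : ℝ) : InO x → InO (x / 2)
  | right (x : ℝ) : InO x → InO (15 / 16 + x / 16)

lemma InO.pos {x : ℝ} (h : InO x) : 0 < x := by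
  induction h with
  | base x h1 h2 => linarith
  | left x h ih => linarith
  | right x h ih => linarith

lemma InO.lt_one {x : ℝ} (h : InO x) : x < 1 := by
  induction h with
  | base x h1 h2 => linarith
  | left x h ih => linarith [h.pos]
  | right x h ih => linarith

lemma InO.isOpen : IsOpen {x : ℝ | InO x} := by
  rw [Metric.isOpen_iff]
  intro x hx
  have hx' : InO x := hx
  clear hx
  induction hx' with
  | base x h1 h2 =>
    refine ⟨min (x - 7/8) (15/16 - x), lt_min (by linarith) (by linarith), fun y hy => ?_⟩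
    rw [mem_ball, Real.dist_eq, lt_min_iff, abs_lt, abs_lt] at hy
    exact InO.base y (by linarith [hy.1.1]) (by linarith [hy.2.2])
  | left x h ih =>
    obtain ⟨ε, hε, hb⟩ := ih
    refine ⟨ε / 2, by linarith, fun y hy => ?_⟩
    have : InO (2 * y) := by
      apply hb
      rw [mem_ball, Real.dist_eq] at hy ⊢
      have : 2 * y - x = 2 * (y - x / 2) := by ring
      rw [this, abs_mul, abs_of_pos (by norm_num : (0:ℝ) < 2)]
      linarith
    have h2 := InO.left _ this
    have h3 : 2 * y / 2 = y := by ring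
    rw [h3] at h2
    exact h2
  | right x h ih =>
    obtain ⟨ε, hε, hb⟩ := ih
    refine ⟨ε / 16, by linarith, fun y hy => ?_⟩
    have : InO (16 * y - 15) := by
      apply hb
      rw [mem_ball, Real.dist_eq] at hy ⊢
      have : 16 * y - 15 - x = 16 * (y - (15 / 16 + x / 16)) := by ring
      rw [this, abs_mul, abs_of_pos (by norm_num : (0:ℝ) < 16)]
      linarith
    have h2 := InO.right _ this
    have h3 : 15 / 16 + (16 * y - 15) / 16 = y := by ring
    rw [h3] at h2
    exact h2

lemma InO.half_iff {x : ℝ} (hx : x ≤ 1) : InO (x / 2) ↔ InO x := by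
  constructor
  · intro h
    generalize hy : x / 2 = y at h
    cases h with
    | base y h1 h2 => linarith
    | left z h => 
      have : x = z := by linarith
      rw [this]; exact h
    | right z h => linarith [h.pos]
  · exact InO.left x

lemma InO.right_iff {x : ℝ} (hx : 0 < x) : InO (15 / 16 + x / 16) ↔ InO x := by
  constructor
  · intro h
    generalize hy : 15 / 16 + x / 16 = y at h
    cases h with
    | base y h1 h2 => linarith
    | left z h => linarith [h.lt_one]
    | right z h => 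
      have : x = z := by linarith
      rw [this]; exact h
  · exact InO.right x

lemma InO.right_iff' {x : ℝ} (hx : 15 / 16 < x) : InO (16 * x - 15) ↔ InO x := by
  rw [← InO.right_iff (by linarith)]
  have : 15 / 16 + (16 * x - 15) / 16 = x := by ring
  rw [this]

lemma InO.pow_iff {x : ℝ} (hx : x ≤ 1) (_h0 : 0 < x) (k : ℕ) : InO (x * (1 / 2) ^ k) ↔ InO x := by
  induction k with
  | zero => simp
  | succ k ih =>
    rw [← ih]
    have h1 : x * (1 / 2) ^ (k + 1) = (x * (1 / 2) ^ k) / 2 := by ring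
    rw [h1]
    apply InO.half_iff
    calc x * (1/2)^k ≤ 1 * 1 := by
          gcongr
          exact pow_le_one₀ (by norm_num) (by norm_num)
      _ = 1 := by norm_num

/-- every height lies in the upper eighth of a dyadic interval -/
lemma InO.level {x : ℝ} (h : InO x) : ∃ i : ℕ, (7 / 8) * (1 / 2 : ℝ) ^ i < x ∧ x < (1 / 2 : ℝ) ^ i := by
  induction h with
  | base x h1 h2 => exact ⟨0, by norm_num; linarith, by norm_num; linarith⟩
  | left x h ih =>
    obtain ⟨i, h1, h2⟩ := ih
    exact ⟨i + 1, by rw [pow_succ]; linarith, by rw [pow_succ]; linarith⟩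
  | right x h ih => exact ⟨0, by norm_num; linarith [h.pos], by norm_num; linarith [h.lt_one]⟩

/-- the scale of a height: `2^i` for `2^(i-1) < u ≤ 2^i`, and `0` for `u ≤ 0`. -/
def lam (u : ℝ) : ℝ := if 0 < u then (2 : ℝ) ^ (Int.clog 2 u) else 0

lemma lam_of_nonpos {u : ℝ} (hu : u ≤ 0) : lam u = 0 := by
  rw [lam, if_neg (not_lt.mpr hu)]

lemma lam_pos {u : ℝ} (hu : 0 < u) : 0 < lam u := by
  rw [lam, if_pos hu]; positivity

lemma lam_nonneg (u : ℝ) : 0 ≤ lam u := by
  rcases le_or_gt u 0 with h | h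
  · rw [lam_of_nonpos h]
  · exact (lam_pos h).le

lemma le_lam {u : ℝ} (hu : 0 < u) : u ≤ lam u := by
  rw [lam, if_pos hu]
  exact Int.self_le_zpow_clog (by norm_num) u

lemma lam_lt {u : ℝ} (hu : 0 < u) : lam u < 2 * u := by
  rw [lam, if_pos hu]
  have h := Int.zpow_pred_clog_lt_self (b := 2) (by norm_num) hu
  have h2 : (2 : ℝ) ^ (Int.clog 2 u) = 2 * (2 : ℝ) ^ (Int.clog 2 u - 1) := by
    rw [zpow_sub_one₀ (by norm_num)]; ring
  rw [h2]
  push_cast at h
  linarith

lemma lam_eq_zpow {u : ℝ} {i : ℤ} (h1 : (2 : ℝ) ^ i < 2 * u) (h2 : u ≤ (2 : ℝ) ^ i) :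
    lam u = (2 : ℝ) ^ i := by
  have hp : (0 : ℝ) < (2 : ℝ) ^ i := by positivity
  have hu : 0 < u := by linarith
  rw [lam, if_pos hu]
  congr 1
  apply le_antisymm
  · rw [← Int.le_zpow_iff_clog_le (by norm_num) hu]
    push_cast; exact h2
  · by_contra hcon
    push Not at hcon
    have h3 : Int.clog 2 u ≤ i - 1 := by omega
    rw [← Int.le_zpow_iff_clog_le (by norm_num) hu] at h3
    push_cast at h3
    rw [zpow_sub_one₀ (by norm_num)] at h3
    linarith

lemma lam_eq_pow {u : ℝ} {i : ℕ} (h1 : (1 / 2 : ℝ) ^ i < 2 * u) (h2 : u ≤ (1 / 2 : ℝ) ^ i) :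
    lam u = (1 / 2 : ℝ) ^ i := by
  have e : (1 / 2 : ℝ) ^ i = (2 : ℝ) ^ (-(i : ℤ)) := by
    rw [zpow_neg, zpow_natCast, one_div, inv_pow]
  rw [e] at h1 h2 ⊢
  exact lam_eq_zpow h1 h2

/-- the scale of a point whose scale is comparable -/
lemma lam_eq_lam {u v : ℝ} (hu : 0 < u) (h1 : lam u < 2 * v) (h2 : v ≤ lam u) : lam v = lam u := by
  have e : lam u = (2 : ℝ) ^ (Int.clog 2 u) := by rw [lam, if_pos hu]
  rw [e] at h1 h2 ⊢
  exact lam_eq_zpow h1 h2

/-- two different scales differ by a factor of two at least -/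
lemma lam_le_half {u v : ℝ} (hu : 0 < u) (h : lam u < lam v) : 2 * lam u ≤ lam v := by
  have hv : 0 < v := by
    by_contra hv
    rw [lam_of_nonpos (not_lt.mp hv)] at h
    exact absurd (lam_nonneg u) (not_le.mpr h)
  rw [lam, if_pos hu, lam, if_pos hv] at *
  have h1 : Int.clog 2 u < Int.clog 2 v := (zpow_lt_zpow_iff_right₀ (by norm_num)).mp h
  have h2 : Int.clog 2 u + 1 ≤ Int.clog 2 v := by omega
  calc 2 * (2:ℝ) ^ (Int.clog 2 u) = (2:ℝ) ^ (Int.clog 2 u + 1) := by
        rw [zpow_add_one₀ (by norm_num)]; ring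
    _ ≤ _ := zpow_le_zpow_right₀ (by norm_num) h2

lemma InO.lam_bounds {x : ℝ} (h : InO x) : 7 / 8 * lam x < x ∧ x < lam x := by
  obtain ⟨i, h1, h2⟩ := h.level
  have hp : (0 : ℝ) < (1/2 : ℝ) ^ i := by positivity
  rw [lam_eq_pow (i := i) (by linarith) h2.le]
  exact ⟨h1, h2⟩

/-- `ζ`: the amplitude `lam u / 4 * (1 - cos (π s⁺ / lam u))` of the zigzag -/
def Z (s u : ℝ) : ℝ := lam u / 4 * (1 - Real.cos (Real.pi * max s 0 / lam u))

lemma Z_nonneg (s u : ℝ) : 0 ≤ Z s u := by
  unfold Z
  have := lam_nonneg u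
  have := Real.cos_le_one (Real.pi * max s 0 / lam u)
  apply mul_nonneg
  · linarith
  · linarith

lemma Z_le (s u : ℝ) : Z s u ≤ lam u / 2 := by
  unfold Z
  have := lam_nonneg u
  have := Real.neg_one_le_cos (Real.pi * max s 0 / lam u)
  nlinarith

lemma Z_of_nonpos {s : ℝ} (hs : s ≤ 0) (u : ℝ) : Z s u = 0 := by
  unfold Z
  rw [max_eq_right hs]; simp

lemma Z_of_nonpos' (s : ℝ) {u : ℝ} (hu : u ≤ 0) : Z s u = 0 := by
  unfold Z
  rw [lam_of_nonpos hu]; simp

lemma Z_lip (s s' u : ℝ) : |Z s u - Z s' u| ≤ |s - s'| := by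
  rcases le_or_gt u 0 with hu | hu
  · rw [Z_of_nonpos' _ hu, Z_of_nonpos' _ hu]; simp
  have hl := lam_pos hu
  unfold Z
  set l := lam u
  have h1 : l / 4 * (1 - Real.cos (Real.pi * max s 0 / l)) - l / 4 * (1 - Real.cos (Real.pi * max s' 0 / l))
      = l / 4 * (Real.cos (Real.pi * max s' 0 / l) - Real.cos (Real.pi * max s 0 / l)) := by ring
  rw [h1, abs_mul, abs_of_pos (by linarith : 0 < l / 4)]
  have h2 : |Real.cos (Real.pi * max s' 0 / l) - Real.cos (Real.pi * max s 0 / l)| ≤
      |Real.pi * max s' 0 / l - Real.pi * max s 0 / l| := by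
    have := Real.abs_cos_sub_cos_le (Real.pi * max s' 0 / l) (Real.pi * max s 0 / l)
    exact this
  have h3 : |Real.pi * max s' 0 / l - Real.pi * max s 0 / l| = Real.pi / l * |max s' 0 - max s 0| := by
    have e : Real.pi * max s' 0 / l - Real.pi * max s 0 / l =
        Real.pi / l * (max s' 0 - max s 0) := by ring
    rw [e, abs_mul, abs_of_pos (by positivity : 0 < Real.pi / l)]
  have h4 : |max s' 0 - max s 0| ≤ |s - s'| := by
    have := abs_max_sub_max_le_abs s' s 0
    rw [abs_sub_comm s s']; exact this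
  have hpi : Real.pi ≤ 4 := Real.pi_le_four
  calc l / 4 * |Real.cos (Real.pi * max s' 0 / l) - Real.cos (Real.pi * max s 0 / l)|
      ≤ l / 4 * (Real.pi / l * |s - s'|) := by
        gcongr
        rw [h3] at h2
        refine h2.trans ?_
        gcongr
    _ = Real.pi / 4 * |s - s'| := by field_simp
    _ ≤ 1 * |s - s'| := by gcongr; linarith
    _ = |s - s'| := one_mul _

/-- good heights: nonpositive, or in the upper part of a dyadic interval -/
def Good (u : ℝ) : Prop := u ≤ 0 ∨ 7 / 12 * lam u < u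

lemma Z_lip2_aux {s u u' : ℝ} (hu : 7 / 12 * lam u < u) (h : u' ≤ 0 ∨ (0 < u' ∧ lam u' < lam u)) :
    |Z s u - Z s u'| ≤ 6 * |u - u'| := by
  have hl : 0 ≤ lam u := lam_nonneg u
  have hu'l : u' ≤ lam u / 2 ∧ lam u' ≤ lam u := by
    rcases h with h | ⟨h, h'⟩
    · exact ⟨by linarith, by rw [lam_of_nonpos h]; exact hl⟩
    · have h1 := lam_le_half h h'
      have h2 := le_lam h
      exact ⟨by linarith, by linarith [lam_nonneg u']⟩
  have h1 := Z_nonneg s u
  have h2 := Z_nonneg s u'
  have h3 := Z_le s u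
  have h4 := Z_le s u'
  have h5 : |Z s u - Z s u'| ≤ lam u / 2 := by
    rw [abs_le]; constructor <;> linarith [hu'l.2]
  have h6 : lam u / 12 ≤ |u - u'| := by
    refine le_trans ?_ (le_abs_self _)
    linarith [hu'l.1]
  linarith

lemma Z_lip2 {s u u' : ℝ} (hu : Good u) (hu' : Good u') : |Z s u - Z s u'| ≤ 6 * |u - u'| := by
  rcases le_or_gt u 0 with h0 | h0
  · rcases le_or_gt u' 0 with h0' | h0'
    · rw [Z_of_nonpos' _ h0, Z_of_nonpos' _ h0']; simp
    · rw [abs_sub_comm, abs_sub_comm u]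
      exact Z_lip2_aux (hu'.resolve_left (not_le.mpr h0')) (Or.inl h0)
  · rcases le_or_gt u' 0 with h0' | h0'
    · exact Z_lip2_aux (hu.resolve_left (not_le.mpr h0)) (Or.inl h0')
    · rcases lt_trichotomy (lam u) (lam u') with h | h | h
      · rw [abs_sub_comm, abs_sub_comm u]
        exact Z_lip2_aux (hu'.resolve_left (not_le.mpr h0')) (Or.inr ⟨h0, h⟩)
      · unfold Z; rw [h]; simp
      · exact Z_lip2_aux (hu.resolve_left (not_le.mpr h0)) (Or.inr ⟨h0', h⟩)

lemma Z_lip_all {s s' u u' : ℝ} (h : s ≤ 0 ∨ Good u) (h' : s' ≤ 0 ∨ Good u') :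
    |Z s u - Z s' u'| ≤ |s - s'| + 6 * |u - u'| := by
  rcases le_or_gt s 0 with hs | hs
  · rcases le_or_gt s' 0 with hs' | hs'
    · rw [Z_of_nonpos hs, Z_of_nonpos hs']; simp; positivity
    · have h1 : Z s u = Z s u' := by rw [Z_of_nonpos hs, Z_of_nonpos hs]
      rw [h1]
      have := Z_lip s s' u'
      have := abs_nonneg (u - u')
      linarith
  · rcases le_or_gt s' 0 with hs' | hs'
    · have h1 : Z s' u' = Z s' u := by rw [Z_of_nonpos hs', Z_of_nonpos hs']
      rw [h1]
      have := Z_lip s s' u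
      have := abs_nonneg (u - u')
      linarith
    · have g := h.resolve_left (not_le.mpr hs)
      have g' := h'.resolve_left (not_le.mpr hs')
      calc |Z s u - Z s' u'| ≤ |Z s u - Z s u'| + |Z s u' - Z s' u'| := abs_sub_le _ _ _
        _ ≤ 6 * |u - u'| + |s - s'| := add_le_add (Z_lip2 g g') (Z_lip s s' u')
        _ = _ := by ring

/-! ### the squeezing maps of the heights -/

/-- increasing bijection of `(0,1)`, linear with slope `c` on `(0, 15/16)`, and `16 x - 15` near
the other end -/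
def psi (c x : ℝ) : ℝ := max (c * x) (max (x - 15 / 16 + 15 / 16 * c) (16 * x - 15))

/-- the inverse of `psi c` -/
def chi (c y : ℝ) : ℝ := min (y / c) (min (y + 15 / 16 - 15 / 16 * c) ((y + 15) / 16))

lemma psi_chi {c : ℝ} (hc : 0 < c) (y : ℝ) : psi c (chi c y) = y := by
  unfold psi chi
  apply le_antisymm
  · refine max_le ?_ (max_le ?_ ?_)
    · calc c * min (y / c) (min (y + 15 / 16 - 15 / 16 * c) ((y + 15) / 16)) ≤ c * (y / c) := by
            gcongr; exact min_le_left _ _
        _ = y := by field_simp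
    · have : min (y / c) (min (y + 15 / 16 - 15 / 16 * c) ((y + 15) / 16)) ≤
          y + 15 / 16 - 15 / 16 * c := (min_le_right _ _).trans (min_le_left _ _)
      linarith
    · have : min (y / c) (min (y + 15 / 16 - 15 / 16 * c) ((y + 15) / 16)) ≤
          (y + 15) / 16 := (min_le_right _ _).trans (min_le_right _ _)
      linarith
  · rcases min_choice (y / c) (min (y + 15 / 16 - 15 / 16 * c) ((y + 15) / 16)) with h | h
    · rw [h]
      refine le_trans ?_ (le_max_left _ _)
      rw [mul_div_cancel₀ _ hc.ne']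
    · rw [h]
      rcases min_choice (y + 15 / 16 - 15 / 16 * c) ((y + 15) / 16) with h' | h'
      · rw [h']
        refine le_trans ?_ ((le_max_left _ _).trans (le_max_right _ _))
        linarith
      · rw [h']
        refine le_trans ?_ ((le_max_right _ _).trans (le_max_right _ _))
        linarith

lemma chi_psi {c : ℝ} (hc : 0 < c) (x : ℝ) : chi c (psi c x) = x := by
  unfold psi chi
  apply le_antisymm
  · rcases max_choice (c * x) (max (x - 15 / 16 + 15 / 16 * c) (16 * x - 15)) with h | h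
    · rw [h]
      refine (min_le_left _ _).trans ?_
      rw [mul_div_cancel_left₀ _ hc.ne']
    · rw [h]
      rcases max_choice (x - 15 / 16 + 15 / 16 * c) (16 * x - 15) with h' | h'
      · rw [h']
        refine ((min_le_right _ _).trans (min_le_left _ _)).trans ?_
        linarith
      · rw [h']
        refine ((min_le_right _ _).trans (min_le_right _ _)).trans ?_
        linarith
  · refine le_min ?_ (le_min ?_ ?_)
    · rw [le_div_iff₀ hc, mul_comm]
      exact le_max_left _ _
    · have := (le_max_left (x - 15 / 16 + 15 / 16 * c) (16 * x - 15)).trans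
        (le_max_right (c * x) _)
      linarith
    · have := (le_max_right (x - 15 / 16 + 15 / 16 * c) (16 * x - 15)).trans
        (le_max_right (c * x) _)
      linarith

lemma psi_pos {c x : ℝ} (hc : 0 < c) (hx : 0 < x) : 0 < psi c x :=
  lt_of_lt_of_le (by positivity) (le_max_left _ _)

lemma psi_nonneg {c x : ℝ} (hc : 0 ≤ c) (hx : 0 < x) : 0 ≤ psi c x :=
  le_trans (by positivity) (le_max_left _ _)

lemma psi_lt_one {c x : ℝ} (hc : c ≤ 1) (hx0 : 0 < x) (hx : x < 1) : psi c x < 1 := by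
  refine max_lt ?_ (max_lt ?_ ?_)
  · nlinarith
  · linarith
  · linarith

lemma chi_pos {c y : ℝ} (hc : 0 < c) (hc1 : c ≤ 1) (hy : 0 < y) : 0 < chi c y := by
  refine lt_min (by positivity) (lt_min ?_ ?_)
  · linarith
  · linarith

lemma chi_lt_one {c y : ℝ} (hy : y < 1) : chi c y < 1 := by
  refine ((min_le_right _ _).trans (min_le_right _ _)).trans_lt ?_
  linarith

lemma psi_one {x : ℝ} (hx : x ≤ 1) : psi 1 x = x := by
  unfold psi
  rw [max_eq_left]
  · ring
  · exact max_le (by linarith) (by linarith)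

lemma psi_left {c x : ℝ} (hc1 : c ≤ 1) (hc : 0 ≤ c) (hx0 : 0 < x) (hx : x ≤ 15 / 16) :
    psi c x = c * x := by
  unfold psi
  rw [max_eq_left]
  refine max_le ?_ ?_
  · nlinarith
  · nlinarith

lemma psi_mid {c x : ℝ} (hc1 : c ≤ 1) (hx : 15 / 16 ≤ x) (hx2 : x ≤ 15 / 16 + c / 16) :
    psi c x = x - 15 / 16 + 15 / 16 * c := by
  unfold psi
  rw [max_eq_left (a := x - 15 / 16 + 15 / 16 * c), max_eq_right]
  · nlinarith
  · nlinarith

lemma psi_right {c x : ℝ} (hc1 : c ≤ 1) (hc : 0 ≤ c) (hx2 : 15 / 16 + c / 16 ≤ x) :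
    psi c x = 16 * x - 15 := by
  unfold psi
  rw [max_eq_right (a := x - 15 / 16 + 15 / 16 * c), max_eq_right]
  · nlinarith
  · nlinarith

lemma InO.not_fifteen : ¬ InO (15 / 16) := by
  intro h
  generalize hy : (15 / 16 : ℝ) = y at h
  cases h with
  | base y h1 h2 => linarith
  | left z h => linarith [h.lt_one]
  | right z h => linarith [h.pos]

lemma InO_psi {k : ℕ} {x : ℝ} (hx0 : 0 < x) (hx1 : x < 1) :
    InO (psi ((1 / 2) ^ k) x) ↔ InO x := by
  have hc : (0 : ℝ) < (1 / 2) ^ k := by positivity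
  have hc1 : (1 / 2 : ℝ) ^ k ≤ 1 := pow_le_one₀ (by norm_num) (by norm_num)
  rcases le_or_gt x (15 / 16) with h | h
  · rw [psi_left hc1 hc.le hx0 h, mul_comm]
    exact InO.pow_iff hx1.le hx0 k
  · rcases le_or_gt x (15 / 16 + (1 / 2) ^ k / 16) with h' | h'
    · rw [psi_mid hc1 h.le h']
      have hw : 0 < (16 * x - 15) / (1 / 2) ^ k := by
        apply div_pos _ hc
        linarith
      have hw1 : (16 * x - 15) / (1 / 2) ^ k ≤ 1 := by
        rw [div_le_one hc]; linarith
      have e1 : x - 15 / 16 + 15 / 16 * (1 / 2) ^ k =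
          (15 / 16 + (16 * x - 15) / (1 / 2) ^ k / 16) * (1 / 2) ^ k := by
        field_simp; ring
      rw [e1, InO.pow_iff (by linarith) (by linarith), InO.right_iff hw, ← InO.pow_iff hw1 hw k,
        div_mul_cancel₀ _ hc.ne']
      exact InO.right_iff' h
    · rw [psi_right hc1 hc.le h'.le]
      exact InO.right_iff' h

lemma psi_lip {c : ℝ} (hc : 0 ≤ c) (hc1 : c ≤ 1) (x y : ℝ) : |psi c x - psi c y| ≤ 16 * |x - y| := by
  unfold psi
  have h1 : |c * x - c * y| ≤ 16 * |x - y| := by
    rw [← mul_sub, abs_mul, abs_of_nonneg hc]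
    gcongr; linarith
  have h2 : |(x - 15 / 16 + 15 / 16 * c) - (y - 15 / 16 + 15 / 16 * c)| ≤ 16 * |x - y| := by
    have : (x - 15 / 16 + 15 / 16 * c) - (y - 15 / 16 + 15 / 16 * c) = x - y := by ring
    rw [this]
    linarith [abs_nonneg (x - y)]
  have h3 : |(16 * x - 15) - (16 * y - 15)| ≤ 16 * |x - y| := by
    have : (16 * x - 15) - (16 * y - 15) = 16 * (x - y) := by ring
    rw [this, abs_mul, abs_of_pos (by norm_num : (0:ℝ) < 16)]
  refine (abs_max_sub_max_le_max _ _ _ _).trans (max_le h1 ?_)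
  exact (abs_max_sub_max_le_max _ _ _ _).trans (max_le h2 h3)

lemma good_of_InO {u : ℝ} (h : InO u) : Good u := by
  right
  have := h.lam_bounds
  have := lam_nonneg u
  linarith

lemma good_psi_zero {x : ℝ} (h : InO x) : Good (psi 0 x) := by
  rcases le_or_gt x (15 / 16) with h' | h'
  · left
    rw [psi_left (by norm_num) le_rfl h.pos h']; simp
  · apply good_of_InO
    rw [psi_right (by norm_num) le_rfl (by linarith)]
    exact (InO.right_iff' h').mpr h

lemma tendsto_psi (x : ℝ) :
    Tendsto (fun k : ℕ => psi ((1 / 2) ^ k) x) atTop (𝓝 (psi 0 x)) := by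
  have h1 : Continuous (fun c : ℝ => psi c x) := by unfold psi; fun_prop
  exact (h1.tendsto 0).comp (tendsto_pow_atTop_nhds_zero_of_lt_one (by norm_num) (by norm_num))

/-- convergence of the zigzag corrections -/
lemma tendsto_Z {s x : ℝ} (h : s ≤ 0 ∨ InO x) (hx0 : 0 < x) (hx1 : x < 1) :
    Tendsto (fun k : ℕ => Z s (psi ((1 / 2) ^ k) x)) atTop (𝓝 (Z s (psi 0 x))) := by
  have h0 : ∀ k : ℕ, |Z s (psi ((1 / 2) ^ k) x) - Z s (psi 0 x)| ≤
      6 * |psi ((1 / 2) ^ k) x - psi 0 x| := by
    intro k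
    have := Z_lip_all (s := s) (s' := s) (u := psi ((1 / 2) ^ k) x) (u' := psi 0 x)
      (h.imp_right fun h => good_of_InO ((InO_psi hx0 hx1).mpr h)) (h.imp_right good_psi_zero)
    simpa using this
  rw [tendsto_iff_dist_tendsto_zero]
  have h1 : Tendsto (fun k : ℕ => 6 * |psi ((1 / 2) ^ k) x - psi 0 x|) atTop (𝓝 0) := by
    have := (tendsto_psi x)
    rw [tendsto_iff_dist_tendsto_zero] at this
    simpa [Real.dist_eq] using this.const_mul 6
  exact squeeze_zero (fun k => dist_nonneg) (fun k => by rw [Real.dist_eq]; exact h0 k) h1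

end

end Pool.Agent.L5helper85.Comb
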