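import Pool.Agent.L5helper85.SobDefs
import Pool.Agent.L5helper85.CombO

/-!
# The two comb domains and the homeomorphisms between them
-/

set_option autoImplicit false

open MeasureTheory Set Filter Topology Metric
open scoped ENNReal NNReal InnerProductSpace

namespace Pool.Agent.L5helper85.Comb

open Pool.Agent.L5helper85.Sob

noncomputable section

variable {m : ℕ}

/-- second basis vector -/
def e1 (m : ℕ) : Eu (m + 2) := EuclideanSpace.single 1 1

/-- replace the coordinate `1` of `x` by `g` -/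
def chg (g : ℝ) (x : Eu (m + 2)) : Eu (m + 2) := x + (g - x 1) • e1 m

lemma chg_one (g : ℝ) (x : Eu (m + 2)) : (chg g x) 1 = g := by
  simp [chg, e1]

lemma chg_ne (g : ℝ) (x : Eu (m + 2)) {i : Fin (m + 2)} (hi : i ≠ 1) : (chg g x) i = x i := by
  simp [chg, e1, hi]

lemma chg_zero (g : ℝ) (x : Eu (m + 2)) : (chg g x) 0 = x 0 :=
  chg_ne g x (by simp)

lemma chg_chg (g g' : ℝ) (x : Eu (m + 2)) : chg g (chg g' x) = chg g x := by
  ext i
  by_cases hi : i = 1
  · subst hi; rw [chg_one, chg_one]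
  · rw [chg_ne _ _ hi, chg_ne _ _ hi, chg_ne _ _ hi]

lemma chg_self (x : Eu (m + 2)) : chg (x 1) x = x := by
  simp [chg]

/-- the comb -/
def Om (m : ℕ) : Set (Eu (m + 2)) :=
  {x | (-1 < x 0 ∧ x 0 < 1) ∧ (∀ i, i ≠ 0 → 0 < x i ∧ x i < 1) ∧ (x 0 < 0 ∨ InO (x 1))}

lemma Om.x1 {x : Eu (m + 2)} (hx : x ∈ Om m) : 0 < x 1 ∧ x 1 < 1 := hx.2.1 1 (by simp)

lemma Om.chg_mem {x : Eu (m + 2)} (hx : x ∈ Om m) {g : ℝ} (h0 : 0 < g) (h1 : g < 1)
    (h : InO (x 1) → InO g) : chg g x ∈ Om m := by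
  refine ⟨?_, ?_, ?_⟩
  · rw [chg_zero]; exact hx.1
  · intro i hi
    by_cases h' : i = 1
    · subst h'; rw [chg_one]; exact ⟨h0, h1⟩
    · rw [chg_ne _ _ h']; exact hx.2.1 i hi
  · rw [chg_zero, chg_one]
    exact hx.2.2.imp_right h

/-- the maps of the comb -/
def Fc (c : ℝ) (x : Eu (m + 2)) : Eu (m + 2) :=
  chg (psi c (x 1) + Z (x 0) (psi c (x 1))) x

/-- the second domain: the comb with zigzag teeth -/
def Om' (m : ℕ) : Set (Eu (m + 2)) := Fc 1 '' Om m

lemma Z_back {s u : ℝ} (h : s ≤ 0 ∨ InO u) : Z s (2 * (u + Z s u) / 3) = Z s u := by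
  rcases h with h | h
  · rw [Z_of_nonpos h, Z_of_nonpos h]
  · have hb := h.lam_bounds
    have h1 := Z_nonneg s u
    have h2 := Z_le s u
    have e : lam (2 * (u + Z s u) / 3) = lam u := by
      apply lam_eq_lam h.pos
      · linarith
      · linarith
    generalize hz : Z s u = z at *
    unfold Z at *
    rw [e, hz]

/-- the inverse maps -/
def Gc (c : ℝ) (y : Eu (m + 2)) : Eu (m + 2) :=
  chg (chi c (y 1 - Z (y 0) (2 * y 1 / 3))) y

lemma Gc_Fc {c : ℝ} (hc : 0 < c) {x : Eu (m + 2)} (h : x 0 ≤ 0 ∨ InO (psi c (x 1))) :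
    Gc c (Fc c x) = x := by
  unfold Gc Fc
  rw [chg_chg, chg_one, chg_zero, Z_back h, add_sub_cancel_right, chi_psi hc, chg_self]

lemma hk_pos (k : ℕ) : (0 : ℝ) < (1 / 2) ^ k := by positivity

lemma hk_le (k : ℕ) : (1 / 2 : ℝ) ^ k ≤ 1 := pow_le_one₀ (by norm_num) (by norm_num)

lemma Fc_eq {c : ℝ} (hc1 : c ≤ 1) {x : Eu (m + 2)} (hx0 : 0 < x 1) (hx1 : x 1 < 1) :
    Fc c x = Fc 1 (chg (psi c (x 1)) x) := by
  unfold Fc
  rw [chg_chg, chg_one, chg_zero, psi_one (psi_lt_one hc1 hx0 hx1).le]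

lemma Fc_maps (k : ℕ) : MapsTo (Fc ((1 / 2) ^ k)) (Om m) (Om' m) := by
  intro x hx
  have h1 := Om.x1 hx
  rw [Fc_eq (hk_le k) h1.1 h1.2]
  refine mem_image_of_mem _ (Om.chg_mem hx (psi_pos (hk_pos k) h1.1)
    (psi_lt_one (hk_le k) h1.1 h1.2) fun h => (InO_psi h1.1 h1.2).mpr h)

lemma Gc_Fc_mem (k : ℕ) {x : Eu (m + 2)} (hx : x ∈ Om m) :
    Gc ((1 / 2) ^ k) (Fc ((1 / 2) ^ k) x) = x := by
  have h1 := Om.x1 hx
  refine Gc_Fc (hk_pos k) ?_
  rcases hx.2.2 with h | h
  · exact Or.inl h.le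
  · exact Or.inr ((InO_psi h1.1 h1.2).mpr h)

lemma Fc_surj (k : ℕ) : SurjOn (Fc ((1 / 2) ^ k)) (Om m) (Om' m) := by
  rintro y ⟨x, hx, rfl⟩
  have h1 := Om.x1 hx
  have h2 := chi_pos (hk_pos k) (hk_le k) h1.1
  have h3 : chi ((1 / 2) ^ k) (x 1) < 1 := chi_lt_one h1.2
  have h4 : chg (chi ((1 / 2) ^ k) (x 1)) x ∈ Om m := by
    refine Om.chg_mem hx h2 h3 fun h => ?_
    rw [← InO_psi (k := k) h2 h3, psi_chi (hk_pos k)]
    exact h
  refine ⟨_, h4, ?_⟩
  rw [Fc_eq (hk_le k) (Om.x1 h4).1 (Om.x1 h4).2, chg_one, psi_chi (hk_pos k), chg_chg, chg_self]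

lemma Fc_bij (k : ℕ) : BijOn (Fc ((1 / 2) ^ k)) (Om m) (Om' m) := by
  refine ⟨Fc_maps k, ?_, Fc_surj k⟩
  intro x hx y hy h
  rw [← Gc_Fc_mem k hx, ← Gc_Fc_mem k hy, h]

lemma Fc_inv (k : ℕ) : InvOn (Gc ((1 / 2) ^ k)) (Fc ((1 / 2) ^ k)) (Om m) (Om' m) := by
  refine ⟨fun x hx => Gc_Fc_mem k hx, ?_⟩
  intro y hy
  obtain ⟨x, hx, rfl⟩ := Fc_surj k hy
  rw [Gc_Fc_mem k hx]

/-! ### Lipschitz bounds -/

lemma abs_coord_le (x : Eu (m + 2)) (i : Fin (m + 2)) : |x i| ≤ ‖x‖ := by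
  have := EuclideanSpace.norm_eq x
  have h := PiLp.norm_apply_le x i
  rwa [Real.norm_eq_abs] at h

lemma norm_e1 : ‖e1 m‖ = 1 := by
  simp [e1]

lemma chg_dist (g g' : ℝ) (x x' : Eu (m + 2)) :
    ‖chg g x - chg g' x'‖ ≤ 2 * ‖x - x'‖ + |g - g'| := by
  have e : chg g x - chg g' x' = (x - x') + ((g - g') - (x - x') 1) • e1 m := by
    unfold chg
    have : (x - x') 1 = x 1 - x' 1 := by simp
    rw [this]
    module
  rw [e]
  have h1 := abs_coord_le (x - x') 1
  calc ‖(x - x') + ((g - g') - (x - x') 1) • e1 m‖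
      ≤ ‖x - x'‖ + ‖((g - g') - (x - x') 1) • e1 m‖ := norm_add_le _ _
    _ = ‖x - x'‖ + |(g - g') - (x - x') 1| := by
        rw [norm_smul, norm_e1, mul_one, Real.norm_eq_abs]
    _ ≤ ‖x - x'‖ + (|g - g'| + |(x - x') 1|) := by gcongr; exact abs_sub _ _
    _ ≤ _ := by linarith

/-- admissible parameters -/
def Adm (c : ℝ) : Prop := c = 0 ∨ ∃ k : ℕ, c = (1 / 2) ^ k

lemma Adm.bounds {c : ℝ} (h : Adm c) : 0 ≤ c ∧ c ≤ 1 := by
  rcases h with rfl | ⟨k, rfl⟩
  · norm_num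
  · exact ⟨(hk_pos k).le, hk_le k⟩

lemma Adm.good {c : ℝ} (h : Adm c) {x : ℝ} (hx : InO x) : Good (psi c x) := by
  rcases h with rfl | ⟨k, rfl⟩
  · exact good_psi_zero hx
  · exact good_of_InO ((InO_psi hx.pos hx.lt_one).mpr hx)

lemma Fc_lip {c : ℝ} (hc : Adm c) {x y : Eu (m + 2)} (hx : x ∈ Om m) (hy : y ∈ Om m) :
    ‖Fc c x - Fc c y‖ ≤ 115 * ‖x - y‖ := by
  unfold Fc
  refine (chg_dist _ _ _ _).trans ?_
  have hb := hc.bounds
  have h1 := psi_lip hb.1 hb.2 (x 1) (y 1)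
  have h2 : |Z (x 0) (psi c (x 1)) - Z (y 0) (psi c (y 1))| ≤
      |x 0 - y 0| + 6 * |psi c (x 1) - psi c (y 1)| := by
    apply Z_lip_all
    · exact hx.2.2.imp le_of_lt fun h => hc.good h
    · exact hy.2.2.imp le_of_lt fun h => hc.good h
  have h3 : |x 0 - y 0| ≤ ‖x - y‖ := by
    have := abs_coord_le (x - y) 0
    simpa using this
  have h4 : |x 1 - y 1| ≤ ‖x - y‖ := by
    have := abs_coord_le (x - y) 1
    simpa using this
  have h5 : |psi c (x 1) + Z (x 0) (psi c (x 1)) - (psi c (y 1) + Z (y 0) (psi c (y 1)))| ≤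
      |psi c (x 1) - psi c (y 1)| + |Z (x 0) (psi c (x 1)) - Z (y 0) (psi c (y 1))| := by
    have e : psi c (x 1) + Z (x 0) (psi c (x 1)) - (psi c (y 1) + Z (y 0) (psi c (y 1))) =
      (psi c (x 1) - psi c (y 1)) + (Z (x 0) (psi c (x 1)) - Z (y 0) (psi c (y 1))) := by ring
    rw [e]; exact abs_add_le _ _
  linarith

lemma Fc_lipOn {c : ℝ} (hc : Adm c) : LipschitzOnWith 115 (Fc c) (Om m) := by
  apply LipschitzOnWith.of_dist_le_mul
  intro x hx y hy
  rw [dist_eq_norm, dist_eq_norm]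
  exact Fc_lip hc hx hy

lemma Fc_cont {c : ℝ} (hc : Adm c) : ContinuousOn (Fc c) (Om m) := (Fc_lipOn hc).continuousOn

lemma adm_one : Adm 1 := Or.inr ⟨0, by norm_num⟩

/-- points of the second domain -/
lemma Om'_good {y : Eu (m + 2)} (hy : y ∈ Om' m) : y 0 ≤ 0 ∨ Good (2 * y 1 / 3) := by
  obtain ⟨x, hx, rfl⟩ := hy
  unfold Fc
  rw [chg_zero, chg_one, psi_one (Om.x1 hx).2.le]
  rcases hx.2.2 with h | h
  · exact Or.inl h.le
  · right; right
    have hb := h.lam_bounds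
    have h1 := Z_nonneg (x 0) (x 1)
    have h2 := Z_le (x 0) (x 1)
    have e : lam (2 * (x 1 + Z (x 0) (x 1)) / 3) = lam (x 1) := by
      apply lam_eq_lam h.pos
      · linarith
      · linarith
    rw [e]
    linarith

lemma contOn_Z : ContinuousOn (fun y : Eu (m + 2) => Z (y 0) (2 * y 1 / 3)) (Om' m) := by
  intro y hy
  have hb : ∀ z ∈ Om' m, dist (Z (z 0) (2 * z 1 / 3)) (Z (y 0) (2 * y 1 / 3)) ≤
      |z 0 - y 0| + 6 * |2 * z 1 / 3 - 2 * y 1 / 3| := by
    intro z hz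
    rw [Real.dist_eq]
    exact Z_lip_all (Om'_good hz) (Om'_good hy)
  have hc : Continuous (fun z : Eu (m + 2) => |z 0 - y 0| + 6 * |2 * z 1 / 3 - 2 * y 1 / 3|) := by
    fun_prop
  have ht : Tendsto (fun z : Eu (m + 2) => |z 0 - y 0| + 6 * |2 * z 1 / 3 - 2 * y 1 / 3|)
      (𝓝[Om' m] y) (𝓝 0) := by
    have := hc.continuousWithinAt (s := Om' m) (x := y)
    simpa [ContinuousWithinAt] using this
  rw [ContinuousWithinAt, tendsto_iff_dist_tendsto_zero]
  exact squeeze_zero' (Eventually.of_forall fun z => dist_nonneg)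
    (eventually_nhdsWithin_of_forall hb) ht

lemma Gc_cont (c : ℝ) : ContinuousOn (Gc (m := m) c) (Om' m) := by
  unfold Gc chg
  have h1 : Continuous (chi c) := by unfold chi; fun_prop
  have h2 : ContinuousOn (fun y : Eu (m + 2) => y 1 - Z (y 0) (2 * y 1 / 3)) (Om' m) :=
    ContinuousOn.sub (by fun_prop) contOn_Z
  have h3 := h1.comp_continuousOn h2
  have h4 : ContinuousOn (fun y : Eu (m + 2) =>
      chi c (y 1 - Z (y 0) (2 * y 1 / 3)) - y 1) (Om' m) := ContinuousOn.sub h3 (by fun_prop)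
  fun_prop

lemma Fc_homeo (k : ℕ) : IsHomeo (Om m) (Om' m) (Fc ((1 / 2) ^ k)) :=
  ⟨Fc_bij k, Fc_cont (Or.inr ⟨k, rfl⟩), Gc ((1 / 2) ^ k), Fc_inv k, Gc_cont _⟩

/-! ### topology of the domains -/

lemma Om_open : IsOpen (Om m) := by
  have h0 : Continuous (fun x : Eu (m + 2) => x 0) := by fun_prop
  have h1 : Continuous (fun x : Eu (m + 2) => x 1) := by fun_prop
  have e : Om m = ({x | -1 < x 0} ∩ {x | x 0 < 1}) ∩
      ((⋂ i : {i : Fin (m + 2) // i ≠ 0}, ({x | 0 < x i} ∩ {x | x i < 1})) ∩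
        ({x | x 0 < 0} ∪ (fun x : Eu (m + 2) => x 1) ⁻¹' {u | InO u})) := by
    ext x
    simp [Om]
  rw [e]
  refine ((isOpen_lt continuous_const h0).inter (isOpen_lt h0 continuous_const)).inter
    (IsOpen.inter ?_ ?_)
  · apply isOpen_iInter_of_finite
    intro i
    have hi : Continuous (fun x : Eu (m + 2) => x i) := by fun_prop
    exact (isOpen_lt continuous_const hi).inter (isOpen_lt hi continuous_const)
  · exact (isOpen_lt h0 continuous_const).union (InO.isOpen.preimage h1)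

lemma Om_bdd : Bornology.IsBounded (Om m) := by
  rw [isBounded_iff_forall_norm_le]
  refine ⟨√(m + 2), fun x hx => ?_⟩
  rw [EuclideanSpace.norm_eq]
  apply Real.sqrt_le_sqrt
  calc ∑ i, ‖x i‖ ^ 2 ≤ ∑ _i : Fin (m + 2), (1 : ℝ) := by
        apply Finset.sum_le_sum
        intro i _
        rw [Real.norm_eq_abs, sq_abs]
        by_cases hi : i = 0
        · subst hi
          nlinarith [hx.1.1, hx.1.2]
        · nlinarith [(hx.2.1 i hi).1, (hx.2.1 i hi).2]
    _ = m + 2 := by simp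

/-- first basis vector -/
def e0 (m : ℕ) : Eu (m + 2) := EuclideanSpace.single 0 1

lemma Om_conn : IsConnected (Om m) := by
  -- the left part
  set B : Set (Eu (m + 2)) := {x | (-1 < x 0 ∧ x 0 < 0) ∧ (∀ i, i ≠ 0 → 0 < x i ∧ x i < 1)} with hB
  have hBO : B ⊆ Om m := fun x hx => ⟨⟨hx.1.1, by linarith [hx.1.2]⟩, hx.2, Or.inl hx.1.2⟩
  have hBc : Convex ℝ B := by
    intro x hx y hy a b ha hb hab
    have hco : ∀ i, (a • x + b • y) i = a * x i + b * y i := by intro i; simp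
    refine ⟨?_, ?_⟩
    · rw [hco]
      constructor
      · rcases ha.eq_or_lt with h | h
        · subst h
          have : b = 1 := by linarith
          subst this; linarith [hy.1.1]
        · nlinarith [hx.1.1, hy.1.1]
      · rcases ha.eq_or_lt with h | h
        · subst h
          have : b = 1 := by linarith
          subst this; linarith [hy.1.2]
        · nlinarith [hx.1.2, hy.1.2]
    · intro i hi
      rw [hco]
      constructor
      · rcases ha.eq_or_lt with h | h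
        · subst h
          have : b = 1 := by linarith
          subst this; linarith [(hy.2 i hi).1]
        · nlinarith [(hx.2 i hi).1, (hy.2 i hi).1]
      · rcases ha.eq_or_lt with h | h
        · subst h
          have : b = 1 := by linarith
          subst this; linarith [(hy.2 i hi).2]
        · nlinarith [(hx.2 i hi).2, (hy.2 i hi).2]
  set b : Eu (m + 2) := WithLp.toLp 2 (fun i => if i = 0 then (-1/2 : ℝ) else 1/2) with hb
  have hbB : b ∈ B := by
    refine ⟨⟨?_, ?_⟩, fun i hi => ?_⟩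
    · simp [hb]; norm_num
    · simp [hb]; norm_num
    · simp [hb, hi]; norm_num
  refine ⟨⟨b, hBO hbB⟩, ?_⟩
  apply isPreconnected_of_forall b
  intro x hx
  rcases hx.2.2 with h | h
  · exact ⟨B, hBO, hbB, ⟨⟨hx.1.1, h⟩, hx.2.1⟩, hBc.isPreconnected⟩
  · -- the segment
    set x' : Eu (m + 2) := x + (-1/2 - x 0) • e0 m with hx'
    have hx'0 : x' 0 = -1/2 := by simp [hx', e0]
    have hx'i : ∀ i, i ≠ 0 → x' i = x i := by intro i hi; simp [hx', e0, hi]
    have hx'B : x' ∈ B := by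
      refine ⟨⟨by rw [hx'0]; norm_num, by rw [hx'0]; norm_num⟩, fun i hi => ?_⟩
      rw [hx'i i hi]; exact hx.2.1 i hi
    have hseg : segment ℝ x x' ⊆ Om m := by
      rintro z ⟨s, t, hs, ht, hst, rfl⟩
      have hz0 : (s • x + t • x') 0 = s * x 0 + t * (-1/2) := by simp [hx'0]
      have hzi : ∀ i, i ≠ 0 → (s • x + t • x') i = x i := by
        intro i hi
        have : (s • x + t • x') i = s * x i + t * x' i := by simp
        rw [this, hx'i i hi, ← add_mul, hst, one_mul]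
      refine ⟨?_, ?_, ?_⟩
      · rw [hz0]
        have h1 := hx.1.1
        have h2 := hx.1.2
        constructor
        · rcases hs.eq_or_lt with h | h
          · subst h
            have : t = 1 := by linarith
            subst this; norm_num
          · nlinarith
        · rcases hs.eq_or_lt with h | h
          · subst h
            have : t = 1 := by linarith
            subst this; norm_num
          · nlinarith
      · intro i hi
        rw [hzi i hi]; exact hx.2.1 i hi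
      · right; rw [hzi 1 (by simp)]; exact h
    refine ⟨segment ℝ x x' ∪ B, union_subset hseg hBO, Or.inr hbB, Or.inl (left_mem_segment _ _ _), ?_⟩
    exact IsPreconnected.union x' (right_mem_segment _ _ _) hx'B
      (convex_segment _ _).isPreconnected hBc.isPreconnected

lemma Om'_conn : IsConnected (Om' m) := Om_conn.image _ (Fc_cont adm_one)

lemma Om'_bdd : Bornology.IsBounded (Om' m) := by
  obtain ⟨C, hC⟩ := Metric.isBounded_iff.mp (Om_bdd (m := m))
  rw [Metric.isBounded_iff]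
  refine ⟨115 * C, ?_⟩
  rintro _ ⟨x, hx, rfl⟩ _ ⟨y, hy, rfl⟩
  have h1 := Fc_lip adm_one hx hy
  have h2 := hC hx hy
  rw [dist_eq_norm] at h2 ⊢
  linarith

lemma Om'_open : IsOpen (Om' m) := by
  have h0 : Continuous (fun x : Eu (m + 2) => x 0) := by fun_prop
  have h1 : Continuous (fun x : Eu (m + 2) => x 1) := by fun_prop
  rw [isOpen_iff_mem_nhds]
  rintro _ ⟨x, hx, rfl⟩
  rcases hx.2.2 with h | h
  · have e : ∀ y ∈ Om m, y 0 < 0 → Fc 1 y = y := by
      intro y hy hy0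
      unfold Fc
      rw [Z_of_nonpos hy0.le, add_zero, psi_one (Om.x1 hy).2.le, chg_self]
    rw [e x hx h]
    have ho : IsOpen (Om m ∩ {x | x 0 < 0}) := Om_open.inter (isOpen_lt h0 continuous_const)
    refine mem_of_superset (ho.mem_nhds ⟨hx, h⟩) ?_
    rintro y ⟨hy, hy0⟩
    exact ⟨y, hy, e y hy hy0⟩
  · set l := lam (x 1) with hl
    have hlp : 0 < l := lam_pos h.pos
    set P : Eu (m + 2) → Eu (m + 2) := fun y =>
      chg (y 1 - l / 4 * (1 - Real.cos (Real.pi * max (y 0) 0 / l))) y with hP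
    have hPc : Continuous P := by
      rw [hP]; unfold chg; fun_prop
    set V : Set (Eu (m + 2)) := Om m ∩ ((fun z : Eu (m + 2) => z 1) ⁻¹' {u | InO u} ∩
      ({z | l < 2 * z 1} ∩ {z | z 1 < l})) with hV
    have hVo : IsOpen V := Om_open.inter ((InO.isOpen.preimage h1).inter
      ((isOpen_lt continuous_const (continuous_const.mul h1)).inter (isOpen_lt h1 continuous_const)))
    have hxV : P (Fc 1 x) ∈ V := by
      have e : P (Fc 1 x) = x := by
        rw [hP]
        unfold Fc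
        simp only [chg_chg, chg_one, chg_zero]
        rw [psi_one (Om.x1 hx).2.le]
        have : Z (x 0) (x 1) = l / 4 * (1 - Real.cos (Real.pi * max (x 0) 0 / l)) := rfl
        rw [← this, add_sub_cancel_right, chg_self]
      rw [e]
      have hb := h.lam_bounds
      refine ⟨hx, h, ?_, ?_⟩
      · simp only [mem_ofPred_eq]; linarith
      · simp only [mem_ofPred_eq]; linarith
    refine mem_of_superset ((hVo.preimage hPc).mem_nhds hxV) ?_
    intro y hy
    obtain ⟨hy1, hy2, hy3, hy4⟩ := hy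
    refine ⟨P y, hy1, ?_⟩
    simp only [mem_preimage, mem_ofPred_eq] at hy2 hy3 hy4
    have e : lam ((P y) 1) = l := lam_eq_lam h.pos hy3 hy4.le
    unfold Fc
    rw [psi_one (Om.x1 hy1).2.le]
    unfold Z
    rw [e]
    simp only [hP, chg_chg, chg_one, chg_zero, sub_add_cancel, chg_self]

end

end Pool.Agent.L5helper85.Comb
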