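import Pool.Agent.L5helper85.CombO

/-!
# Variation of a curve in a zigzag tooth
-/

set_option autoImplicit false

open MeasureTheory Set Filter Topology Metric

namespace Pool.Agent.L5helper85.Comb

noncomputable section

/-- the scale of a continuous family of heights is constant -/
lemma lam_const_aux {u : ℝ → ℝ} {s t : ℝ} (hst : s ≤ t) (hu : ContinuousOn u (Icc s t))
    (hO : ∀ r ∈ Icc s t, InO (u r)) : lam (u s) = lam (u t) := by
  have hs : s ∈ Icc s t := left_mem_Icc.mpr hst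
  have ht : t ∈ Icc s t := right_mem_Icc.mpr hst
  have hbs := (hO s hs).lam_bounds
  have hbt := (hO t ht).lam_bounds
  -- no point at three quarters of a scale
  have hno : ∀ l : ℝ, (∃ v, 0 < v ∧ lam v = l) → ∀ r ∈ Icc s t, u r ≠ 3 / 4 * l := by
    rintro l ⟨v, hv, rfl⟩ r hr h
    have h1 := (hO r hr).lam_bounds
    have hl := lam_pos hv
    have h2 : lam (u r) = lam v := by
      apply lam_eq_lam hv
      · rw [h]; linarith
      · rw [h]; linarith
    rw [h2, h] at h1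
    linarith
  rcases lt_trichotomy (lam (u s)) (lam (u t)) with h | h | h
  · exfalso
    have h1 := lam_le_half (hO s hs).pos h
    have h2 : 3 / 4 * lam (u t) ∈ Icc (u s) (u t) := ⟨by linarith, by linarith [lam_pos (hO t ht).pos]⟩
    obtain ⟨r, hr, hr2⟩ := intermediate_value_Icc hst hu h2
    exact hno _ ⟨_, (hO t ht).pos, rfl⟩ r hr hr2
  · exact h
  · exfalso
    have h1 := lam_le_half (hO t ht).pos h
    have h2 : 3 / 4 * lam (u s) ∈ Icc (u t) (u s) := ⟨by linarith, by linarith [lam_pos (hO s hs).pos]⟩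
    obtain ⟨r, hr, hr2⟩ := intermediate_value_Icc' hst hu h2
    exact hno _ ⟨_, (hO s hs).pos, rfl⟩ r hr hr2

/-- Lower bound for the variation of the second coordinate of a curve in a tooth. -/
lemma zig_aux {a b V G : ℝ → ℝ} {κ l T : ℝ} (hl : 0 < l) {j0 : ℕ} (ha : ContinuousOn a (Icc 0 T))
    (ha0 : a 0 ≤ j0 * l)
    (hb : ∀ t ∈ Icc 0 T, 7 / 8 * l < b t - l / 4 * (1 - Real.cos (Real.pi * a t / l)) ∧
      b t - l / 4 * (1 - Real.cos (Real.pi * a t / l)) < l)
    (hG : ∀ t ∈ Icc 0 T, |b t - G t| ≤ κ)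
    (hV : ∀ s ∈ Icc 0 T, ∀ t ∈ Icc 0 T, s ≤ t → |G t - G s| ≤ V t - V s) (hV0 : V 0 = 0) :
    ∀ (N : ℕ), ∀ t ∈ Icc 0 T, a t = (j0 + N) * l → N * (3 / 8 * l - 2 * κ) ≤ V t := by
  intro N
  induction N with
  | zero =>
    intro t ht _
    have h0 : (0 : ℝ) ∈ Icc 0 T := ⟨le_rfl, ht.1.trans ht.2⟩
    have := hV 0 h0 t ht ht.1
    have h1 := abs_nonneg (G t - G 0)
    simp; linarith
  | succ N ih =>
    intro t ht hat
    have h0 : (0 : ℝ) ∈ Icc 0 T := ⟨le_rfl, ht.1.trans ht.2⟩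
    have hsub : Icc 0 t ⊆ Icc 0 T := Icc_subset_Icc le_rfl ht.2
    push_cast at hat
    have h1 : ((j0 : ℝ) + N) * l ∈ Icc (a 0) (a t) := by
      constructor
      · refine ha0.trans ?_
        gcongr
        simp
      · rw [hat]
        gcongr
        simp
    obtain ⟨s, hs, hs2⟩ := intermediate_value_Icc ht.1 (ha.mono hsub) h1
    have hsT := hsub hs
    have h2 := ih s hsT hs2
    have h3 := hb s hsT
    have h4 := hb t ht
    have e1 : Real.pi * a s / l = (j0 + N : ℕ) * Real.pi := by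
      rw [hs2]; push_cast; field_simp
    have e2 : Real.pi * a t / l = (j0 + N : ℕ) * Real.pi + Real.pi := by
      rw [hat]; push_cast; field_simp; ring
    have e3 : Real.cos (Real.pi * a t / l) = - Real.cos (Real.pi * a s / l) := by
      rw [e2, Real.cos_add_pi, e1]
    have e4 : Real.cos (Real.pi * a s / l) = 1 ∨ Real.cos (Real.pi * a s / l) = -1 := by
      rw [e1, Real.cos_nat_mul_pi]
      exact neg_one_pow_eq_or ℝ _
    have h5 : 3 / 8 * l ≤ |b t - b s| := by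
      rw [e3] at h4
      rcases e4 with h | h
      · rw [h] at h3 h4
        refine le_trans ?_ (le_abs_self _)
        linarith [h3.1, h3.2, h4.1, h4.2]
      · rw [h] at h3 h4
        refine le_trans ?_ (neg_le_abs _)
        linarith [h3.1, h3.2, h4.1, h4.2]
    have h6 := hG s hsT
    have h7 := hG t ht
    have h8 : |b t - b s| ≤ |G t - G s| + 2 * κ := by
      have e5 : b t - b s = (G t - G s) + ((b t - G t) - (b s - G s)) := by ring
      rw [e5]
      refine (abs_add_le _ _).trans ?_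
      have := abs_sub (b t - G t) (b s - G s)
      linarith
    have h9 := hV s hsT t ht hs.2
    push_cast
    linarith

/-- A curve which travels in a tooth has variation bounded from below. -/
lemma zig {a b V G : ℝ → ℝ} {κ l : ℝ} (hl : 0 < l) (ha : ContinuousOn a (Icc 0 (1 / 2)))
    (ha0 : a 0 ≤ 3 / 8) (ha1 : 11 / 16 ≤ a (1 / 2))
    (hb : ∀ t ∈ Icc (0 : ℝ) (1 / 2), 7 / 8 * l < b t - l / 4 * (1 - Real.cos (Real.pi * a t / l)) ∧
      b t - l / 4 * (1 - Real.cos (Real.pi * a t / l)) < l)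
    (hbs : b 0 ≤ 1 / 16) (hκ : κ ≤ l / 64)
    (hG : ∀ t ∈ Icc (0 : ℝ) (1 / 2), |b t - G t| ≤ κ)
    (hV : ∀ s ∈ Icc (0 : ℝ) (1 / 2), ∀ t ∈ Icc (0 : ℝ) (1 / 2), s ≤ t → |G t - G s| ≤ V t - V s)
    (hV0 : V 0 = 0) (hV1 : ∀ t ∈ Icc (0 : ℝ) (1 / 2), V t ≤ 1 / 32) : False := by
  have h0 : (0 : ℝ) ∈ Icc (0 : ℝ) (1 / 2) := by constructor <;> norm_num
  have hh : (1 / 2 : ℝ) ∈ Icc (0 : ℝ) (1 / 2) := by constructor <;> norm_num
  have hl14 : l < 1 / 14 := by
    have h1 := (hb 0 h0).1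
    have h2 := Real.cos_le_one (Real.pi * a 0 / l)
    nlinarith
  set j0 : ℕ := ⌈(3 / 8) / l⌉₊ with hj0
  set j1 : ℕ := ⌊(11 / 16) / l⌋₊ with hj1
  have e0 : (3 / 8) / l ≤ j0 := Nat.le_ceil _
  have e0' : (j0 : ℝ) < (3 / 8) / l + 1 := Nat.ceil_lt_add_one (by positivity)
  have e1 : (j1 : ℝ) ≤ (11 / 16) / l := Nat.floor_le (by positivity)
  have e1' : (11 / 16) / l < j1 + 1 := Nat.lt_floor_add_one _
  rw [div_le_iff₀ hl] at e0
  rw [le_div_iff₀ hl] at e1
  rw [div_lt_iff₀ hl] at e1'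
  have e0'' : (j0 : ℝ) * l < 3 / 8 + l := by
    have := mul_lt_mul_of_pos_right e0' hl
    rw [add_mul, div_mul_cancel₀ _ hl.ne', one_mul] at this
    exact this
  have hjj : j0 ≤ j1 := by
    have : (j0 : ℝ) * l ≤ j1 * l := by linarith
    have := le_of_mul_le_mul_right this hl
    exact_mod_cast this
  obtain ⟨N, hN⟩ := Nat.exists_eq_add_of_le hjj
  have hN' : ((j0 : ℝ) + N) = j1 := by exact_mod_cast hN.symm
  have h1 : ((j0 : ℝ) + N) * l ∈ Icc (a 0) (a (1 / 2)) := by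
    rw [hN']
    constructor
    · linarith
    · linarith
  obtain ⟨t, ht, ht2⟩ := intermediate_value_Icc (by norm_num) ha h1
  have h2 := zig_aux hl (j0 := j0) ha (by linarith) hb hG hV hV0 N t ht ht2
  have h3 := hV1 t ht
  have h4 : (N : ℝ) * l = j1 * l - j0 * l := by rw [← hN']; ring
  have h5 : 1 / 6 < (N : ℝ) * l := by rw [h4]; linarith
  have hNn : (0 : ℝ) ≤ N := Nat.cast_nonneg N
  have h6 : (N : ℝ) * (3 / 8 * l - 2 * κ) ≥ N * (11 / 32 * l) := by
    apply mul_le_mul_of_nonneg_left _ hNn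
    linarith
  have h7 : (N : ℝ) * (11 / 32 * l) = 11 / 32 * (N * l) := by ring
  linarith

end

end Pool.Agent.L5helper85.Comb
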