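import Pool.Agent.L5helper85.SobDefs

/-!
# Mollification of Sobolev maps
-/

set_option autoImplicit false

open MeasureTheory Set Filter Topology Metric
open scoped ENNReal NNReal InnerProductSpace Convolution

namespace Pool.Agent.L5helper85.Sob

noncomputable section

variable {n : ℕ}

/-- the mollification of `g` restricted to `Ω` -/
def moll (b : ContDiffBump (0 : Eu n)) (Ω : Set (Eu n)) (g : Eu n → Eu n) : Eu n → Eu n :=
  (b.normed volume) ⋆[ContinuousLinearMap.lsmul ℝ ℝ, volume] (Ω.indicator g)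

variable {b : ContDiffBump (0 : Eu n)} {Ω : Set (Eu n)} {g : Eu n → Eu n}

lemma moll_eq (hΩ : MeasurableSet Ω) (x : Eu n) :
    moll b Ω g x = ∫ y in Ω, b.normed volume (x - y) • g y := by
  unfold moll
  rw [convolution_lsmul_swap, ← integral_indicator hΩ]
  congr 1
  ext1 y
  by_cases hy : y ∈ Ω
  · simp [hy]
  · simp [hy]

lemma moll_contDiff (hg : IntegrableOn g Ω) (hΩ : MeasurableSet Ω) :
    ContDiff ℝ ((⊤ : ℕ∞) : WithTop ℕ∞) (moll b Ω g) :=
  b.hasCompactSupport_normed.contDiff_convolution_left _ b.contDiff_normed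
    ((integrable_indicator_iff hΩ).mpr hg).locallyIntegrable

/-- the directional derivative of the mollification -/
lemma moll_fderiv (hg : IntegrableOn g Ω) (hΩ : MeasurableSet Ω) {D : Eu n → (Eu n →L[ℝ] Eu n)}
    (hD : IsWeakDiff Ω g D) {x : Eu n} (hx : closedBall x b.rOut ⊆ Ω) (v : Eu n) :
    fderiv ℝ (moll b Ω g) x v = ∫ y in Ω, b.normed volume (x - y) • D y v := by
  set φ := b.normed (volume : Measure (Eu n)) with hφ
  have hφc : HasCompactSupport φ := b.hasCompactSupport_normed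
  have hφd : ContDiff ℝ ((⊤ : ℕ∞) : WithTop ℕ∞) φ := b.contDiff_normed
  have hφ1 : ContDiff ℝ 1 φ := hφd.of_le (by simp)
  have hgl : LocallyIntegrable (Ω.indicator g) volume :=
    ((integrable_indicator_iff hΩ).mpr hg).locallyIntegrable
  have h1 := hφc.hasFDerivAt_convolution_left (ContinuousLinearMap.lsmul ℝ ℝ) hφ1 hgl x
  have h2 : moll b Ω g = φ ⋆[ContinuousLinearMap.lsmul ℝ ℝ, volume] (Ω.indicator g) := rfl
  rw [h2, h1.fderiv]
  have hce := (hφc.fderiv ℝ).convolutionExists_left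
    ((ContinuousLinearMap.lsmul ℝ ℝ : ℝ →L[ℝ] Eu n →L[ℝ] Eu n).precompL (Eu n))
    (hφ1.continuous_fderiv one_ne_zero) hgl x
  rw [convolution_def, ContinuousLinearMap.integral_apply hce]
  have h3 : ∀ t, ((((ContinuousLinearMap.lsmul ℝ ℝ : ℝ →L[ℝ] Eu n →L[ℝ] Eu n).precompL (Eu n))
      (fderiv ℝ φ t)) ((Ω.indicator g) (x - t))) v = (fderiv ℝ φ t v) • (Ω.indicator g) (x - t) := by
    intro t; rfl
  simp only [h3]
  -- change of variables
  have h4 : ∫ t, (fderiv ℝ φ t v) • (Ω.indicator g) (x - t) =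
      ∫ y, (fderiv ℝ φ (x - y) v) • (Ω.indicator g) y := by
    rw [← integral_sub_left_eq_self (fun t => (fderiv ℝ φ t v) • (Ω.indicator g) (x - t)) volume x]
    simp
  rw [h4]
  have h5 : ∫ y, (fderiv ℝ φ (x - y) v) • (Ω.indicator g) y =
      ∫ y in Ω, (fderiv ℝ φ (x - y) v) • g y := by
    rw [← integral_indicator hΩ]
    congr 1
    ext1 y
    by_cases hy : y ∈ Ω
    · simp [hy]
    · simp [hy]
  rw [h5]
  -- the test function
  set ψ : Eu n → ℝ := fun y => φ (x - y) with hψ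
  have hψd : ContDiff ℝ ((⊤ : ℕ∞) : WithTop ℕ∞) ψ := hφd.comp (contDiff_const.sub contDiff_id)
  have hψf : ∀ y, fderiv ℝ ψ y v = - fderiv ℝ φ (x - y) v := by
    intro y
    have hd : HasFDerivAt ψ ((fderiv ℝ φ (x - y)) ∘L (-(ContinuousLinearMap.id ℝ (Eu n)))) y := by
      have h6 : HasFDerivAt (fun y : Eu n => x - y) (-(ContinuousLinearMap.id ℝ (Eu n))) y :=
        (hasFDerivAt_id y).const_sub x
      exact ((hφ1.differentiable one_ne_zero) (x - y)).hasFDerivAt.comp y h6
    rw [hd.fderiv]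
    simp
  have hsub : tsupport ψ ⊆ closedBall x b.rOut := by
    apply closure_minimal _ isClosed_closedBall
    intro y hy
    rw [Function.mem_support] at hy
    have : x - y ∈ Function.support φ := hy
    rw [hφ, b.support_normed_eq, mem_ball_zero_iff] at this
    rw [mem_closedBall, dist_comm, dist_eq_norm]
    exact this.le
  have hψc : HasCompactSupport ψ :=
    HasCompactSupport.of_support_subset_isCompact (isCompact_closedBall x b.rOut)
      ((subset_tsupport _).trans hsub)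
  have h7 := hD ψ hψd hψc (hsub.trans hx) v
  simp only [hψf, neg_smul] at h7
  rw [integral_neg] at h7
  exact neg_inj.mp h7

lemma lintegral_normed (b : ContDiffBump (0 : Eu n)) (y : Eu n) :
    ∫⁻ x, ‖b.normed volume (x - y)‖ₑ = 1 := by
  rw [lintegral_sub_right_eq_self (fun x => ‖b.normed (volume : Measure (Eu n)) x‖ₑ) y]
  have h1 : ∫⁻ x, ‖b.normed (volume : Measure (Eu n)) x‖ₑ =
      ENNReal.ofReal (∫ x, b.normed (volume : Measure (Eu n)) x) := by
    rw [ofReal_integral_eq_lintegral_ofReal b.integrable_normed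
      (Eventually.of_forall fun x => b.nonneg_normed x)]
    apply lintegral_congr
    intro x
    rw [← ofReal_norm, Real.norm_of_nonneg (b.nonneg_normed x)]
  rw [h1, b.integral_normed]; simp

/-- mollification does not increase the `L¹` norm -/
lemma lintegral_moll_le {S : Set (Eu n)} {h : Eu n → Eu n}
    (hh : AEStronglyMeasurable h (volume.restrict Ω)) :
    ∫⁻ x in S, ‖∫ y in Ω, b.normed volume (x - y) • h y‖ₑ ≤ ∫⁻ y in Ω, ‖h y‖ₑ := by
  have hm : AEMeasurable (fun p : Eu n × Eu n => ‖b.normed volume (p.1 - p.2)‖ₑ * ‖h p.2‖ₑ)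
      ((volume : Measure (Eu n)).prod (volume.restrict Ω)) := by
    refine AEMeasurable.fun_mul ?_ ?_
    · exact ((b.continuous_normed.comp (continuous_fst.sub continuous_snd)).measurable.enorm).aemeasurable
    · exact (hh.comp_snd (μ := (volume : Measure (Eu n)))).enorm
  calc ∫⁻ x in S, ‖∫ y in Ω, b.normed volume (x - y) • h y‖ₑ
      ≤ ∫⁻ x, ‖∫ y in Ω, b.normed volume (x - y) • h y‖ₑ := setLIntegral_le_lintegral _ _
    _ ≤ ∫⁻ x, ∫⁻ y in Ω, ‖b.normed volume (x - y)‖ₑ * ‖h y‖ₑ := by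
        apply lintegral_mono
        intro x
        refine (enorm_integral_le_lintegral_enorm _).trans ?_
        apply lintegral_mono
        intro y
        simp only [enorm_smul]
        exact le_rfl
    _ = ∫⁻ y in Ω, ∫⁻ x, ‖b.normed volume (x - y)‖ₑ * ‖h y‖ₑ :=
        lintegral_lintegral_swap hm
    _ = ∫⁻ y in Ω, ‖h y‖ₑ := by
        apply lintegral_congr
        intro y
        rw [lintegral_mul_const]
        · rw [lintegral_normed, one_mul]
        · exact ((b.continuous_normed.comp (continuous_id.sub continuous_const)).measurable.enorm)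

/-- uniform closeness of the mollification -/
lemma moll_close (hg : IntegrableOn g Ω) (hΩ : MeasurableSet Ω) {x : Eu n} {κ : ℝ}
    (hx : closedBall x b.rOut ⊆ Ω) (hκ : ∀ y ∈ closedBall x b.rOut, ‖g y - g x‖ ≤ κ) :
    ‖moll b Ω g x - g x‖ ≤ κ := by
  have hxΩ : x ∈ Ω := hx (mem_closedBall_self b.rOut_pos.le)
  have h1 := b.dist_normed_convolution_le (μ := (volume : Measure (Eu n))) (g := Ω.indicator g)
    (x₀ := x) (ε := κ) ((integrable_indicator_iff hΩ).mpr hg).1 (by
      intro y hy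
      rw [indicator_of_mem (hx (ball_subset_closedBall hy)), indicator_of_mem hxΩ, dist_eq_norm]
      exact hκ y (ball_subset_closedBall hy))
  rw [indicator_of_mem hxΩ, dist_eq_norm] at h1
  exact h1

/-- selection of a good segment -/
lemma exists_line {w : Eu n → Eu n} (hw : ContDiff ℝ 1 w) (e : Eu n) {T : ℝ}
    {S0 S : Set (Eu n)} (hS0 : MeasurableSet S0) (hS : MeasurableSet S) (h0 : volume S0 ≠ 0)
    (h1 : volume S0 ≠ ⊤) (hsub : ∀ x ∈ S0, ∀ t ∈ Icc 0 T, x + t • e ∈ S) :
    ∃ x ∈ S0, (‖w x‖ₑ + ∫⁻ t in Icc 0 T, ‖fderiv ℝ w (x + t • e) e‖ₑ) * volume S0 ≤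
      (∫⁻ x in S0, ‖w x‖ₑ) + ENNReal.ofReal T * ∫⁻ x in S, ‖fderiv ℝ w x e‖ₑ := by
  have hcd : Continuous (fun x => fderiv ℝ w x e) :=
    (hw.continuous_fderiv one_ne_zero).clm_apply continuous_const
  have hprod : Measurable (fun p : Eu n × ℝ => ‖fderiv ℝ w (p.1 + p.2 • e) e‖ₑ) :=
    (hcd.comp (continuous_fst.add (continuous_snd.smul continuous_const))).measurable.enorm
  have hm : Measurable (fun x => ∫⁻ t in Icc 0 T, ‖fderiv ℝ w (x + t • e) e‖ₑ) :=
    hprod.lintegral_prod_right'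
  obtain ⟨x, hx, hx2⟩ := exists_le_setLAverage (μ := (volume : Measure (Eu n))) (s := S0)
    (f := fun x => ‖w x‖ₑ + ∫⁻ t in Icc 0 T, ‖fderiv ℝ w (x + t • e) e‖ₑ) h0 h1
    ((hw.continuous.measurable.enorm.add hm).aemeasurable)
  refine ⟨x, hx, ?_⟩
  rw [setLAverage_eq] at hx2
  have h3 : (‖w x‖ₑ + ∫⁻ t in Icc 0 T, ‖fderiv ℝ w (x + t • e) e‖ₑ) * volume S0 ≤
      ∫⁻ x in S0, (‖w x‖ₑ + ∫⁻ t in Icc 0 T, ‖fderiv ℝ w (x + t • e) e‖ₑ) := by
    rwa [← ENNReal.le_div_iff_mul_le (Or.inl h0) (Or.inl h1)]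
  refine h3.trans ?_
  rw [lintegral_add_left hw.continuous.measurable.enorm]
  gcongr
  rw [lintegral_lintegral_swap hprod.aemeasurable]
  calc ∫⁻ t in Icc 0 T, ∫⁻ x in S0, ‖fderiv ℝ w (x + t • e) e‖ₑ
      ≤ ∫⁻ t in Icc 0 T, ∫⁻ x in S, ‖fderiv ℝ w x e‖ₑ := by
        apply setLIntegral_mono' measurableSet_Icc
        intro t ht
        rw [← lintegral_indicator hS0, ← lintegral_indicator hS]
        rw [← lintegral_add_right_eq_self (fun x => S.indicator (fun x => ‖fderiv ℝ w x e‖ₑ) x) (t • e)]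
        apply lintegral_mono
        intro x
        by_cases hx : x ∈ S0
        · rw [indicator_of_mem hx]
          change _ ≤ S.indicator (fun x => ‖fderiv ℝ w x e‖ₑ) (x + t • e)
          rw [indicator_of_mem (hsub x hx t ht)]
        · rw [indicator_of_notMem hx]; exact zero_le
    _ = ENNReal.ofReal T * ∫⁻ x in S, ‖fderiv ℝ w x e‖ₑ := by
        rw [lintegral_const, Measure.restrict_apply_univ, Real.volume_Icc, sub_zero, mul_comm]

end

end Pool.Agent.L5helper85.Sob
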