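import Pool.Agent.L5helper85.CombWeak
import Pool.Agent.L5helper85.CombZig
import Pool.Agent.L5helper85.SobMoll

/-!
# The limit map of the comb is far from every homeomorphism
-/

set_option autoImplicit false

open MeasureTheory Set Filter Topology Metric
open scoped ENNReal NNReal InnerProductSpace

namespace Pool.Agent.L5helper85.Sob

variable {n : ℕ}

lemma IsWeakDiff.sub {Ω : Set (Eu n)} {f g : Eu n → Eu n} {Df Dg : Eu n → (Eu n →L[ℝ] Eu n)}
    (hf : IsWeakDiff Ω f Df) (hg : IsWeakDiff Ω g Dg)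
    (hfi : IntegrableOn f Ω) (hgi : IntegrableOn g Ω) (hDfi : IntegrableOn Df Ω)
    (hDgi : IntegrableOn Dg Ω) :
    IsWeakDiff Ω (fun x => f x - g x) (fun x => Df x - Dg x) := by
  intro φ hφ hc hs v
  have h1 := hf φ hφ hc hs v
  have h2 := hg φ hφ hc hs v
  have hφ'c : Continuous (fun x => fderiv ℝ φ x v) :=
    (hφ.continuous_fderiv (by simp)).clm_apply continuous_const
  have hsupp : HasCompactSupport (fun x => fderiv ℝ φ x v) := hc.fderiv_apply (𝕜 := ℝ) v
  have key : ∀ (ψ : Eu n → ℝ) (h : Eu n → Eu n), Continuous ψ → HasCompactSupport ψ →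
      IntegrableOn h Ω → Integrable (fun x => ψ x • h x) (volume.restrict Ω) := by
    intro ψ h hψ hψc hh
    obtain ⟨C, hC⟩ := hψc.exists_bound_of_continuous hψ
    exact hh.bdd_smul C hψ.aestronglyMeasurable (Eventually.of_forall hC)
  have a1 : ∀ (D : Eu n → (Eu n →L[ℝ] Eu n)), IntegrableOn D Ω → IntegrableOn (fun x => D x v) Ω :=
    fun D hD => hD.apply_continuousLinearMap v
  simp only [smul_sub, sub_apply]
  rw [integral_sub (key _ _ hφ'c hsupp hfi) (key _ _ hφ'c hsupp hgi),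
    integral_sub (key _ _ hφ.continuous hc (a1 _ hDfi)) (key _ _ hφ.continuous hc (a1 _ hDgi)),
    h1, h2]
  abel

end Pool.Agent.L5helper85.Sob

namespace Pool.Agent.L5helper85.Comb

open Pool.Agent.L5helper85.Sob

noncomputable section

variable {m : ℕ}

/-- open boxes -/
def obox (lo hi : Fin (m + 2) → ℝ) : Set (Eu (m + 2)) := {x | ∀ i, lo i < x i ∧ x i < hi i}

/-- closed boxes -/
def cbox (lo hi : Fin (m + 2) → ℝ) : Set (Eu (m + 2)) := {x | ∀ i, lo i ≤ x i ∧ x i ≤ hi i}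

/-- side functions -/
def sd (a b c : ℝ) : Fin (m + 2) → ℝ := fun i => if i = 0 then a else if i = 1 then b else c

lemma sd0 (a b c : ℝ) : (sd a b c : Fin (m + 2) → ℝ) 0 = a := by simp [sd]
lemma sd1 (a b c : ℝ) : (sd a b c : Fin (m + 2) → ℝ) 1 = b := by simp [sd]
lemma sd2 (a b c : ℝ) {i : Fin (m + 2)} (h0 : i ≠ 0) (h1 : i ≠ 1) : sd a b c i = c := by
  simp [sd, h0, h1]

lemma obox_open (lo hi : Fin (m + 2) → ℝ) : IsOpen (obox lo hi) := by
  have e : obox lo hi = ⋂ i, ({x : Eu (m + 2) | lo i < x i} ∩ {x | x i < hi i}) := by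
    ext x; simp [obox]
  rw [e]
  apply isOpen_iInter_of_finite
  intro i
  have hi' : Continuous (fun x : Eu (m + 2) => x i) := by fun_prop
  exact (isOpen_lt continuous_const hi').inter (isOpen_lt hi' continuous_const)

lemma cbox_closed (lo hi : Fin (m + 2) → ℝ) : IsClosed (cbox lo hi) := by
  have e : cbox lo hi = ⋂ i, ({x : Eu (m + 2) | lo i ≤ x i} ∩ {x | x i ≤ hi i}) := by
    ext x; simp [cbox]
  rw [e]
  apply isClosed_iInter
  intro i
  have hi' : Continuous (fun x : Eu (m + 2) => x i) := by fun_prop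
  exact (isClosed_le continuous_const hi').inter (isClosed_le hi' continuous_const)

/-- the starting box of the segments -/
def S0 (m : ℕ) : Set (Eu (m + 2)) := obox (sd (1/4) (57/64) (1/4)) (sd (5/16) (59/64) (3/4))
/-- the box of the segments -/
def S1 (m : ℕ) : Set (Eu (m + 2)) := obox (sd (1/4) (57/64) (1/4)) (sd (13/16) (59/64) (3/4))
/-- a compact neighbourhood -/
def KK (m : ℕ) : Set (Eu (m + 2)) := cbox (sd (1/8) (113/128) (1/8)) (sd (7/8) (119/128) (7/8))

lemma KK_sub : KK m ⊆ Om m := by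
  intro x hx
  have h0 := hx 0
  have h1 := hx 1
  rw [sd0, sd0] at h0
  rw [sd1, sd1] at h1
  refine ⟨⟨by linarith [h0.1], by linarith [h0.2]⟩, fun i hi => ?_, Or.inr ?_⟩
  · by_cases h : i = 1
    · subst h; exact ⟨by linarith [h1.1], by linarith [h1.2]⟩
    · have h2 := hx i
      rw [sd2 _ _ _ hi h, sd2 _ _ _ hi h] at h2
      exact ⟨by linarith [h2.1], by linarith [h2.2]⟩
  · exact InO.base _ (by linarith [h1.1]) (by linarith [h1.2])

lemma KK_compact : IsCompact (KK m) :=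
  Metric.isCompact_of_isClosed_isBounded (cbox_closed _ _) (Om_bdd.subset KK_sub)

lemma ball_sub_KK {x : Eu (m + 2)} (hx : x ∈ S1 m) {ε : ℝ} (hε : ε ≤ 1 / 128) :
    closedBall x ε ⊆ KK m := by
  intro y hy
  rw [mem_closedBall, dist_eq_norm] at hy
  intro i
  have h1 := abs_coord_le (y - x) i
  have h2 : |y i - x i| ≤ 1 / 128 := by
    have : (y - x) i = y i - x i := by simp
    rw [this] at h1; linarith
  rw [abs_le] at h2
  have h3 := hx i
  by_cases h0 : i = 0
  · subst h0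
    rw [sd0, sd0] at h3 ⊢
    constructor <;> linarith [h3.1, h3.2, h2.1, h2.2]
  · by_cases h4 : i = 1
    · subst h4
      rw [sd1, sd1] at h3 ⊢
      constructor <;> linarith [h3.1, h3.2, h2.1, h2.2]
    · rw [sd2 _ _ _ h0 h4, sd2 _ _ _ h0 h4] at h3 ⊢
      constructor <;> linarith [h3.1, h3.2, h2.1, h2.2]

lemma S1_sub_KK : S1 m ⊆ KK m := fun x hx =>
  ball_sub_KK hx (ε := 0) (by norm_num) (by simp)

lemma S0_sub_S1 : S0 m ⊆ S1 m := by
  intro x hx i
  have h3 := hx i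
  by_cases h0 : i = 0
  · subst h0
    rw [sd0, sd0] at h3 ⊢
    constructor <;> linarith [h3.1, h3.2]
  · by_cases h4 : i = 1
    · subst h4
      rw [sd1, sd1] at h3 ⊢
      exact h3
    · rw [sd2 _ _ _ h0 h4, sd2 _ _ _ h0 h4] at h3 ⊢
      exact h3

lemma line_mem {x : Eu (m + 2)} (hx : x ∈ S0 m) {t : ℝ} (ht : t ∈ Icc (0 : ℝ) (1 / 2)) :
    x + t • e0 m ∈ S1 m := by
  intro i
  have h3 := hx i
  by_cases h0 : i = 0
  · subst h0
    have : (x + t • e0 m) 0 = x 0 + t := by simp [e0]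
    rw [this]
    rw [sd0, sd0] at h3 ⊢
    constructor <;> linarith [h3.1, h3.2, ht.1, ht.2]
  · have : (x + t • e0 m) i = x i := by simp [e0, h0]
    rw [this]
    by_cases h4 : i = 1
    · subst h4
      rw [sd1, sd1] at h3 ⊢
      exact h3
    · rw [sd2 _ _ _ h0 h4, sd2 _ _ _ h0 h4] at h3 ⊢
      exact h3

lemma S0_nonempty : (S0 m).Nonempty := by
  refine ⟨WithLp.toLp 2 (sd (9/32) (29/32) (1/2)), fun i => ?_⟩
  by_cases h0 : i = 0
  · subst h0
    simp only [sd0]; norm_num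
  · by_cases h4 : i = 1
    · subst h4
      simp only [sd1]; norm_num
    · simp only [sd2 _ _ _ h0 h4]; norm_num

lemma vol_S0_ne : volume (S0 m) ≠ 0 :=
  ((obox_open _ _).measure_pos (volume : Measure (Eu (m + 2))) S0_nonempty).ne'

lemma vol_S0_lt : volume (S0 m) ≠ ⊤ :=
  ((Om_bdd.subset (S0_sub_S1.trans (S1_sub_KK.trans KK_sub))).measure_lt_top).ne

lemma Fc0_zero (x : Eu (m + 2)) : (Fc 0 x) 0 = x 0 := by
  unfold Fc; rw [chg_zero]

lemma Fc0_one {x : Eu (m + 2)} (hx : x ∈ KK m) : (Fc 0 x) 1 = 0 := by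
  unfold Fc
  have h1 := hx 1
  rw [sd1, sd1] at h1
  rw [chg_one, psi_left (by norm_num) le_rfl (by linarith [h1.1]) (by linarith [h1.2]), zero_mul,
    Z_of_nonpos' _ le_rfl]
  norm_num

lemma Om'_pos {y : Eu (m + 2)} (hy : y ∈ Om' m) : 0 < y 1 := by
  obtain ⟨x, hx, rfl⟩ := hy
  unfold Fc
  rw [chg_one]
  have h1 := Om.x1 hx
  have h2 := psi_pos (c := 1) one_pos h1.1
  have h3 := Z_nonneg (x 0) (psi 1 (x 1))
  linarith

/-- points of the teeth of the second domain -/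
lemma Om'_tooth {y : Eu (m + 2)} (hy : y ∈ Om' m) (h : 0 < y 0) :
    InO (y 1 - Z (y 0) (2 * y 1 / 3)) ∧
      Z (y 0) (2 * y 1 / 3) = Z (y 0) (y 1 - Z (y 0) (2 * y 1 / 3)) := by
  obtain ⟨x, hx, rfl⟩ := hy
  unfold Fc at *
  rw [chg_zero] at *
  rw [chg_one, psi_one (Om.x1 hx).2.le]
  have h1 : InO (x 1) := hx.2.2.resolve_left (not_lt.mpr h.le)
  rw [Z_back (Or.inr h1), add_sub_cancel_right]
  exact ⟨h1, rfl⟩

lemma norm_e0 : ‖e0 m‖ = 1 := by
  simp [e0]

theorem far (F : Eu (m + 2) → Eu (m + 2)) (DF Df : Eu (m + 2) → (Eu (m + 2) →L[ℝ] Eu (m + 2)))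
    (hF : ContinuousOn F (Om m)) (hFm : MapsTo F (Om m) (Om' m))
    (hDF : IsWeakDiff (Om m) F DF) (hDf : IsWeakDiff (Om m) (Fc 0) Df)
    (hFi : IntegrableOn F (Om m)) (hfi : IntegrableOn (Fc 0) (Om m)) (hDFi : IntegrableOn DF (Om m))
    (hDfi : IntegrableOn Df (Om m)) :
    ENNReal.ofReal (1 / 32) * volume (S0 m) ≤
      (∫⁻ x in Om m, ‖F x - Fc 0 x‖ₑ) + ∫⁻ x in Om m, ‖DF x - Df x‖ₑ := by
  by_contra hcon
  push Not at hcon
  have hms : MeasurableSet (Om m) := Om_open.measurableSet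
  set g : Eu (m + 2) → Eu (m + 2) := fun x => F x - Fc 0 x with hg
  set D : Eu (m + 2) → (Eu (m + 2) →L[ℝ] Eu (m + 2)) := fun x => DF x - Df x with hD
  have hgD : IsWeakDiff (Om m) g D := hDF.sub hDf hFi hfi hDFi hDfi
  have hgi : IntegrableOn g (Om m) := hFi.sub hfi
  have hDi : IntegrableOn D (Om m) := hDFi.sub hDfi
  have hgc : ContinuousOn g (Om m) := hF.sub (Fc_cont (Or.inl rfl))
  -- lower bound for the height
  have hKne : (KK m).Nonempty := S0_nonempty.mono (S0_sub_S1.trans S1_sub_KK)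
  have hF1 : ContinuousOn (fun x => (F x) 1) (KK m) := by
    have h1 : Continuous (fun y : Eu (m + 2) => y 1) := by fun_prop
    exact h1.comp_continuousOn (hF.mono KK_sub)
  obtain ⟨xm, hxm, hmin⟩ := KK_compact.exists_isMinOn hKne hF1
  set bm := (F xm) 1 with hbm
  have hbm0 : 0 < bm := Om'_pos (hFm (KK_sub hxm))
  have hbm' : ∀ x ∈ KK m, bm ≤ (F x) 1 := fun x hx => hmin hx
  set κ := min (1 / 64) (bm / 100) with hκ
  have hκ0 : 0 < κ := lt_min (by norm_num) (by positivity)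
  have hκ1 : κ ≤ 1 / 64 := min_le_left _ _
  have hκ2 : κ ≤ bm / 100 := min_le_right _ _
  -- uniform continuity
  have huc := KK_compact.uniformContinuousOn_of_continuous (hgc.mono KK_sub)
  rw [Metric.uniformContinuousOn_iff] at huc
  obtain ⟨ε', hε', huc⟩ := huc κ hκ0
  set ε := min (ε' / 2) (1 / 128) with hε
  have hε0 : 0 < ε := lt_min (by positivity) (by norm_num)
  have hε1 : ε ≤ 1 / 128 := min_le_right _ _
  have hε2 : ε < ε' := lt_of_le_of_lt (min_le_left _ _) (by linarith)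
  set b : ContDiffBump (0 : Eu (m + 2)) := ⟨ε / 2, ε, by positivity, by linarith⟩ with hb
  have hbr : b.rOut = ε := rfl
  set w := moll b (Om m) g with hw
  have hwd : ContDiff ℝ 1 w := (moll_contDiff hgi hms).of_le (by simp)
  have hball : ∀ x ∈ S1 m, closedBall x b.rOut ⊆ Om m := fun x hx =>
    (ball_sub_KK hx hε1).trans KK_sub
  have hclose : ∀ x ∈ S1 m, ‖w x - g x‖ ≤ κ := by
    intro x hx
    apply moll_close hgi hms (hball x hx)
    intro y hy
    have h1 := huc y (ball_sub_KK hx hε1 hy) x (S1_sub_KK hx)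
      (lt_of_le_of_lt (mem_closedBall.mp hy) hε2)
    rw [dist_eq_norm] at h1
    exact h1.le
  -- selection of the line
  obtain ⟨x, hx, hline⟩ := exists_line hwd (e0 m) (T := 1 / 2) (obox_open _ _).measurableSet
    (obox_open _ _).measurableSet vol_S0_ne vol_S0_lt (S := S1 m) (fun x hx t ht => line_mem hx ht)
  have hb1 : ∫⁻ x in S0 m, ‖w x‖ₑ ≤ ∫⁻ x in Om m, ‖g x‖ₑ := by
    simp only [hw, moll_eq hms]
    exact lintegral_moll_le hgi.1
  have hb2 : ∫⁻ x in S1 m, ‖fderiv ℝ w x (e0 m)‖ₑ ≤ ∫⁻ x in Om m, ‖D x‖ₑ := by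
    have h1 : ∫⁻ x in S1 m, ‖fderiv ℝ w x (e0 m)‖ₑ =
        ∫⁻ x in S1 m, ‖∫ y in Om m, b.normed volume (x - y) • D y (e0 m)‖ₑ := by
      apply setLIntegral_congr_fun (obox_open _ _).measurableSet
      intro x hx
      simp only
      rw [hw, moll_fderiv hgi hms hgD (hball x hx)]
    rw [h1]
    refine (lintegral_moll_le (hDi.1.apply_continuousLinearMap (e0 m))).trans ?_
    apply lintegral_mono
    intro y
    simp only
    rw [← ofReal_norm, ← ofReal_norm]
    apply ENNReal.ofReal_le_ofReal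
    have := ContinuousLinearMap.le_opNorm (D y) (e0 m)
    rwa [norm_e0, mul_one] at this
  have hsum : ‖w x‖ₑ + ∫⁻ t in Icc (0:ℝ) (1/2), ‖fderiv ℝ w (x + t • e0 m) (e0 m)‖ₑ <
      ENNReal.ofReal (1 / 32) := by
    have h1 : (‖w x‖ₑ + ∫⁻ t in Icc (0:ℝ) (1/2), ‖fderiv ℝ w (x + t • e0 m) (e0 m)‖ₑ) * volume (S0 m) <
        ENNReal.ofReal (1 / 32) * volume (S0 m) := by
      refine lt_of_le_of_lt hline (lt_of_le_of_lt (add_le_add hb1 ?_) hcon)
      calc ENNReal.ofReal (1/2) * ∫⁻ x in S1 m, ‖fderiv ℝ w x (e0 m)‖ₑ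
          ≤ 1 * ∫⁻ x in S1 m, ‖fderiv ℝ w x (e0 m)‖ₑ := by
            gcongr
            rw [← ENNReal.ofReal_one]
            exact ENNReal.ofReal_le_ofReal (by norm_num)
        _ ≤ _ := by rw [one_mul]; exact hb2
    exact lt_of_mul_lt_mul_right' h1
  -- the curve
  have hmem : ∀ t ∈ Icc (0 : ℝ) (1 / 2), x + t • e0 m ∈ S1 m := fun t ht => line_mem hx ht
  have hcl : Continuous (fun t : ℝ => x + t • e0 m) := by fun_prop
  have hclO : MapsTo (fun t : ℝ => x + t • e0 m) (Icc 0 (1 / 2)) (Om m) := fun t ht =>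
    KK_sub (S1_sub_KK (hmem t ht))
  have hdw : Continuous (fun t : ℝ => fderiv ℝ w (x + t • e0 m) (e0 m)) :=
    ((hwd.continuous_fderiv one_ne_zero).comp hcl).clm_apply continuous_const
  set V : ℝ → ℝ := fun t => ∫ s in (0 : ℝ)..t, ‖fderiv ℝ w (x + s • e0 m) (e0 m)‖ with hV
  have hVint : ∀ s t, IntervalIntegrable (fun r => ‖fderiv ℝ w (x + r • e0 m) (e0 m)‖) volume s t :=
    fun s t => hdw.norm.intervalIntegrable s t
  have hVsub : ∀ s t, V t - V s = ∫ r in s..t, ‖fderiv ℝ w (x + r • e0 m) (e0 m)‖ := fun s t =>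
    intervalIntegral.integral_interval_sub_left (hVint 0 t) (hVint 0 s)
  have hder : ∀ t : ℝ, HasDerivAt (fun t : ℝ => w (x + t • e0 m))
      (fderiv ℝ w (x + t • e0 m) (e0 m)) t := by
    intro t
    have h1 : HasDerivAt (fun t : ℝ => x + t • e0 m) (e0 m) t := by
      simpa using ((hasDerivAt_id t).smul_const (e0 m)).const_add x
    exact ((hwd.differentiable one_ne_zero) _).hasFDerivAt.comp_hasDerivAt t h1
  have hVw : ∀ s t, s ≤ t → ‖w (x + t • e0 m) - w (x + s • e0 m)‖ ≤ V t - V s := by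
    intro s t hst
    rw [hVsub, ← intervalIntegral.integral_eq_sub_of_hasDerivAt (fun r _ => hder r)
      (hdw.intervalIntegrable s t)]
    exact intervalIntegral.norm_integral_le_integral_norm hst
  have hV0 : V 0 = 0 := by simp [hV]
  have hVhalf : ‖w x‖ + V (1 / 2) ≤ 1 / 32 := by
    have h1 : ∫⁻ t in Icc (0:ℝ) (1/2), ‖fderiv ℝ w (x + t • e0 m) (e0 m)‖ₑ =
        ENNReal.ofReal (V (1 / 2)) := by
      rw [hV]
      simp only
      rw [intervalIntegral.integral_of_le (by norm_num), ← integral_Icc_eq_integral_Ioc,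
        ofReal_integral_eq_lintegral_ofReal]
      · apply lintegral_congr
        intro t
        rw [ofReal_norm]
      · exact (hdw.norm.continuousOn.integrableOn_Icc)
      · exact Eventually.of_forall fun t => norm_nonneg _
    have hVn : 0 ≤ V (1 / 2) := by
      have := hVw 0 (1 / 2) (by norm_num)
      rw [hV0, sub_zero] at this
      exact (norm_nonneg _).trans this
    rw [h1, ← ofReal_norm, ← ENNReal.ofReal_add (norm_nonneg _) hVn] at hsum
    exact ((ENNReal.ofReal_lt_ofReal_iff (by norm_num)).mp hsum).le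
  have hVmono : ∀ t ∈ Icc (0 : ℝ) (1 / 2), V t ≤ V (1 / 2) := by
    intro t ht
    have := hVw t (1 / 2) ht.2
    linarith [norm_nonneg (w (x + (1 / 2 : ℝ) • e0 m) - w (x + t • e0 m))]
  have hwsmall : ∀ t ∈ Icc (0 : ℝ) (1 / 2), ‖w (x + t • e0 m)‖ ≤ 1 / 32 := by
    intro t ht
    have h1 := hVw 0 t ht.1
    rw [hV0, sub_zero, zero_smul, add_zero] at h1
    have h2 := hVmono t ht
    have h3 : ‖w (x + t • e0 m)‖ ≤ ‖w x‖ + ‖w (x + t • e0 m) - w x‖ := by
      have := norm_add_le (w x) (w (x + t • e0 m) - w x)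
      rwa [add_sub_cancel] at this
    linarith
  have hgsmall : ∀ t ∈ Icc (0 : ℝ) (1 / 2), ‖g (x + t • e0 m)‖ ≤ 1 / 16 := by
    intro t ht
    have h1 := hwsmall t ht
    have h2 := hclose _ (hmem t ht)
    have h3 : ‖g (x + t • e0 m)‖ ≤ ‖w (x + t • e0 m)‖ +
        ‖w (x + t • e0 m) - g (x + t • e0 m)‖ := by
      have := norm_sub_le (w (x + t • e0 m)) (w (x + t • e0 m) - g (x + t • e0 m))
      rwa [sub_sub_cancel] at this
    linarith
  have hx0 := hx 0
  rw [sd0, sd0] at hx0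
  -- coordinates of the curve
  have ha : ∀ t ∈ Icc (0 : ℝ) (1 / 2), |(F (x + t • e0 m)) 0 - (x 0 + t)| ≤ 1 / 16 := by
    intro t ht
    have h1 := (abs_coord_le (g (x + t • e0 m)) 0).trans (hgsmall t ht)
    have h2 : (g (x + t • e0 m)) 0 = (F (x + t • e0 m)) 0 - (x 0 + t) := by
      have h3 : (g (x + t • e0 m)) 0 = (F (x + t • e0 m)) 0 - (Fc 0 (x + t • e0 m)) 0 := by
        simp [hg]
      rw [h3, Fc0_zero]
      simp [e0]
    rwa [h2] at h1
  have hg1 : ∀ t ∈ Icc (0 : ℝ) (1 / 2), (F (x + t • e0 m)) 1 = (g (x + t • e0 m)) 1 := by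
    intro t ht
    have h3 : (g (x + t • e0 m)) 1 = (F (x + t • e0 m)) 1 - (Fc 0 (x + t • e0 m)) 1 := by
      simp [hg]
    rw [h3, Fc0_one (S1_sub_KK (hmem t ht)), sub_zero]
  have hapos : ∀ t ∈ Icc (0 : ℝ) (1 / 2), 0 < (F (x + t • e0 m)) 0 := by
    intro t ht
    have h1 := (abs_le.mp (ha t ht)).1
    linarith [ht.1, hx0.1]
  have hFO : ∀ t ∈ Icc (0 : ℝ) (1 / 2), F (x + t • e0 m) ∈ Om' m := fun t ht => hFm (hclO ht)
  have hFc : ContinuousOn (fun t : ℝ => F (x + t • e0 m)) (Icc 0 (1 / 2)) :=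
    hF.comp hcl.continuousOn hclO
  set u : ℝ → ℝ := fun t => (F (x + t • e0 m)) 1 -
    Z ((F (x + t • e0 m)) 0) (2 * (F (x + t • e0 m)) 1 / 3) with hu
  have hac : ContinuousOn (fun t : ℝ => (F (x + t • e0 m)) 0) (Icc 0 (1 / 2)) := by
    have h1 : Continuous (fun y : Eu (m + 2) => y 0) := by fun_prop
    exact h1.comp_continuousOn hFc
  have hbc : ContinuousOn (fun t : ℝ => (F (x + t • e0 m)) 1) (Icc 0 (1 / 2)) := by
    have h1 : Continuous (fun y : Eu (m + 2) => y 1) := by fun_prop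
    exact h1.comp_continuousOn hFc
  have huC : ContinuousOn u (Icc 0 (1 / 2)) := hbc.sub (contOn_Z.comp hFc hFO)
  have huO : ∀ t ∈ Icc (0 : ℝ) (1 / 2), InO (u t) := fun t ht =>
    (Om'_tooth (hFO t ht) (hapos t ht)).1
  have h00 : (0 : ℝ) ∈ Icc (0 : ℝ) (1 / 2) := by constructor <;> norm_num
  have hhh : (1 / 2 : ℝ) ∈ Icc (0 : ℝ) (1 / 2) := by constructor <;> norm_num
  set l := lam (u 0) with hl
  have hl0 : 0 < l := lam_pos (huO 0 h00).pos
  have hlam : ∀ t ∈ Icc (0 : ℝ) (1 / 2), lam (u t) = l := by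
    intro t ht
    have hsub : Icc 0 t ⊆ Icc (0 : ℝ) (1 / 2) := Icc_subset_Icc le_rfl ht.2
    exact (lam_const_aux ht.1 (huC.mono hsub) fun r hr => huO r (hsub hr)).symm
  have hbu : ∀ t ∈ Icc (0 : ℝ) (1 / 2), (F (x + t • e0 m)) 1 -
      l / 4 * (1 - Real.cos (Real.pi * (F (x + t • e0 m)) 0 / l)) = u t := by
    intro t ht
    have h1 := (Om'_tooth (hFO t ht) (hapos t ht)).2
    have h2 : Z ((F (x + t • e0 m)) 0) (u t) =
        l / 4 * (1 - Real.cos (Real.pi * (F (x + t • e0 m)) 0 / l)) := by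
      unfold Z
      rw [hlam t ht, max_eq_left (hapos t ht).le]
    rw [← h2, ← h1]
  have hbl : ∀ t ∈ Icc (0 : ℝ) (1 / 2), 7 / 8 * l < u t ∧ u t < l := by
    intro t ht
    have h1 := (huO t ht).lam_bounds
    rwa [hlam t ht] at h1
  have hκl : κ ≤ l / 64 := by
    have h1 := hbm' _ (S1_sub_KK (hmem 0 h00))
    have h2 := hbu 0 h00
    have h3 := (hbl 0 h00).2
    have h4 := Real.neg_one_le_cos (Real.pi * (F (x + (0 : ℝ) • e0 m)) 0 / l)
    have h5 : l / 4 * (1 - Real.cos (Real.pi * (F (x + (0 : ℝ) • e0 m)) 0 / l)) ≤ l / 2 := by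
      nlinarith
    linarith
  refine zig (a := fun t => (F (x + t • e0 m)) 0) (b := fun t => (F (x + t • e0 m)) 1) (V := V)
    (G := fun t => (w (x + t • e0 m)) 1) (κ := κ) hl0 hac ?_ ?_ ?_ ?_ hκl ?_ ?_ hV0 ?_
  · have h1 := (abs_le.mp (ha 0 h00)).2
    simp only
    linarith [hx0.2]
  · have h1 := (abs_le.mp (ha _ hhh)).1
    simp only
    linarith [hx0.1]
  · intro t ht
    simp only
    rw [hbu t ht]
    exact hbl t ht
  · simp only
    rw [hg1 0 h00]
    exact (le_abs_self _).trans ((abs_coord_le _ 1).trans (hgsmall 0 h00))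
  · intro t ht
    simp only
    rw [hg1 t ht, abs_sub_comm]
    have h1 := (abs_coord_le (w (x + t • e0 m) - g (x + t • e0 m)) 1).trans (hclose _ (hmem t ht))
    simpa using h1
  · intro s hs t ht hst
    have h1 := (abs_coord_le (w (x + t • e0 m) - w (x + s • e0 m)) 1).trans (hVw s t hst)
    simpa using h1
  · intro t ht
    have h1 := hVmono t ht
    have h2 := norm_nonneg (w x)
    linarith

end

end Pool.Agent.L5helper85.Comb
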