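import Pool.Agent.L5helper85.CombO

/-!
# Continuously differentiable squeezing maps: definitions
-/

set_option autoImplicit false

open Set Filter Topology Metric

namespace Pool.Agent.L5helper85.Comb

noncomputable section

/-- square of the positive part -/
def sq (x : ℝ) : ℝ := (max x 0) ^ 2

/-- a `C¹` version of `psi c` -/
def psj (c x : ℝ) : ℝ :=
  c * x - 16 * c * (1 - c) * (sq (x - 7 / 8) - 2 * sq (x - 57 / 64) + sq (x - 29 / 32)) +
  32 * (1 - c) / c * (sq (x - 15 / 16 + c / 64) - sq (x - 15 / 16)) +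
  160 / c * (3 * sq (x - 15 / 16 - c / 16) - 4 * sq (x - 15 / 16 - c / 16 - 3 * c / 128) +
    sq (x - 15 / 16 - c / 16 - 3 * c / 64))

/-- its derivative -/
def dpsj (c x : ℝ) : ℝ :=
  c - 32 * c * (1 - c) * (max (x - 7 / 8) 0 - 2 * max (x - 57 / 64) 0 + max (x - 29 / 32) 0) +
  64 * (1 - c) / c * (max (x - 15 / 16 + c / 64) 0 - max (x - 15 / 16) 0) +
  320 / c * (3 * max (x - 15 / 16 - c / 16) 0 - 4 * max (x - 15 / 16 - c / 16 - 3 * c / 128) 0 +
    max (x - 15 / 16 - c / 16 - 3 * c / 64) 0)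

end

end Pool.Agent.L5helper85.Comb
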