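import Pool.Agent.L5helper85.SobDefs

/-!
# Lipschitz maps are Sobolev maps; weak convergence of bounded sequences
-/

set_option autoImplicit false

open MeasureTheory Set Filter Topology Metric
open scoped ENNReal NNReal InnerProductSpace

namespace Pool.Agent.L5helper85.Sob

noncomputable section

variable {n : ℕ}

lemma integral_coord {g : Eu n → Eu n} {μ : Measure (Eu n)} (hg : Integrable g μ) (i : Fin n) :
    (∫ x, g x ∂μ) i = ∫ x, (g x) i ∂μ := by
  have := (EuclideanSpace.proj i : Eu n →L[ℝ] ℝ).integral_comp_comm hg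
  simpa using this.symm

lemma lip_coord {F : Eu n → Eu n} {C : ℝ≥0} (hF : LipschitzWith C F) (i : Fin n) :
    LipschitzWith C (fun x => F x i) := by
  apply LipschitzWith.of_dist_le_mul
  intro x y
  have h1 := PiLp.norm_apply_le (F x - F y) i
  have h2 := hF.dist_le_mul x y
  rw [Real.dist_eq]
  rw [dist_eq_norm] at h2
  refine le_trans ?_ h2
  simpa using h1

lemma isWeakDiff_of_lipschitz {Ω : Set (Eu n)} (hΩ : IsOpen Ω) {f F : Eu n → Eu n} {C : ℝ≥0}
    (hF : LipschitzWith C F) (hfF : EqOn f F Ω) : IsWeakDiff Ω f (fderiv ℝ F) := by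
  intro φ hφ hc hs v
  have hφ1 : ContDiff ℝ 1 φ := hφ.of_le (by simp)
  obtain ⟨D, hD⟩ := hφ1.lipschitzWith_of_hasCompactSupport hc (by simp)
  have hφd : Differentiable ℝ φ := hφ.differentiable (by simp)
  have hzero : ∀ x, x ∉ Ω → φ x = 0 := fun x hx => image_eq_zero_of_notMem_tsupport fun h => hx (hs h)
  have hdzero : ∀ x, x ∉ Ω → fderiv ℝ φ x = 0 := by
    intro x hx
    have : x ∉ tsupport (fderiv ℝ φ) := fun h => hx (hs (tsupport_fderiv_subset ℝ h))
    exact image_eq_zero_of_notMem_tsupport this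
  have e1 : ∫ x in Ω, (fderiv ℝ φ x v) • f x = ∫ x, (fderiv ℝ φ x v) • F x := by
    rw [setIntegral_congr_fun hΩ.measurableSet (g := fun x => (fderiv ℝ φ x v) • F x)]
    · apply setIntegral_eq_integral_of_forall_compl_eq_zero
      intro x hx; simp [hdzero x hx]
    · intro x hx; simp only [hfF hx]
  have e2 : ∫ x in Ω, φ x • (fderiv ℝ F x v) = ∫ x, φ x • (fderiv ℝ F x v) := by
    apply setIntegral_eq_integral_of_forall_compl_eq_zero
    intro x hx; simp [hzero x hx]
  rw [e1, e2]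
  have hφ'c : Continuous (fun x => fderiv ℝ φ x v) :=
    (hφ.continuous_fderiv (by simp)).clm_apply continuous_const
  have hsupp : HasCompactSupport (fun x => fderiv ℝ φ x v) := hc.fderiv_apply (𝕜 := ℝ) v
  have hi1 : Integrable (fun x => (fderiv ℝ φ x v) • F x) := by
    apply Continuous.integrable_of_hasCompactSupport
    · exact hφ'c.smul hF.continuous
    · exact hsupp.smul_right
  have hmeas : AEStronglyMeasurable (fun x => fderiv ℝ F x v) (volume : Measure (Eu n)) :=
    (measurable_fderiv_apply_const ℝ F v).aestronglyMeasurable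
  have hbd : ∀ x, ‖fderiv ℝ F x v‖ ≤ C * ‖v‖ := by
    intro x
    refine (ContinuousLinearMap.le_opNorm _ _).trans ?_
    gcongr
    exact norm_fderiv_le_of_lipschitz ℝ hF
  have hi2 : Integrable (fun x => φ x • (fderiv ℝ F x v)) := by
    have h1 : Integrable φ := hφ.continuous.integrable_of_hasCompactSupport hc
    refine Integrable.mono' ((h1.norm).mul_const (C * ‖v‖)) (h1.aestronglyMeasurable.smul hmeas) ?_
    filter_upwards with x
    rw [norm_smul]
    gcongr
    exact hbd x
  have key : ∀ i, ∫ x, (fderiv ℝ φ x v) * F x i = - ∫ x, φ x * (fderiv ℝ F x v) i := by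
    intro i
    have h1 := (lip_coord hF i).integral_lineDeriv_mul_eq (μ := (volume : Measure (Eu n))) hD hc v
    have h2 : ∀ x, lineDeriv ℝ φ x (-v) * F x i = - ((fderiv ℝ φ x v) * F x i) := by
      intro x
      rw [(hφd x).lineDeriv_eq_fderiv]
      simp
    have h3 : ∫ x, lineDeriv ℝ (fun x => F x i) x v * φ x = ∫ x, φ x * (fderiv ℝ F x v) i := by
      apply integral_congr_ae
      filter_upwards [hF.ae_differentiableAt (μ := (volume : Measure (Eu n)))] with x hx
      have hd : HasFDerivAt (fun x => F x i) ((EuclideanSpace.proj i : Eu n →L[ℝ] ℝ) ∘L fderiv ℝ F x) x :=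
        (EuclideanSpace.proj i : Eu n →L[ℝ] ℝ).hasFDerivAt.comp x hx.hasFDerivAt
      rw [hd.differentiableAt.lineDeriv_eq_fderiv, hd.fderiv]
      simp [mul_comm]
    simp only [h2] at h1
    rw [integral_neg, h3] at h1
    linarith
  ext i
  rw [integral_coord hi1 i]
  have e3 : (-∫ x, φ x • (fderiv ℝ F x v)) i = -((∫ x, φ x • (fderiv ℝ F x v)) i) := by simp
  rw [e3, integral_coord hi2 i]
  simpa using key i

/-- A bounded map, Lipschitz on the bounded open set `Ω`, lies in `W^{1,p}(Ω)`, with weak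
differential bounded by a constant that only depends on the Lipschitz constant. -/
lemma exists_sobolev_of_lip (n : ℕ) (C : ℝ≥0) : ∃ K : ℝ, ∀ (Ω : Set (Eu n)) (f : Eu n → Eu n)
    (R : ℝ), IsOpen Ω → volume Ω < ⊤ → (∀ x ∈ Ω, ‖f x‖ ≤ R) → LipschitzOnWith C f Ω →
    ∃ Df : Eu n → (Eu n →L[ℝ] Eu n), (∀ p, IsSobolev p Ω f Df) ∧ (∀ x, ‖Df x‖ ≤ K) ∧
      Measurable Df := by
  refine ⟨((lipschitzExtensionConstant (Eu n) * C : ℝ≥0) : ℝ), ?_⟩
  intro Ω f R hΩ hvol hR hf
  obtain ⟨F, hF, hfF⟩ := hf.extend_finite_dimension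
  have hfin : IsFiniteMeasure (volume.restrict Ω : Measure (Eu n)) := ⟨by simpa using hvol⟩
  refine ⟨fderiv ℝ F, fun p => ⟨?_, ?_, isWeakDiff_of_lipschitz hΩ hF hfF⟩, fun x => ?_, ?_⟩
  · refine MemLp.of_bound (hf.continuousOn.aestronglyMeasurable hΩ.measurableSet) R ?_
    filter_upwards [ae_restrict_mem hΩ.measurableSet] with x hx
    exact hR x hx
  · refine MemLp.of_bound (measurable_fderiv ℝ F).aestronglyMeasurable
      ((lipschitzExtensionConstant (Eu n) * C : ℝ≥0) : ℝ) ?_
    filter_upwards with x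
    exact norm_fderiv_le_of_lipschitz ℝ hF
  · exact norm_fderiv_le_of_lipschitz ℝ hF
  · exact measurable_fderiv ℝ F

lemma exists_cutoff {Ω : Set (Eu n)} (hΩ : IsOpen Ω) (hb : Bornology.IsBounded Ω) :
    ∃ χ : ℕ → Eu n → ℝ, (∀ j, ContDiff ℝ ((⊤ : ℕ∞) : WithTop ℕ∞) (χ j)) ∧
      (∀ j, HasCompactSupport (χ j)) ∧ (∀ j, tsupport (χ j) ⊆ Ω) ∧
      (∀ j x, 0 ≤ χ j x ∧ χ j x ≤ 1) ∧ (∀ x ∈ Ω, ∀ᶠ j in atTop, χ j x = 1) := by
  obtain ⟨f, hf1, hf2, hf3⟩ := hΩ.exists_contDiff_support_eq (n := (⊤ : ℕ∞))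
  have hs : ∀ j : ℕ, tsupport (fun x => Real.smoothTransition (j * f x - 1)) ⊆ Ω := by
    intro j
    have h1 : tsupport (fun x => Real.smoothTransition (j * f x - 1)) ⊆ {x | 1 ≤ j * f x} := by
      apply closure_minimal
      · intro x hx
        rw [Function.mem_support] at hx
        simp only [mem_ofPred_eq]
        by_contra h
        exact hx (Real.smoothTransition.zero_of_nonpos (by linarith))
      · exact isClosed_le continuous_const (continuous_const.mul hf2.continuous)
    refine h1.trans fun x hx => ?_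
    rw [← hf1, Function.mem_support]
    intro h
    simp only [mem_ofPred_eq, h, mul_zero] at hx
    linarith
  refine ⟨fun j x => Real.smoothTransition (j * f x - 1), fun j => ?_, fun j => ?_, hs, ?_, ?_⟩
  · exact Real.smoothTransition.contDiff.comp ((contDiff_const.mul hf2).sub contDiff_const)
  · exact Metric.isCompact_of_isClosed_isBounded (isClosed_tsupport _) (hb.subset (hs j))
  · intro j x
    exact ⟨Real.smoothTransition.nonneg _, Real.smoothTransition.le_one _⟩
  · intro x hx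
    have h0 : 0 < f x := by
      rw [← hf1, Function.mem_support] at hx
      have := hf3 (mem_range_self x)
      exact lt_of_le_of_ne this.1 (Ne.symm hx)
    obtain ⟨N, hN⟩ := exists_nat_gt (2 / f x)
    filter_upwards [eventually_ge_atTop N] with j hj
    apply Real.smoothTransition.one_of_one_le
    have h1 : (2 / f x) < j := hN.trans_le (by exact_mod_cast hj)
    rw [div_lt_iff₀ h0] at h1
    linarith

/-- test functions are dense in `L¹(Ω)` -/
lemma exists_test_near {Ω : Set (Eu n)} (hΩ : IsOpen Ω) (hb : Bornology.IsBounded Ω) {η : Eu n → ℝ}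
    (hη : IntegrableOn η Ω) {ε : ℝ} (hε : 0 < ε) :
    ∃ φ : Eu n → ℝ, ContDiff ℝ ((⊤ : ℕ∞) : WithTop ℕ∞) φ ∧ HasCompactSupport φ ∧ tsupport φ ⊆ Ω ∧
      ∫ x in Ω, |η x - φ x| ≤ ε := by
  obtain ⟨χ, hχ1, hχ2, hχ3, hχ4, hχ5⟩ := exists_cutoff hΩ hb
  have hη' : MemLp η 1 (volume.restrict Ω) := memLp_one_iff_integrable.mpr hη
  obtain ⟨g, hg1, hg2, hg3⟩ := hη'.exist_eLpNorm_sub_le (by simp) le_rfl (half_pos hε)
  have hg4 : Integrable g (volume.restrict Ω) :=
    (hg2.continuous.integrable_of_hasCompactSupport hg1).restrict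
  have h1 : Tendsto (fun j => ∫ x in Ω, (1 - χ j x) * |η x|) atTop (𝓝 (∫ x in Ω, (0 : ℝ))) := by
    apply tendsto_integral_of_dominated_convergence (fun x => |η x|)
    · intro j
      exact ((continuous_const.sub (hχ1 j).continuous).aestronglyMeasurable).mul hη.norm.1
    · exact hη.norm
    · intro j
      filter_upwards with x
      rw [Real.norm_eq_abs, abs_mul, abs_abs]
      have := hχ4 j x
      rw [abs_of_nonneg (by linarith)]
      exact mul_le_of_le_one_left (abs_nonneg _) (by linarith)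
    · filter_upwards [ae_restrict_mem hΩ.measurableSet] with x hx
      apply tendsto_const_nhds.congr'
      filter_upwards [hχ5 x hx] with j hj
      rw [hj]; simp
  rw [integral_zero] at h1
  obtain ⟨j, hj⟩ := (h1.eventually (gt_mem_nhds (half_pos hε))).exists
  refine ⟨fun x => χ j x * g x, (hχ1 j).mul hg2, (hχ2 j).mul_right, ?_, ?_⟩
  · exact (closure_mono (Function.support_mul_subset_left _ _)).trans (hχ3 j)
  · have i1 : Integrable (fun x => (1 - χ j x) * |η x|) (volume.restrict Ω) := by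
      refine Integrable.mono' hη.norm
        (((continuous_const.sub (hχ1 j).continuous).aestronglyMeasurable).mul hη.norm.1) ?_
      filter_upwards with x
      rw [Real.norm_eq_abs, abs_mul, abs_abs]
      have := hχ4 j x
      rw [abs_of_nonneg (by linarith)]
      exact mul_le_of_le_one_left (abs_nonneg _) (by linarith)
    have i2 : Integrable (fun x => |η x - g x|) (volume.restrict Ω) := (hη.sub hg4).norm
    have h2 : ∫ x in Ω, |η x - g x| ≤ ε / 2 := by
      have h3 : eLpNorm (η - g) 1 (volume.restrict Ω) = ENNReal.ofReal (∫ x in Ω, |η x - g x|) := by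
        rw [eLpNorm_one_eq_lintegral_enorm, ofReal_integral_eq_lintegral_ofReal i2
          (Eventually.of_forall fun x => abs_nonneg _)]
        apply lintegral_congr
        intro x
        rw [← Real.norm_eq_abs, ofReal_norm]; rfl
      rw [h3] at hg3
      exact (ENNReal.ofReal_le_ofReal_iff (by linarith)).mp hg3
    calc ∫ x in Ω, |η x - χ j x * g x| ≤ ∫ x in Ω, ((1 - χ j x) * |η x| + |η x - g x|) := by
          apply integral_mono_of_nonneg (Eventually.of_forall fun x => abs_nonneg _) (i1.add i2)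
          filter_upwards with x
          have h4 := hχ4 j x
          have e : η x - χ j x * g x = (1 - χ j x) * η x + χ j x * (η x - g x) := by ring
          change |η x - χ j x * g x| ≤ (1 - χ j x) * |η x| + |η x - g x|
          rw [e]
          refine (abs_add_le _ _).trans ?_
          rw [abs_mul, abs_mul, abs_of_nonneg (by linarith : 0 ≤ 1 - χ j x), abs_of_nonneg h4.1]
          gcongr
          exact mul_le_of_le_one_left (abs_nonneg _) h4.2
      _ = (∫ x in Ω, (1 - χ j x) * |η x|) + ∫ x in Ω, |η x - g x| := integral_add i1 i2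
      _ ≤ ε := by linarith

/-- Weak convergence of the derivatives of a bounded, pointwise convergent sequence with bounded
weak derivatives. -/
lemma weak_deriv {Ω : Set (Eu n)} (hΩ : IsOpen Ω) (hb : Bornology.IsBounded Ω) {v : Eu n}
    {u w : ℕ → Eu n → Eu n} {u0 w0 : Eu n → Eu n} {R K : ℝ}
    (hu : ∀ k, AEStronglyMeasurable (u k) (volume.restrict Ω))
    (huR : ∀ k, ∀ x ∈ Ω, ‖u k x‖ ≤ R)
    (hlim : ∀ x ∈ Ω, Tendsto (fun k => u k x) atTop (𝓝 (u0 x)))
    (hw : ∀ k, AEStronglyMeasurable (w k) (volume.restrict Ω)) (hwK : ∀ k x, ‖w k x‖ ≤ K)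
    (hw0 : AEStronglyMeasurable w0 (volume.restrict Ω)) (hw0K : ∀ x, ‖w0 x‖ ≤ K)
    (hd : ∀ k, ∀ φ : Eu n → ℝ, ContDiff ℝ ((⊤ : ℕ∞) : WithTop ℕ∞) φ → HasCompactSupport φ →
      tsupport φ ⊆ Ω → ∫ x in Ω, (fderiv ℝ φ x v) • u k x = - ∫ x in Ω, φ x • (w k x))
    (hd0 : ∀ φ : Eu n → ℝ, ContDiff ℝ ((⊤ : ℕ∞) : WithTop ℕ∞) φ → HasCompactSupport φ →
      tsupport φ ⊆ Ω → ∫ x in Ω, (fderiv ℝ φ x v) • u0 x = - ∫ x in Ω, φ x • (w0 x))
    {η : Eu n → ℝ} (hη : IntegrableOn η Ω) :
    Tendsto (fun k => ∫ x in Ω, η x • w k x) atTop (𝓝 (∫ x in Ω, η x • w0 x)) := by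
  have hK : 0 ≤ K := (norm_nonneg _).trans (hw0K 0)
  -- the test functions
  have htest : ∀ φ : Eu n → ℝ, ContDiff ℝ ((⊤ : ℕ∞) : WithTop ℕ∞) φ → HasCompactSupport φ →
      tsupport φ ⊆ Ω → Tendsto (fun k => ∫ x in Ω, φ x • w k x) atTop (𝓝 (∫ x in Ω, φ x • w0 x)) := by
    intro φ h1 h2 h3
    have e1 : ∀ k, ∫ x in Ω, φ x • (w k x) = - ∫ x in Ω, (fderiv ℝ φ x v) • u k x := by
      intro k; rw [hd k φ h1 h2 h3, neg_neg]
    have e2 : ∫ x in Ω, φ x • (w0 x) = - ∫ x in Ω, (fderiv ℝ φ x v) • u0 x := by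
      rw [hd0 φ h1 h2 h3, neg_neg]
    simp only [e1, e2]
    apply Tendsto.neg
    have hφ'c : Continuous (fun x => fderiv ℝ φ x v) :=
      (h1.continuous_fderiv (by simp)).clm_apply continuous_const
    have hsupp : HasCompactSupport (fun x => fderiv ℝ φ x v) := h2.fderiv_apply (𝕜 := ℝ) v
    have hint : Integrable (fun x => fderiv ℝ φ x v) (volume.restrict Ω) :=
      (hφ'c.integrable_of_hasCompactSupport hsupp).restrict
    apply tendsto_integral_of_dominated_convergence (fun x => ‖fderiv ℝ φ x v‖ * R)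
    · intro k
      exact hint.1.smul (hu k)
    · exact hint.norm.mul_const R
    · intro k
      filter_upwards [ae_restrict_mem hΩ.measurableSet] with x hx
      rw [norm_smul]
      gcongr
      exact huR k x hx
    · filter_upwards [ae_restrict_mem hΩ.measurableSet] with x hx
      exact (hlim x hx).const_smul _
  rw [Metric.tendsto_atTop]
  intro ε hε
  obtain ⟨φ, h1, h2, h3, h4⟩ := exists_test_near hΩ hb hη (ε := ε / (4 * (K + 1))) (by positivity)
  have hφi : Integrable φ (volume.restrict Ω) :=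
    (h1.continuous.integrable_of_hasCompactSupport h2).restrict
  obtain ⟨N, hN⟩ := (Metric.tendsto_atTop.mp (htest φ h1 h2 h3)) (ε / 4) (by positivity)
  refine ⟨N, fun k hk => ?_⟩
  have hgen : ∀ z : Eu n → Eu n, AEStronglyMeasurable z (volume.restrict Ω) → (∀ x, ‖z x‖ ≤ K) →
      dist (∫ x in Ω, η x • z x) (∫ x in Ω, φ x • z x) ≤ ε / 4 := by
    intro z hz hzK
    have i1 : ∀ g : Eu n → ℝ, Integrable g (volume.restrict Ω) →
        Integrable (fun x => g x • z x) (volume.restrict Ω) := by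
      intro g hg
      refine Integrable.mono' (hg.norm.mul_const K) (hg.1.smul hz) ?_
      filter_upwards with x
      rw [norm_smul]
      gcongr
      exact hzK x
    rw [dist_eq_norm, ← integral_sub (i1 η hη) (i1 φ hφi)]
    calc ‖∫ x in Ω, (η x • z x - φ x • z x)‖ ≤ ∫ x in Ω, |η x - φ x| * K := by
          apply norm_integral_le_of_norm_le ((hη.sub hφi).norm.mul_const K)
          filter_upwards with x
          rw [← sub_smul, norm_smul, Real.norm_eq_abs]
          exact mul_le_mul_of_nonneg_left (hzK x) (abs_nonneg _)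
      _ = (∫ x in Ω, |η x - φ x|) * K := integral_mul_const _ _
      _ ≤ ε / (4 * (K + 1)) * (K + 1) := by
          gcongr
          linarith
      _ = ε / 4 := by field_simp
  have g1 := hgen (w k) (hw k) (hwK k)
  have g2 := hgen w0 hw0 hw0K
  have g3 := hN k hk
  calc dist (∫ x in Ω, η x • w k x) (∫ x in Ω, η x • w0 x)
      ≤ dist (∫ x in Ω, η x • w k x) (∫ x in Ω, φ x • w k x) +
        dist (∫ x in Ω, φ x • w k x) (∫ x in Ω, φ x • w0 x) +
        dist (∫ x in Ω, φ x • w0 x) (∫ x in Ω, η x • w0 x) := dist_triangle4 _ _ _ _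
    _ < ε := by
        rw [dist_comm (∫ x in Ω, φ x • w0 x)]
        linarith

/-- from scalar weights to vector weights -/
lemma weakLp_of_scalar {Ω : Set (Eu n)} {p : ℝ≥0∞} (hfin : volume Ω < ⊤)
    {w : ℕ → Eu n → Eu n} {w0 : Eu n → Eu n} {K : ℝ}
    (hw : ∀ k, AEStronglyMeasurable (w k) (volume.restrict Ω))
    (hwK : ∀ k, ∀ᵐ x ∂(volume.restrict Ω), ‖w k x‖ ≤ K)
    (hw0 : AEStronglyMeasurable w0 (volume.restrict Ω))
    (hw0K : ∀ᵐ x ∂(volume.restrict Ω), ‖w0 x‖ ≤ K)
    (h : ∀ η : Eu n → ℝ, IntegrableOn η Ω →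
      Tendsto (fun k => ∫ x in Ω, η x • w k x) atTop (𝓝 (∫ x in Ω, η x • w0 x))) :
    WeakLp p Ω w w0 := by
  intro q hq g hg
  have hfin' : IsFiniteMeasure (volume.restrict Ω : Measure (Eu n)) := ⟨by simpa using hfin⟩
  have hq1 : 1 ≤ q := by
    by_contra hcon
    push Not at hcon
    have h1 : 1 < q⁻¹ := ENNReal.one_lt_inv.mpr hcon
    have h2 : q⁻¹ ≤ p⁻¹ + q⁻¹ := le_add_self
    rw [hq] at h2
    exact absurd h1 (not_lt.mpr h2)
  have hg1 : Integrable g (volume.restrict Ω) := hg.integrable hq1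
  have hgi : ∀ i, IntegrableOn (fun x => g x i) Ω := by
    intro i
    exact (EuclideanSpace.proj i : Eu n →L[ℝ] ℝ).integrable_comp hg1
  have i1 : ∀ (η : Eu n → ℝ) (z : Eu n → Eu n), IntegrableOn η Ω →
      AEStronglyMeasurable z (volume.restrict Ω) → (∀ᵐ x ∂(volume.restrict Ω), ‖z x‖ ≤ K) →
      Integrable (fun x => η x • z x) (volume.restrict Ω) := by
    intro η z hη hz hzK
    refine Integrable.mono' (hη.norm.mul_const K) (hη.1.smul hz) ?_
    filter_upwards [hzK] with x hx
    rw [norm_smul]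
    gcongr
  have e : ∀ z : Eu n → Eu n, AEStronglyMeasurable z (volume.restrict Ω) →
      (∀ᵐ x ∂(volume.restrict Ω), ‖z x‖ ≤ K) →
      ∫ x in Ω, ⟪g x, z x⟫_ℝ = ∑ i, (∫ x in Ω, (g x i) • z x) i := by
    intro z hz hzK
    have e1 : ∀ x, ⟪g x, z x⟫_ℝ = ∑ i, ((g x i) • z x) i := by
      intro x
      simp [PiLp.inner_apply, mul_comm]
    simp only [e1]
    rw [integral_finsetSum]
    · apply Finset.sum_congr rfl
      intro i _
      rw [integral_coord (i1 _ z (hgi i) hz hzK)]
    · intro i _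
      exact (EuclideanSpace.proj i : Eu n →L[ℝ] ℝ).integrable_comp (i1 _ z (hgi i) hz hzK)
  rw [e w0 hw0 hw0K]
  have e2 : ∀ k, ∫ x in Ω, ⟪g x, w k x⟫_ℝ = ∑ i, (∫ x in Ω, (g x i) • w k x) i :=
    fun k => e (w k) (hw k) (hwK k)
  simp only [e2]
  apply tendsto_finsetSum
  intro i _
  exact ((EuclideanSpace.proj i : Eu n →L[ℝ] ℝ).continuous.tendsto _).comp (h _ (hgi i))

end

end Pool.Agent.L5helper85.Sob
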