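import Pool.Agent.L5helper85.CombDom
import Pool.Agent.L5helper85.SobLip

/-!
# The limit map of the comb is a weak limit of homeomorphisms
-/

set_option autoImplicit false

open MeasureTheory Set Filter Topology Metric
open scoped ENNReal NNReal InnerProductSpace

namespace Pool.Agent.L5helper85.Comb

open Pool.Agent.L5helper85.Sob

noncomputable section

variable {m : ℕ}

lemma Fc_tendsto {x : Eu (m + 2)} (hx : x ∈ Om m) :
    Tendsto (fun k : ℕ => Fc ((1 / 2) ^ k) x) atTop (𝓝 (Fc 0 x)) := by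
  have h1 := Om.x1 hx
  have h2 := tendsto_psi (x 1)
  have h3 := tendsto_Z (hx.2.2.imp_left le_of_lt) h1.1 h1.2
  unfold Fc chg
  exact tendsto_const_nhds.add (((h2.add h3).sub_const _).smul_const _)

lemma Fc_bound (m : ℕ) : ∃ R : ℝ, ∀ c : ℝ, Adm c → ∀ x ∈ Om m, ‖Fc c x‖ ≤ R := by
  obtain ⟨R, hR⟩ := isBounded_iff_forall_norm_le.mp (Om_bdd (m := m))
  refine ⟨R + 3, fun c hc x hx => ?_⟩
  have hb := hc.bounds
  have h1 := Om.x1 hx
  have hp0 := psi_nonneg hb.1 h1.1
  have hp1 := psi_lt_one hb.2 h1.1 h1.2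
  have hZ0 := Z_nonneg (x 0) (psi c (x 1))
  have hZ1 := Z_le (x 0) (psi c (x 1))
  have hl : lam (psi c (x 1)) ≤ 2 := by
    rcases hp0.eq_or_lt with h | h
    · rw [lam_of_nonpos h.symm.le]; norm_num
    · linarith [lam_lt h]
  unfold Fc chg
  calc ‖x + (psi c (x 1) + Z (x 0) (psi c (x 1)) - x 1) • e1 m‖
      ≤ ‖x‖ + ‖(psi c (x 1) + Z (x 0) (psi c (x 1)) - x 1) • e1 m‖ := norm_add_le _ _
    _ = ‖x‖ + |psi c (x 1) + Z (x 0) (psi c (x 1)) - x 1| := by
        rw [norm_smul, norm_e1, mul_one, Real.norm_eq_abs]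
    _ ≤ R + 3 := by
        have h4 : |psi c (x 1) + Z (x 0) (psi c (x 1)) - x 1| ≤ 3 := by
          rw [abs_le]; constructor <;> linarith [h1.1, h1.2]
        linarith [hR x hx]

lemma vol_Om_lt : volume (Om m) < ⊤ := Om_bdd.measure_lt_top

lemma weak_part (p : ℝ≥0∞) : Fc 0 ∈ weakClosure p (Om m) (Om' m) := by
  obtain ⟨R, hR⟩ := Fc_bound m
  obtain ⟨K, hK⟩ := exists_sobolev_of_lip (m + 2) 115
  have hex : ∀ c, Adm c → ∃ Df : Eu (m + 2) → (Eu (m + 2) →L[ℝ] Eu (m + 2)),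
      (∀ p, IsSobolev p (Om m) (Fc c) Df) ∧ (∀ x, ‖Df x‖ ≤ K) ∧ Measurable Df := fun c hc =>
    hK (Om m) (Fc c) R Om_open vol_Om_lt (hR c hc) (Fc_lipOn hc)
  have hadm : ∀ k : ℕ, Adm ((1 / 2) ^ k) := fun k => Or.inr ⟨k, rfl⟩
  obtain ⟨D0, hD0, hD0K, hD0m⟩ := hex 0 (Or.inl rfl)
  choose D hD hDK hDm using fun k : ℕ => hex ((1 / 2) ^ k) (hadm k)
  have hmeas : ∀ c, Adm c → AEStronglyMeasurable (Fc c) (volume.restrict (Om m)) := fun c hc =>
    (Fc_cont hc).aestronglyMeasurable Om_open.measurableSet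
  have hae : ∀ᵐ x ∂((volume : Measure (Eu (m + 2))).restrict (Om m)), x ∈ Om m :=
    ae_restrict_mem Om_open.measurableSet
  refine ⟨?_, D0, fun k => Fc ((1 / 2) ^ k), D, hD0 p, fun k => ⟨Fc_homeo k, hD k p⟩, ?_, ?_⟩
  · filter_upwards [hae] with x hx
    exact mem_closure_of_tendsto (Fc_tendsto hx) (Eventually.of_forall fun k => Fc_maps k hx)
  · apply weakLp_of_scalar (K := R) vol_Om_lt (fun k => hmeas _ (hadm k))
      (fun k => hae.mono fun x hx => hR _ (hadm k) x hx) (hmeas 0 (Or.inl rfl))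
      (hae.mono fun x hx => hR 0 (Or.inl rfl) x hx)
    intro η hη
    apply tendsto_integral_of_dominated_convergence (fun x => ‖η x‖ * R)
    · intro k
      exact hη.1.smul (hmeas _ (hadm k))
    · exact hη.norm.mul_const R
    · intro k
      filter_upwards [hae] with x hx
      rw [norm_smul]
      gcongr
      exact hR _ (hadm k) x hx
    · filter_upwards [hae] with x hx
      exact (Fc_tendsto hx).const_smul _
  · intro v
    have hv : ∀ (L : Eu (m + 2) →L[ℝ] Eu (m + 2)), ‖L‖ ≤ K → ‖L v‖ ≤ K * ‖v‖ := by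
      intro L hL
      refine (ContinuousLinearMap.le_opNorm _ _).trans ?_
      gcongr
    have hma : ∀ (G : Eu (m + 2) → (Eu (m + 2) →L[ℝ] Eu (m + 2))), Measurable G →
        AEStronglyMeasurable (fun x => G x v) (volume.restrict (Om m)) := fun G hG =>
      (hG.aestronglyMeasurable).apply_continuousLinearMap v
    apply weakLp_of_scalar (K := K * ‖v‖) vol_Om_lt (fun k => hma _ (hDm k))
      (fun k => Eventually.of_forall fun x => hv _ (hDK k x)) (hma _ hD0m)
      (Eventually.of_forall fun x => hv _ (hD0K x))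
    intro η hη
    exact weak_deriv (v := v) Om_open Om_bdd (fun k => hmeas _ (hadm k))
      (fun k => hR _ (hadm k)) (fun x hx => Fc_tendsto hx) (fun k => hma _ (hDm k))
      (fun k x => hv _ (hDK k x)) (hma _ hD0m) (fun x => hv _ (hD0K x))
      (fun k φ h1 h2 h3 => (hD k 1).2.2 φ h1 h2 h3 v)
      (fun φ h1 h2 h3 => (hD0 1).2.2 φ h1 h2 h3 v) hη

end

end Pool.Agent.L5helper85.Comb
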