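import Pool.Agent.L5helper85.SobDefs
import Pool.Agent.Results.MP_fc472d_an.ShellWeakNotStrong

/-!
# The product of a spherical shell and a ball
-/

set_option autoImplicit false

open MeasureTheory Set Filter Topology Metric
open scoped ENNReal NNReal InnerProductSpace

namespace Pool.Agent.L5helper85.Tube

open Pool.Agent.L5helper85.Sob
open Pool.Agent.Results.MP_fc472d_an.ShellWeakNotStrong (shell)

noncomputable section

variable {m q : ℕ}

/-- The set of the points `(y, z) ∈ ℝ^(m+1) × ℝ^q` with `1 < |y| < 2` and `|z| < 1`. -/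
def tube (m q : ℕ) : Set (Eu (m + 1 + q)) :=
  {x | 1 < ∑ i : Fin (m + 1), x (Fin.castAdd q i) ^ 2 ∧
    ∑ i : Fin (m + 1), x (Fin.castAdd q i) ^ 2 < 4 ∧
    ∑ j : Fin q, x (Fin.natAdd (m + 1) j) ^ 2 < 1}

/-- the projection on the first coordinates -/
def pr (m q : ℕ) : Eu (m + 1 + q) →L[ℝ] Eu (m + 1) :=
  LinearMap.toContinuousLinearMap
    { toFun := fun x => WithLp.toLp 2 (fun i => x (Fin.castAdd q i))
      map_add' := by intro x y; ext i; simp
      map_smul' := by intro c x; ext i; simp }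

/-- the inclusion -/
def inc (m q : ℕ) : Eu (m + 1) →L[ℝ] Eu (m + 1 + q) :=
  LinearMap.toContinuousLinearMap
    { toFun := fun y => WithLp.toLp 2 (Fin.addCases (fun i => y i) (fun _ => 0))
      map_add' := by
        intro x y; ext i
        refine Fin.addCases (fun i => ?_) (fun i => ?_) i <;> simp
      map_smul' := by
        intro c x; ext i
        refine Fin.addCases (fun i => ?_) (fun i => ?_) i <;> simp }

@[simp] lemma pr_apply (x : Eu (m + 1 + q)) (i : Fin (m + 1)) :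
    (pr m q x) i = x (Fin.castAdd q i) := rfl

@[simp] lemma inc_castAdd (y : Eu (m + 1)) (i : Fin (m + 1)) :
    (inc m q y) (Fin.castAdd q i) = y i := by
  simp [inc]

@[simp] lemma inc_natAdd (y : Eu (m + 1)) (i : Fin q) :
    (inc m q y) (Fin.natAdd (m + 1) i) = 0 := by
  simp [inc]

@[simp] lemma pr_inc (y : Eu (m + 1)) : pr m q (inc m q y) = y := by
  ext i; simp

lemma norm_inc (y : Eu (m + 1)) : ‖inc m q y‖ = ‖y‖ := by
  rw [EuclideanSpace.norm_eq, EuclideanSpace.norm_eq, Fin.sum_univ_add]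
  simp

lemma norm_pr_sq (x : Eu (m + 1 + q)) :
    ‖pr m q x‖ ^ 2 = ∑ i : Fin (m + 1), x (Fin.castAdd q i) ^ 2 := by
  rw [EuclideanSpace.norm_sq_eq]
  simp

lemma norm_rest_sq (x : Eu (m + 1 + q)) :
    ‖x - inc m q (pr m q x)‖ ^ 2 = ∑ j : Fin q, x (Fin.natAdd (m + 1) j) ^ 2 := by
  rw [EuclideanSpace.norm_sq_eq, Fin.sum_univ_add]
  simp

lemma norm_sq_split (x : Eu (m + 1 + q)) :
    ‖x‖ ^ 2 = ‖pr m q x‖ ^ 2 + ‖x - inc m q (pr m q x)‖ ^ 2 := by
  rw [norm_pr_sq, norm_rest_sq, EuclideanSpace.norm_sq_eq, Fin.sum_univ_add]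
  simp

lemma norm_pr_le (x : Eu (m + 1 + q)) : ‖pr m q x‖ ≤ ‖x‖ := by
  have h := norm_sq_split x
  have h2 := sq_nonneg ‖x - inc m q (pr m q x)‖
  exact le_of_sq_le_sq (by linarith) (norm_nonneg _)

lemma norm_rest_le (x : Eu (m + 1 + q)) : ‖x - inc m q (pr m q x)‖ ≤ ‖x‖ := by
  have h := norm_sq_split x
  have h2 := sq_nonneg ‖pr m q x‖
  exact le_of_sq_le_sq (by linarith) (norm_nonneg _)

lemma mem_tube {x : Eu (m + 1 + q)} :
    x ∈ tube m q ↔ pr m q x ∈ shell (m + 1) ∧ ‖x - inc m q (pr m q x)‖ < 1 := by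
  have h1 := norm_pr_sq x
  have h2 := norm_rest_sq x
  have p1 := norm_nonneg (pr m q x)
  have p2 := norm_nonneg (x - inc m q (pr m q x))
  simp only [tube, shell, mem_ofPred_eq, ← h1, ← h2]
  constructor
  · rintro ⟨a, b, c⟩
    refine ⟨⟨?_, ?_⟩, ?_⟩ <;> nlinarith
  · rintro ⟨⟨a, b⟩, c⟩
    refine ⟨?_, ?_, ?_⟩ <;> nlinarith

lemma tube_open : IsOpen (tube m q) := by
  have e : tube m q = {x | 1 < ∑ i : Fin (m + 1), x (Fin.castAdd q i) ^ 2} ∩
    ({x | ∑ i : Fin (m + 1), x (Fin.castAdd q i) ^ 2 < 4} ∩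
    {x | ∑ j : Fin q, x (Fin.natAdd (m + 1) j) ^ 2 < 1}) := by
    ext x; simp [tube]
  rw [e]
  refine IsOpen.inter ?_ (IsOpen.inter ?_ ?_)
  · exact isOpen_lt continuous_const (by fun_prop)
  · exact isOpen_lt (by fun_prop) continuous_const
  · exact isOpen_lt (by fun_prop) continuous_const

lemma tube_bdd : Bornology.IsBounded (tube m q) := by
  rw [isBounded_iff_forall_norm_le]
  refine ⟨3, fun x hx => ?_⟩
  have h := norm_sq_split x
  obtain ⟨h1, h2⟩ := mem_tube.mp hx
  have p1 := norm_nonneg (pr m q x)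
  have p2 := norm_nonneg (x - inc m q (pr m q x))
  have p3 := norm_nonneg x
  have h3 := h1.2
  nlinarith

lemma vol_tube_lt : volume (tube m q) < ⊤ := tube_bdd.measure_lt_top

lemma tube_conn (hm : 1 ≤ m) : IsConnected (tube m q) := by
  have h1 : IsPreconnected (shell (m + 1)) :=
    Pool.Agent.Results.MP_fc472d_an.ShellWeakNotStrong.preconn_shell (by omega) 1 2 (by norm_num)
  have h2 : IsPreconnected (ball (0 : Eu q) 1) := (convex_ball _ _).isPreconnected
  set j : Eu (m + 1) × Eu q → Eu (m + 1 + q) := fun w =>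
    WithLp.toLp 2 (Fin.addCases (fun i => w.1 i) (fun i => w.2 i)) with hj
  have hjc : Continuous j := by
    rw [hj]
    apply (PiLp.continuous_toLp 2 _).comp
    apply continuous_pi
    intro i
    refine Fin.addCases (fun i => ?_) (fun i => ?_) i
    · simp only [Fin.addCases_left]; fun_prop
    · simp only [Fin.addCases_right]; fun_prop
  have e : tube m q = j '' (shell (m + 1) ×ˢ ball (0 : Eu q) 1) := by
    ext x
    constructor
    · intro hx
      obtain ⟨h1, h2⟩ := mem_tube.mp hx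
      refine ⟨⟨pr m q x, WithLp.toLp 2 (fun i => x (Fin.natAdd (m + 1) i))⟩, ⟨h1, ?_⟩, ?_⟩
      · rw [mem_ball_zero_iff]
        have h3 := norm_rest_sq x
        have h4 : ‖(WithLp.toLp 2 (fun i => x (Fin.natAdd (m + 1) i)) : Eu q)‖ ^ 2 =
            ∑ j : Fin q, x (Fin.natAdd (m + 1) j) ^ 2 := by
          rw [EuclideanSpace.norm_sq_eq]; simp
        have p2 := norm_nonneg (x - inc m q (pr m q x))
        have p3 := norm_nonneg (WithLp.toLp 2 (fun i => x (Fin.natAdd (m + 1) i)) : Eu q)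
        simp only
        nlinarith
      · ext i
        refine Fin.addCases (fun i => ?_) (fun i => ?_) i <;> simp [hj]
    · rintro ⟨⟨y, z⟩, ⟨hy, hz⟩, rfl⟩
      rw [mem_ball_zero_iff] at hz
      have e1 : ∑ i : Fin (m + 1), (j (y, z)) (Fin.castAdd q i) ^ 2 = ‖y‖ ^ 2 := by
        rw [EuclideanSpace.norm_sq_eq]; simp [hj]
      have e2 : ∑ i : Fin q, (j (y, z)) (Fin.natAdd (m + 1) i) ^ 2 = ‖z‖ ^ 2 := by
        rw [EuclideanSpace.norm_sq_eq]; simp [hj]
      simp only [tube, mem_ofPred_eq, e1, e2]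
      have p1 := norm_nonneg y
      have p2 := norm_nonneg z
      obtain ⟨a, b⟩ := hy
      simp only at a b hz
      refine ⟨?_, ?_, ?_⟩ <;> nlinarith
  rw [e]
  refine ⟨Set.Nonempty.image j ⟨((EuclideanSpace.single 0 (3/2 : ℝ) : Eu (m + 1)), 0), ?_⟩,
    (h1.prod h2).image _ hjc.continuousOn⟩
  refine ⟨?_, by simp⟩
  simp only [shell, mem_ofPred_eq, PiLp.norm_single]
  norm_num

end

end Pool.Agent.L5helper85.Tube
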