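import Pool.Agent.L5helper85.TubeDefs
import Pool.Agent.L5helper85.SobMoll

/-!
# Mollification in `L^p` and selection of a good slice
-/

set_option autoImplicit false

open MeasureTheory Set Filter Topology Metric
open scoped ENNReal NNReal InnerProductSpace

namespace Pool.Agent.L5helper85.Tube

open Pool.Agent.L5helper85.Sob

noncomputable section

lemma add_pow_le_two (a b : ℝ≥0∞) (p : ℕ) : (a + b) ^ p ≤ 2 ^ p * (a ^ p + b ^ p) := by
  rcases le_total a b with h | h
  · calc (a + b) ^ p ≤ (2 * b) ^ p := by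
          gcongr; rw [two_mul]; gcongr
      _ = 2 ^ p * b ^ p := mul_pow _ _ _
      _ ≤ _ := by gcongr; exact le_add_self
  · calc (a + b) ^ p ≤ (2 * a) ^ p := by
          gcongr; rw [two_mul]; gcongr
      _ = 2 ^ p * a ^ p := mul_pow _ _ _
      _ ≤ _ := by gcongr; exact le_self_add

/-- Jensen's inequality for a measure of total mass at most one -/
lemma jensen_pow {α : Type*} {mα : MeasurableSpace α} {ν : Measure α} (hν : ν univ ≤ 1)
    {g : α → ℝ≥0∞} (hg : AEMeasurable g ν) {p : ℕ} (hp : 1 ≤ p) :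
    (∫⁻ x, g x ∂ν) ^ p ≤ ∫⁻ x, g x ^ p ∂ν := by
  rcases eq_or_lt_of_le hp with h | h
  · rw [← h]; simp
  · have hp1 : (1 : ℝ) < p := by exact_mod_cast h
    set c : ℝ := Real.conjExponent (p : ℝ) with hc
    have hpq : (p : ℝ).HolderConjugate c := Real.HolderConjugate.conjExponent hp1
    have h1 := ENNReal.lintegral_mul_le_Lp_mul_Lq ν hpq hg
      (aemeasurable_const (b := (1 : ℝ≥0∞)))
    simp only [Pi.mul_apply, mul_one, ENNReal.one_rpow, lintegral_const, one_mul,
      ENNReal.rpow_natCast] at h1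
    have h2 : (ν univ) ^ (1 / c) ≤ 1 := by
      apply ENNReal.rpow_le_one hν
      have := hpq.symm.pos
      positivity
    have h3 : ∫⁻ x, g x ∂ν ≤ (∫⁻ x, g x ^ p ∂ν) ^ (1 / (p : ℝ)) := by
      refine h1.trans ?_
      calc _ ≤ (∫⁻ x, g x ^ p ∂ν) ^ (1 / (p : ℝ)) * 1 := by gcongr
        _ = _ := mul_one _
    calc (∫⁻ x, g x ∂ν) ^ p ≤ ((∫⁻ x, g x ^ p ∂ν) ^ (1 / (p : ℝ))) ^ p := by gcongr
      _ = ∫⁻ x, g x ^ p ∂ν := by
          rw [← ENNReal.rpow_natCast, ← ENNReal.rpow_mul]
          have : (1 / (p : ℝ)) * p = 1 := by field_simp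
          rw [this, ENNReal.rpow_one]

variable {n : ℕ}

/-- the `L^p` average near a point -/
def avg (b : ContDiffBump (0 : Eu n)) (Ω : Set (Eu n)) (h : Eu n → ℝ≥0∞) (X : Eu n) : ℝ≥0∞ :=
  ∫⁻ Y in Ω, ‖b.normed volume (X - Y)‖ₑ * h Y

lemma avg_measurable (b : ContDiffBump (0 : Eu n)) (Ω : Set (Eu n)) {h : Eu n → ℝ≥0∞}
    (hh : Measurable h) : Measurable (avg b Ω h) := by
  unfold avg
  have h1 : Measurable (fun p : Eu n × Eu n => ‖b.normed volume (p.1 - p.2)‖ₑ * h p.2) :=
    ((b.continuous_normed.comp (continuous_fst.sub continuous_snd)).measurable.enorm).mul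
      (hh.comp measurable_snd)
  exact h1.lintegral_prod_right'

lemma lintegral_normed' (b : ContDiffBump (0 : Eu n)) (X : Eu n) :
    ∫⁻ Y, ‖b.normed volume (X - Y)‖ₑ = 1 := by
  have := lintegral_sub_left_eq_self (fun x => ‖b.normed (volume : Measure (Eu n)) x‖ₑ) X
    (μ := (volume : Measure (Eu n)))
  rw [this]
  have h2 := lintegral_normed b 0
  simpa using h2

lemma avg_pow_le (b : ContDiffBump (0 : Eu n)) (Ω : Set (Eu n)) {h : Eu n → ℝ≥0∞}
    (hh : Measurable h) {p : ℕ} (hp : 1 ≤ p) (X : Eu n) :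
    (avg b Ω h X) ^ p ≤ avg b Ω (fun Y => h Y ^ p) X := by
  have hm : Measurable (fun Y => ‖b.normed (volume : Measure (Eu n)) (X - Y)‖ₑ) :=
    (b.continuous_normed.comp (continuous_const.sub continuous_id)).measurable.enorm
  set ν : Measure (Eu n) := (volume.restrict Ω).withDensity
    (fun Y => ‖b.normed (volume : Measure (Eu n)) (X - Y)‖ₑ) with hν
  have h1 : ν univ ≤ 1 := by
    rw [hν, withDensity_apply _ MeasurableSet.univ, Measure.restrict_univ]
    exact (setLIntegral_le_lintegral _ _).trans (lintegral_normed' b X).le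
  have h2 : ∀ g : Eu n → ℝ≥0∞, Measurable g → ∫⁻ Y, g Y ∂ν = avg b Ω g X := by
    intro g hg
    rw [hν, lintegral_withDensity_eq_lintegral_mul _ hm hg]
    rfl
  have h3 := jensen_pow h1 hh.aemeasurable hp
  rwa [h2 h hh, h2 _ (hh.pow_const p)] at h3

lemma lintegral_avg_le (b : ContDiffBump (0 : Eu n)) (Ω : Set (Eu n)) {h : Eu n → ℝ≥0∞}
    (hh : Measurable h) : ∫⁻ X, avg b Ω h X ≤ ∫⁻ Y in Ω, h Y := by
  unfold avg
  have h1 : Measurable (fun p : Eu n × Eu n => ‖b.normed volume (p.1 - p.2)‖ₑ * h p.2) :=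
    ((b.continuous_normed.comp (continuous_fst.sub continuous_snd)).measurable.enorm).mul
      (hh.comp measurable_snd)
  rw [lintegral_lintegral_swap h1.aemeasurable]
  apply lintegral_mono
  intro Y
  simp only
  rw [lintegral_mul_const]
  · rw [lintegral_normed, one_mul]
  · exact ((b.continuous_normed.comp (continuous_id.sub continuous_const)).measurable.enorm)

variable {m q : ℕ}

/-- selection of a slice -/
lemma exists_slice {N : Eu (m + 1 + q) → ℝ≥0∞} (hN : Measurable N) {Q : Set (Eu (m + 1 + q))}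
    (h0 : volume Q ≠ 0) (h1 : volume Q ≠ ⊤) (A : Set (Eu (m + 1))) :
    ∃ x ∈ Q, (∫⁻ y in A, N (x + inc m q y)) * volume Q ≤ volume A * ∫⁻ X, N X := by
  have hprod : Measurable (fun p : Eu (m + 1 + q) × Eu (m + 1) => N (p.1 + inc m q p.2)) :=
    hN.comp (measurable_fst.add ((inc m q).continuous.measurable.comp measurable_snd))
  have hm : Measurable (fun x => ∫⁻ y in A, N (x + inc m q y)) := hprod.lintegral_prod_right'
  obtain ⟨x, hx, hx2⟩ := exists_le_setLAverage (μ := (volume : Measure (Eu (m + 1 + q)))) (s := Q)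
    (f := fun x => ∫⁻ y in A, N (x + inc m q y)) h0 h1 hm.aemeasurable
  refine ⟨x, hx, ?_⟩
  rw [setLAverage_eq] at hx2
  have h3 : (∫⁻ y in A, N (x + inc m q y)) * volume Q ≤
      ∫⁻ x in Q, ∫⁻ y in A, N (x + inc m q y) := by
    rwa [← ENNReal.le_div_iff_mul_le (Or.inl h0) (Or.inl h1)]
  refine h3.trans ?_
  rw [lintegral_lintegral_swap hprod.aemeasurable]
  calc ∫⁻ y in A, ∫⁻ x in Q, N (x + inc m q y) ≤ ∫⁻ y in A, ∫⁻ X, N X := by
        apply lintegral_mono
        intro y
        simp only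
        refine (setLIntegral_le_lintegral _ _).trans ?_
        rw [lintegral_add_right_eq_self]
    _ = volume A * ∫⁻ X, N X := by
        rw [lintegral_const, Measure.restrict_apply_univ, mul_comm]

end

end Pool.Agent.L5helper85.Tube
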