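import Pool.Agent.L5helper85.TubeTop
import Pool.Agent.L5helper85.TubeSlice

/-!
# Every homeomorphism of the tube is far from the collapsing map in `W^{1,m}`
-/

set_option autoImplicit false

open MeasureTheory Set Filter Topology Metric
open scoped ENNReal NNReal InnerProductSpace

namespace Pool.Agent.L5helper85.Tube

open Pool.Agent.L5helper85.Sob
open Pool.Agent.Results.MP_fc472d_an.ShellWeakNotStrong (shell dlim e0 nder nder_apply det_bound
  hasFDerivAt_nrm hasFDerivAt_unit norm_unitvec)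

noncomputable section

variable {m q : ℕ}

/-- the differential of the collapsing map `(y, z) ↦ (|y| e, z)` -/
def dl (m q : ℕ) (x : Eu (m + 1 + q)) : Eu (m + 1 + q) →L[ℝ] Eu (m + 1 + q) :=
  ContinuousLinearMap.id ℝ _ + (inc m q) ∘L ((dlim m (pr m q x)) ∘L (pr m q) - pr m q)

lemma dl_inc (x : Eu (m + 1 + q)) (v : Eu (m + 1)) :
    dl m q x (inc m q v) = inc m q (dlim m (pr m q x) v) := by
  simp only [dl, add_apply, ContinuousLinearMap.id_apply, ContinuousLinearMap.comp_apply,
    sub_apply, pr_inc, map_sub]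
  abel

lemma dlim_apply (y v : Eu (m + 1)) : dlim m y v = ⟪‖y‖⁻¹ • y, v⟫_ℝ • e0 m := by
  have hin : ‖y‖⁻¹ • (innerSL ℝ y) v = ⟪‖y‖⁻¹ • y, v⟫_ℝ := by
    simp [inner_smul_left]
  rw [← hin]; rfl

lemma unit_close {a b : Eu (m + 1)} (ha : a ≠ 0) (hb : b ≠ 0) :
    ‖‖a‖⁻¹ • a - ‖b‖⁻¹ • b‖ ≤ 2 * ‖a - b‖ / ‖b‖ := by
  have ha' : ‖a‖ ≠ 0 := norm_ne_zero_iff.mpr ha
  have hb' : ‖b‖ ≠ 0 := norm_ne_zero_iff.mpr hb
  have hbp : 0 < ‖b‖ := norm_pos_iff.mpr hb
  have e : ‖a‖⁻¹ • a - ‖b‖⁻¹ • b = ‖b‖⁻¹ • ((a - b) + (‖b‖ - ‖a‖) • (‖a‖⁻¹ • a)) := by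
    have e1 : ‖b‖⁻¹ • ((a - b) + (‖b‖ - ‖a‖) • (‖a‖⁻¹ • a)) =
        (‖b‖⁻¹ * (1 + (‖b‖ - ‖a‖) * ‖a‖⁻¹)) • a - ‖b‖⁻¹ • b := by module
    rw [e1]
    congr 2
    field_simp
    ring
  rw [e, norm_smul, norm_inv, norm_norm, div_eq_inv_mul]
  gcongr
  refine (norm_add_le _ _).trans ?_
  rw [norm_smul, norm_unitvec ha, mul_one, Real.norm_eq_abs]
  have := abs_norm_sub_norm_le b a
  rw [norm_sub_rev b a] at this
  linarith

lemma dl_small {x Y : Eu (m + 1 + q)} {y v : Eu (m + 1)} {δ : ℝ} (hx : ‖x‖ ≤ δ)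
    (hy : 1 ≤ ‖y‖) (hY : ‖Y - (x + inc m q y)‖ ≤ δ) (hYt : pr m q Y ≠ 0)
    (hv : ⟪‖y‖⁻¹ • y, v⟫_ℝ = 0) : ‖dl m q Y (inc m q v)‖ ≤ 4 * δ * ‖v‖ := by
  have hy0 : y ≠ 0 := by
    rintro rfl; rw [norm_zero] at hy; linarith
  rw [dl_inc, norm_inc, dlim_apply, norm_smul, Pool.Agent.Results.MP_fc472d_an.ShellWeakNotStrong.norm_e0,
    mul_one, Real.norm_eq_abs]
  have e : ⟪‖pr m q Y‖⁻¹ • pr m q Y, v⟫_ℝ =
      ⟪‖pr m q Y‖⁻¹ • pr m q Y - ‖y‖⁻¹ • y, v⟫_ℝ := by
    rw [inner_sub_left, hv, sub_zero]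
  rw [e]
  refine (abs_real_inner_le_norm _ _).trans ?_
  gcongr
  refine (unit_close hYt hy0).trans ?_
  have h1 : ‖pr m q Y - y‖ ≤ 2 * δ := by
    have e2 : pr m q Y - y = pr m q (Y - (x + inc m q y)) + pr m q x := by
      rw [map_sub, map_add, pr_inc]; abel
    rw [e2]
    refine (norm_add_le _ _).trans ?_
    have := norm_pr_le (Y - (x + inc m q y))
    have := norm_pr_le x
    linarith
  rw [div_le_iff₀ (by linarith)]
  have : 0 ≤ δ := (norm_nonneg _).trans hx
  nlinarith [norm_nonneg (pr m q Y - y)]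

/-- the bound for the tangential derivative of the mollified map -/
lemma fderiv_bound {b : ContDiffBump (0 : Eu (m + 1 + q))} {F : Eu (m + 1 + q) → Eu (m + 1 + q)}
    {DF : Eu (m + 1 + q) → (Eu (m + 1 + q) →L[ℝ] Eu (m + 1 + q))}
    (hFi : IntegrableOn F (tube m q)) (hD : IsWeakDiff (tube m q) F DF)
    {h : Eu (m + 1 + q) → ℝ≥0∞} (hh : Measurable h)
    (hhD : ∀ᵐ Y ∂(volume.restrict (tube m q)), ‖DF Y - dl m q Y‖ₑ = h Y)
    {x : Eu (m + 1 + q)} {y v : Eu (m + 1)} {δ : ℝ} (hx : ‖x‖ ≤ δ) (hbδ : b.rOut ≤ δ)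
    (hy : 1 ≤ ‖y‖) (hball : closedBall (x + inc m q y) b.rOut ⊆ tube m q)
    (hv : ⟪‖y‖⁻¹ • y, v⟫_ℝ = 0) :
    ‖fderiv ℝ (moll b (tube m q) F) (x + inc m q y) (inc m q v)‖ₑ ≤
      (avg b (tube m q) h (x + inc m q y) + ENNReal.ofReal (4 * δ)) * ‖v‖ₑ := by
  have hms : MeasurableSet (tube m q) := tube_open.measurableSet
  have hδ : 0 ≤ δ := (norm_nonneg _).trans hx
  set X := x + inc m q y with hX
  rw [moll_fderiv hFi hms hD hball]
  have hφm : Measurable (fun Y => ‖b.normed (volume : Measure (Eu (m + 1 + q))) (X - Y)‖ₑ) :=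
    (b.continuous_normed.comp (continuous_const.sub continuous_id)).measurable.enorm
  calc ‖∫ Y in tube m q, b.normed volume (X - Y) • DF Y (inc m q v)‖ₑ
      ≤ ∫⁻ Y in tube m q, ‖b.normed volume (X - Y) • DF Y (inc m q v)‖ₑ :=
        enorm_integral_le_lintegral_enorm _
    _ ≤ ∫⁻ Y in tube m q, (‖b.normed volume (X - Y)‖ₑ * h Y +
          ‖b.normed volume (X - Y)‖ₑ * ENNReal.ofReal (4 * δ)) * ‖v‖ₑ := by
        apply lintegral_mono_ae
        filter_upwards [hhD, ae_restrict_mem hms] with Y hY hYt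
        rw [enorm_smul]
        by_cases hYX : Y ∈ closedBall X b.rOut
        · rw [← mul_add, mul_assoc]
          gcongr
          have h1 : ‖Y - X‖ ≤ δ := by
            rw [mem_closedBall, dist_eq_norm] at hYX; linarith
          have h0 : pr m q Y ≠ 0 := by
            intro h0
            have := (mem_tube.mp hYt).1.1
            rw [h0, norm_zero] at this
            linarith
          have h2 := dl_small hx hy h1 h0 hv
          have e : DF Y (inc m q v) = (DF Y - dl m q Y) (inc m q v) + dl m q Y (inc m q v) := by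
            rw [sub_apply]; abel
          rw [e, ← hY]
          refine (enorm_add_le _ _).trans ?_
          rw [add_mul]
          refine add_le_add ?_ ?_
          · rw [← ofReal_norm, ← ofReal_norm, ← ofReal_norm,
              ← ENNReal.ofReal_mul (norm_nonneg _)]
            apply ENNReal.ofReal_le_ofReal
            have := ContinuousLinearMap.le_opNorm (DF Y - dl m q Y) (inc m q v)
            rwa [norm_inc] at this
          · rw [← ofReal_norm, ← ofReal_norm, ← ENNReal.ofReal_mul (by positivity)]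
            exact ENNReal.ofReal_le_ofReal h2
        · have h1 : b.normed (volume : Measure (Eu (m + 1 + q))) (X - Y) = 0 := by
            rw [← Function.notMem_support, b.support_normed_eq, mem_ball_zero_iff]
            rw [mem_closedBall, dist_comm, dist_eq_norm] at hYX
            exact fun h => hYX h.le
          rw [h1]; simp
    _ = (∫⁻ Y in tube m q, (‖b.normed volume (X - Y)‖ₑ * h Y +
          ‖b.normed volume (X - Y)‖ₑ * ENNReal.ofReal (4 * δ))) * ‖v‖ₑ := by
        rw [lintegral_mul_const]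
        exact (hφm.mul hh).add (hφm.mul_const _)
    _ ≤ (avg b (tube m q) h X + ENNReal.ofReal (4 * δ)) * ‖v‖ₑ := by
        gcongr
        have hm1 : Measurable (fun Y => ‖b.normed (volume : Measure (Eu (m + 1 + q))) (X - Y)‖ₑ *
          h Y) := hφm.mul hh
        rw [lintegral_add_left hm1]
        refine add_le_add le_rfl ?_
        · rw [lintegral_mul_const _ hφm]
          calc (∫⁻ Y in tube m q, ‖b.normed volume (X - Y)‖ₑ) * ENNReal.ofReal (4 * δ)
              ≤ 1 * ENNReal.ofReal (4 * δ) := by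
                gcongr
                exact (setLIntegral_le_lintegral _ _).trans (lintegral_normed' b X).le
            _ = _ := one_mul _

lemma norm_nder_le {z : Eu (m + 1)} (hz : 1 / 2 ≤ ‖z‖) (w : Eu (m + 1)) :
    ‖nder z w‖ ≤ 2 * ‖w‖ := by
  have hz0 : z ≠ 0 := by
    rintro rfl; rw [norm_zero] at hz; linarith
  have hu := norm_unitvec hz0
  rw [nder_apply]
  set u := ‖z‖⁻¹ • z
  have h2 : ‖w - ⟪u, w⟫_ℝ • u‖ ≤ ‖w‖ := by
    apply le_of_sq_le_sq _ (norm_nonneg _)
    rw [norm_sub_sq_real, norm_smul, hu, inner_smul_right, real_inner_comm, Real.norm_eq_abs,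
      mul_one, sq_abs]
    nlinarith [sq_nonneg ⟪u, w⟫_ℝ]
  rw [norm_smul, norm_inv, norm_norm]
  have h3 : ‖z‖⁻¹ ≤ 2 := by
    rw [inv_le_comm₀ (by linarith) (by norm_num)]
    linarith
  calc ‖z‖⁻¹ * ‖w - ⟪u, w⟫_ℝ • u‖ ≤ 2 * ‖w‖ := by
        gcongr

/-- the shell on which the surjectivity argument runs -/
def midshell (m : ℕ) : Set (Eu (m + 1)) := {y | 5 / 4 < ‖y‖ ∧ ‖y‖ < 7 / 4}

lemma midshell_open : IsOpen (midshell m) :=
  (isOpen_lt continuous_const continuous_norm).inter (isOpen_lt continuous_norm continuous_const)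

lemma vol_midshell_lt : volume (midshell m) ≠ ⊤ := by
  have : Bornology.IsBounded (midshell m) := by
    apply (Metric.isBounded_closedBall (x := (0 : Eu (m + 1))) (r := 2)).subset
    intro x hx
    simp only [mem_closedBall_zero_iff]
    linarith [hx.2]
  exact this.measure_lt_top.ne

lemma vol_midshell_pos : volume (midshell m) ≠ 0 := by
  refine ((midshell_open (m := m)).measure_pos (volume : Measure (Eu (m + 1)))
    ⟨EuclideanSpace.single 0 (3/2 : ℝ), ?_⟩).ne'
  simp only [midshell, mem_ofPred_eq, PiLp.norm_single]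
  norm_num

/-- a compact subset of the tube -/
def core (m q : ℕ) : Set (Eu (m + 1 + q)) :=
  {X | 17 / 16 ≤ ‖pr m q X‖ ∧ ‖pr m q X‖ ≤ 31 / 16 ∧ ‖X - inc m q (pr m q X)‖ ≤ 1 / 4}

lemma core_sub : core m q ⊆ tube m q := by
  intro X hX
  rw [mem_tube]
  exact ⟨⟨by linarith [hX.1], by linarith [hX.2.1]⟩, by linarith [hX.2.2]⟩

lemma core_compact : IsCompact (core m q) := by
  apply Metric.isCompact_of_isClosed_isBounded _ (tube_bdd.subset core_sub)
  have h1 : Continuous (fun X : Eu (m + 1 + q) => ‖pr m q X‖) := (pr m q).continuous.norm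
  have h2 : Continuous (fun X : Eu (m + 1 + q) => ‖X - inc m q (pr m q X)‖) :=
    (continuous_id.sub ((inc m q).continuous.comp (pr m q).continuous)).norm
  exact (isClosed_le continuous_const h1).inter
    ((isClosed_le h1 continuous_const).inter (isClosed_le h2 continuous_const))

lemma ball_core {x : Eu (m + 1 + q)} {y : Eu (m + 1)} (hx : ‖x‖ ≤ 1 / 8) (h1 : 5 / 4 ≤ ‖y‖)
    (h2 : ‖y‖ ≤ 7 / 4) {ε : ℝ} (hε : ε ≤ 1 / 16) :
    closedBall (x + inc m q y) ε ⊆ core m q := by
  intro Y hY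
  rw [mem_closedBall, dist_eq_norm] at hY
  have a1 : ‖pr m q Y - y‖ ≤ 3 / 16 := by
    have e2 : pr m q Y - y = pr m q (Y - (x + inc m q y)) + pr m q x := by
      rw [map_sub, map_add, pr_inc]; abel
    rw [e2]
    refine (norm_add_le _ _).trans ?_
    have := norm_pr_le (Y - (x + inc m q y))
    have := norm_pr_le x
    linarith
  have a2 : ‖Y - inc m q (pr m q Y)‖ ≤ 3 / 16 := by
    have e2 : Y - inc m q (pr m q Y) = ((Y - (x + inc m q y)) -
        inc m q (pr m q (Y - (x + inc m q y)))) + (x - inc m q (pr m q x)) := by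
      rw [map_sub, map_add, pr_inc, map_sub, map_add]; abel
    rw [e2]
    refine (norm_add_le _ _).trans ?_
    have := norm_rest_le (Y - (x + inc m q y))
    have := norm_rest_le x
    linarith
  have a3 := abs_norm_sub_norm_le (pr m q Y) y
  have a4 := abs_le.mp (a3.trans a1)
  exact ⟨by linarith [a4.1], by linarith [a4.2], by linarith⟩

/-- the numerical constant -/
def cst (m : ℕ) : ℝ := (m.factorial : ℝ) * 8 ^ m

lemma cst_pos (m : ℕ) : 0 < cst m := by unfold cst; positivity

lemma one_le_cst (m : ℕ) : 1 ≤ cst m := by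
  unfold cst
  have h1 : (1 : ℝ) ≤ m.factorial := by exact_mod_cast Nat.one_le_iff_ne_zero.mpr m.factorial_ne_zero
  have h2 : (1 : ℝ) ≤ 8 ^ m := one_le_pow₀ (by norm_num)
  nlinarith

/-- the radius of the set of base points -/
def del (m : ℕ) : ℝ := 1 / (16 * cst m)

lemma del_pos (m : ℕ) : 0 < del m := by
  have := cst_pos m
  unfold del; positivity

lemma del_le (m : ℕ) : del m ≤ 1 / 16 := by
  have := one_le_cst m
  unfold del
  apply one_div_le_one_div_of_le <;> linarith

lemma cst_del {m : ℕ} (hm : 1 ≤ m) : cst m * (4 * del m) ^ m ≤ 1 / 2 := by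
  have h0 := del_pos m
  have h1 := del_le m
  have h2 := cst_pos m
  calc cst m * (4 * del m) ^ m ≤ cst m * (4 * del m) ^ 1 := by
        gcongr ?_ * ?_
        exact pow_le_pow_of_le_one (by linarith) (by linarith) hm
    _ = 1 / 4 := by unfold del; field_simp; norm_num
    _ ≤ 1 / 2 := by norm_num

/-- **Main estimate.** Homeomorphisms of the tube are far from the collapsing map. -/
theorem far_tube (hm : 1 ≤ m) (F G : Eu (m + 1 + q) → Eu (m + 1 + q))
    (DF : Eu (m + 1 + q) → (Eu (m + 1 + q) →L[ℝ] Eu (m + 1 + q)))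
    (hF : ContinuousOn F (tube m q))
    (hG : ContinuousOn G (tube m q)) (hFm : MapsTo F (tube m q) (tube m q))
    (hGm : MapsTo G (tube m q) (tube m q)) (hGF : ∀ x ∈ tube m q, G (F x) = x)
    (hFi : IntegrableOn F (tube m q)) (hDFi : IntegrableOn DF (tube m q))
    (hDl : AEStronglyMeasurable (dl m q) (volume.restrict (tube m q)))
    (hD : IsWeakDiff (tube m q) F DF) :
    volume (ball (0 : Eu (m + 1 + q)) (del m)) / 2 ≤
      ENNReal.ofReal (cst m) * ∫⁻ x in tube m q, ‖DF x - dl m q x‖ₑ ^ m := by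
  have hms : MeasurableSet (tube m q) := tube_open.measurableSet
  -- measurable representative
  have hDm : AEMeasurable (fun x => ‖DF x - dl m q x‖ₑ) (volume.restrict (tube m q)) :=
    (hDFi.1.sub hDl).enorm
  set h := hDm.mk _ with hh
  have hhm : Measurable h := hDm.measurable_mk
  have hhD : ∀ᵐ Y ∂(volume.restrict (tube m q)), ‖DF Y - dl m q Y‖ₑ = h Y := hDm.ae_eq_mk
  -- uniform continuity and mollification
  have huc := core_compact.uniformContinuousOn_of_continuous (hF.mono (core_sub (m := m) (q := q)))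
  rw [Metric.uniformContinuousOn_iff] at huc
  obtain ⟨ε', hε', huc⟩ := huc (1 / 2) (by norm_num)
  have hδ0 := del_pos m
  have hδ1 := del_le m
  set ε := min (ε' / 2) (del m) with hε
  have hε0 : 0 < ε := lt_min (by positivity) hδ0
  have hεδ : ε ≤ del m := min_le_right _ _
  have hε1 : ε ≤ 1 / 16 := hεδ.trans hδ1
  have hε2 : ε < ε' := lt_of_le_of_lt (min_le_left _ _) (by linarith)
  set b : ContDiffBump (0 : Eu (m + 1 + q)) := ⟨ε / 2, ε, by positivity, by linarith⟩ with hb
  have hbr : b.rOut = ε := rfl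
  set w := moll b (tube m q) F with hw
  have hwd : ContDiff ℝ 1 w := (moll_contDiff hFi hms).of_le (by simp)
  -- the slice
  set N : Eu (m + 1 + q) → ℝ≥0∞ := avg b (tube m q) (fun Y => h Y ^ m) with hN
  have hNm : Measurable N := avg_measurable b _ (hhm.pow_const m)
  have hQ0 : volume (ball (0 : Eu (m + 1 + q)) (del m)) ≠ 0 := (measure_ball_pos _ _ hδ0).ne'
  have hQ1 : volume (ball (0 : Eu (m + 1 + q)) (del m)) ≠ ⊤ := measure_ball_lt_top.ne
  obtain ⟨x, hxQ, hslice⟩ := exists_slice hNm hQ0 hQ1 (midshell m)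
  have hx : ‖x‖ ≤ del m := (mem_ball_zero_iff.mp hxQ).le
  have hx8 : ‖x‖ ≤ 1 / 8 := by linarith
  have hball : ∀ y : Eu (m + 1), 5 / 4 ≤ ‖y‖ → ‖y‖ ≤ 7 / 4 →
      closedBall (x + inc m q y) b.rOut ⊆ core m q := fun y h1 h2 => ball_core hx8 h1 h2 hε1
  have hmem : ∀ y : Eu (m + 1), 5 / 4 ≤ ‖y‖ → ‖y‖ ≤ 7 / 4 → x + inc m q y ∈ core m q :=
    fun y h1 h2 => hball y h1 h2 (mem_closedBall_self b.rOut_pos.le)
  have hclose : ∀ y : Eu (m + 1), 5 / 4 ≤ ‖y‖ → ‖y‖ ≤ 7 / 4 →
      ‖w (x + inc m q y) - F (x + inc m q y)‖ ≤ 1 / 2 := by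
    intro y h1 h2
    apply moll_close hFi hms ((hball y h1 h2).trans core_sub)
    intro Y hY
    have h3 := huc Y (hball y h1 h2 hY) _ (hmem y h1 h2) (lt_of_le_of_lt (mem_closedBall.mp hY) hε2)
    rw [dist_eq_norm] at h3
    exact h3.le
  -- the maps on the slice
  set g : Eu (m + 1) → Eu (m + 1) := fun y => pr m q (w (x + inc m q y)) with hg
  have hxc : Continuous (fun y : Eu (m + 1) => x + inc m q y) :=
    continuous_const.add (inc m q).continuous
  have hgc : Continuous g := (pr m q).continuous.comp (hwd.continuous.comp hxc)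
  have hgF : ∀ y : Eu (m + 1), 5 / 4 ≤ ‖y‖ → ‖y‖ ≤ 7 / 4 →
      ‖g y - pr m q (F (x + inc m q y))‖ ≤ 1 / 2 := by
    intro y h1 h2
    rw [hg]; simp only
    rw [← map_sub]
    exact (norm_pr_le _).trans (hclose y h1 h2)
  have hghalf : ∀ y : Eu (m + 1), 5 / 4 ≤ ‖y‖ → ‖y‖ ≤ 7 / 4 → 1 / 2 ≤ ‖g y‖ := by
    intro y h1 h2
    have h3 := hgF y h1 h2
    have h4 := (mem_tube.mp (hFm (core_sub (hmem y h1 h2)))).1.1
    have h5 := norm_sub_norm_le (pr m q (F (x + inc m q y))) (g y)
    rw [norm_sub_rev] at h5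
    linarith
  have hgder : ∀ y : Eu (m + 1), HasFDerivAt g
      ((pr m q) ∘L ((fderiv ℝ w (x + inc m q y)) ∘L (inc m q))) y := by
    intro y
    have h1 : HasFDerivAt (fun y : Eu (m + 1) => x + inc m q y) (inc m q) y :=
      (inc m q).hasFDerivAt.const_add x
    have h2 := ((hwd.differentiable one_ne_zero) (x + inc m q y)).hasFDerivAt.comp y h1
    exact (pr m q).hasFDerivAt.comp y h2
  set Gm : Eu (m + 1) → Eu (m + 1) := fun y => ‖y‖ • (‖g y‖⁻¹ • g y) with hGm'
  set M : Eu (m + 1) → (Eu (m + 1) →L[ℝ] Eu (m + 1)) := fun y =>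
    ‖y‖ • (nder (g y) ∘L ((pr m q) ∘L ((fderiv ℝ w (x + inc m q y)) ∘L (inc m q)))) +
      (‖y‖⁻¹ • innerSL ℝ y).smulRight (‖g y‖⁻¹ • g y) with hM
  have hyne : ∀ y ∈ midshell m, y ≠ 0 := by
    intro y hy h0
    have := hy.1
    rw [h0, norm_zero] at this
    linarith
  have hgne : ∀ y ∈ midshell m, g y ≠ 0 := by
    intro y hy h0
    have := hghalf y hy.1.le hy.2.le
    rw [h0, norm_zero] at this
    linarith
  have hder : ∀ y ∈ midshell m, HasFDerivWithinAt Gm (M y) (midshell m) y := by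
    intro y hy
    have h1 := HasFDerivAt.comp (g := fun z : Eu (m + 1) => ‖z‖⁻¹ • z) y
      (hasFDerivAt_unit (hgne y hy)) (hgder y)
    exact ((hasFDerivAt_nrm (hyne y hy)).smul h1).hasFDerivWithinAt
  -- surjectivity
  have hsurj : midshell m ⊆ Gm '' midshell m := by
    intro y0 hy0
    have hy00 := hyne y0 hy0
    have hn : ‖y0‖ ≠ 0 := norm_ne_zero_iff.mpr hy00
    obtain ⟨y, hy, l, hl, hyl⟩ := topo F G hF hG hFm hGm hGF x (r := ‖y0‖) (by linarith [hy0.1])
      (by
        have := norm_pr_le x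
        linarith [hy0.1])
      (fun y hy => core_sub (hmem y (by rw [hy]; exact hy0.1.le) (by rw [hy]; exact hy0.2.le)))
      g hgc.continuousOn
      (fun y hy => lt_of_le_of_lt (hgF y (by rw [hy]; exact hy0.1.le) (by rw [hy]; exact hy0.2.le))
        (by norm_num)) (‖y0‖⁻¹ • y0) (norm_unitvec hy00)
    have hymid : y ∈ midshell m := by
      simp only [midshell, mem_ofPred_eq, hy]; exact hy0
    refine ⟨y, hymid, ?_⟩
    have h1 := hghalf y hymid.1.le hymid.2.le
    have h2 : ‖g y‖ = l := by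
      rw [hyl, norm_smul, norm_unitvec hy00, mul_one, Real.norm_eq_abs, abs_of_nonneg hl]
    have hl0 : l ≠ 0 := by rw [← h2]; linarith
    rw [hGm']; simp only
    rw [h2, hyl, smul_smul l⁻¹, inv_mul_cancel₀ hl0, one_smul, hy, smul_smul,
      mul_inv_cancel₀ hn, one_smul]
  -- determinant
  have hdet : ∀ y ∈ midshell m, ENNReal.ofReal |(M y).det| ≤
      ENNReal.ofReal (cst m) * (N (x + inc m q y) + ENNReal.ofReal ((4 * del m) ^ m)) := by
    intro y hy
    have hy0 := hyne y hy
    set a := avg b (tube m q) h (x + inc m q y) with ha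
    have haN : a ^ m ≤ N (x + inc m q y) := avg_pow_le b _ hhm hm _
    rcases eq_or_ne a ⊤ with hat | hat
    · have : N (x + inc m q y) = ⊤ := by
        rw [hat, ENNReal.top_pow (by omega)] at haN
        exact top_le_iff.mp haN
      rw [this, top_add, ENNReal.mul_top]
      · exact le_top
      · simp [cst_pos m]
    · have hbound : ∀ v : Eu (m + 1), ⟪‖y‖⁻¹ • y, v⟫_ℝ = 0 →
          ‖fderiv ℝ w (x + inc m q y) (inc m q v)‖ ≤ (a.toReal + 4 * del m) * ‖v‖ := by
        intro v hv
        have h1 := fderiv_bound hFi hD hhm hhD hx hεδ (by linarith [hy.1])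
          ((hball y hy.1.le hy.2.le).trans core_sub) hv
        have h2 : (avg b (tube m q) h (x + inc m q y) + ENNReal.ofReal (4 * del m)) * ‖v‖ₑ =
            ENNReal.ofReal ((a.toReal + 4 * del m) * ‖v‖) := by
          rw [ENNReal.ofReal_mul (p := a.toReal + 4 * del m) (by positivity),
            ENNReal.ofReal_add ENNReal.toReal_nonneg
            (by positivity), ENNReal.ofReal_toReal hat, ofReal_norm]
        rw [h2, ← ofReal_norm] at h1
        exact (ENNReal.ofReal_le_ofReal_iff (by positivity)).mp h1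
      have hb : |(M y).det| ≤ (m.factorial : ℝ) * (4 * (a.toReal + 4 * del m)) ^ m := by
        apply det_bound (M y : Eu (m + 1) →ₗ[ℝ] Eu (m + 1)) (‖y‖⁻¹ • y) (‖g y‖⁻¹ • g y) _
          (norm_unitvec hy0) (norm_unitvec (hgne y hy))
        · intro v
          have hin : ‖y‖⁻¹ • (innerSL ℝ y) v = ⟪‖y‖⁻¹ • y, v⟫_ℝ := by
            simp [inner_smul_left]
          have hMv : (M y) v = ‖y‖ • nder (g y) (pr m q (fderiv ℝ w (x + inc m q y) (inc m q v))) +
              (‖y‖⁻¹ • (innerSL ℝ y) v) • (‖g y‖⁻¹ • g y) := rfl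
          change ⟪‖g y‖⁻¹ • g y, (M y) v⟫_ℝ = _
          rw [hMv, hin, nder_apply]
          have hun : ‖(‖g y‖⁻¹ • g y)‖ = 1 := norm_unitvec (hgne y hy)
          generalize (‖g y‖⁻¹ • g y) = u at hun ⊢
          have huu : ⟪u, u⟫_ℝ = 1 := by rw [real_inner_self_eq_norm_sq, hun]; norm_num
          rw [inner_add_right, inner_smul_right, inner_smul_right, inner_sub_right,
            inner_smul_right, inner_smul_right, huu]
          ring
        · intro v hv
          have hin : ‖y‖⁻¹ • (innerSL ℝ y) v = ⟪‖y‖⁻¹ • y, v⟫_ℝ := by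
            simp [inner_smul_left]
          have hMv : (M y) v = ‖y‖ • nder (g y) (pr m q (fderiv ℝ w (x + inc m q y) (inc m q v))) +
              (‖y‖⁻¹ • (innerSL ℝ y) v) • (‖g y‖⁻¹ • g y) := rfl
          change ‖(M y) v‖ ≤ _
          rw [hMv, hin, hv, zero_smul, add_zero, norm_smul, norm_norm]
          calc ‖y‖ * ‖nder (g y) (pr m q (fderiv ℝ w (x + inc m q y) (inc m q v)))‖
              ≤ 2 * (2 * ((a.toReal + 4 * del m) * ‖v‖)) := by
                gcongr
                · linarith [hy.2]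
                · refine (norm_nder_le (hghalf y hy.1.le hy.2.le) _).trans ?_
                  gcongr
                  exact (norm_pr_le _).trans (hbound v hv)
            _ = 4 * (a.toReal + 4 * del m) * ‖v‖ := by ring
      calc ENNReal.ofReal |(M y).det|
          ≤ ENNReal.ofReal ((m.factorial : ℝ) * (4 * (a.toReal + 4 * del m)) ^ m) :=
            ENNReal.ofReal_le_ofReal hb
        _ = ENNReal.ofReal ((m.factorial : ℝ) * 4 ^ m) * (a + ENNReal.ofReal (4 * del m)) ^ m := by
            rw [mul_pow, ← mul_assoc, ENNReal.ofReal_mul (by positivity),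
              ENNReal.ofReal_pow (by positivity), ENNReal.ofReal_add ENNReal.toReal_nonneg
              (by positivity), ENNReal.ofReal_toReal hat]
        _ ≤ ENNReal.ofReal ((m.factorial : ℝ) * 4 ^ m) *
            (2 ^ m * (a ^ m + ENNReal.ofReal (4 * del m) ^ m)) := by
            gcongr
            exact add_pow_le_two _ _ _
        _ = ENNReal.ofReal (cst m) * (a ^ m + ENNReal.ofReal ((4 * del m) ^ m)) := by
            rw [← mul_assoc, ENNReal.ofReal_pow (by positivity) m]
            congr 1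
            have : (2 : ℝ≥0∞) ^ m = ENNReal.ofReal (2 ^ m) := by
              rw [ENNReal.ofReal_pow (by norm_num)]; simp
            rw [this, ← ENNReal.ofReal_mul (by positivity)]
            congr 1
            unfold cst
            rw [mul_assoc, ← mul_pow]; norm_num
        _ ≤ _ := by gcongr
  -- conclusion
  set A := volume (midshell m) with hA
  set Q := volume (ball (0 : Eu (m + 1 + q)) (del m)) with hQ
  set I := ∫⁻ x in tube m q, ‖DF x - dl m q x‖ₑ ^ m with hI
  have hA0 : A ≠ 0 := vol_midshell_pos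
  have hA1 : A ≠ ⊤ := vol_midshell_lt
  have hNI : ∫⁻ X, N X ≤ I := by
    refine (lintegral_avg_le b _ (hhm.pow_const m)).trans ?_
    apply lintegral_mono_ae
    filter_upwards [hhD] with Y hY
    rw [hY]
  have hNcm : Measurable (fun y => N (x + inc m q y)) := hNm.comp hxc.measurable
  have hvol : A ≤ ENNReal.ofReal (cst m) * (∫⁻ y in midshell m, N (x + inc m q y)) + A / 2 := by
    calc A ≤ volume (Gm '' midshell m) := measure_mono hsurj
      _ ≤ ∫⁻ y in midshell m, ENNReal.ofReal |(M y).det| :=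
          addHaar_image_le_lintegral_abs_det_fderiv _ midshell_open.measurableSet hder
      _ ≤ ∫⁻ y in midshell m, ENNReal.ofReal (cst m) *
            (N (x + inc m q y) + ENNReal.ofReal ((4 * del m) ^ m)) :=
          setLIntegral_mono' midshell_open.measurableSet hdet
      _ = ENNReal.ofReal (cst m) * (∫⁻ y in midshell m, N (x + inc m q y)) +
            ENNReal.ofReal (cst m) * ENNReal.ofReal ((4 * del m) ^ m) * A := by
          rw [lintegral_const_mul' _ _ ENNReal.ofReal_ne_top, lintegral_add_left hNcm,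
            lintegral_const, Measure.restrict_apply_univ, mul_add, mul_assoc]
      _ ≤ _ := by
          gcongr
          rw [← ENNReal.ofReal_mul (cst_pos m).le, ENNReal.div_eq_inv_mul]
          gcongr
          have h1 : ENNReal.ofReal (cst m * (4 * del m) ^ m) ≤ ENNReal.ofReal (1 / 2) :=
            ENNReal.ofReal_le_ofReal (cst_del hm)
          refine h1.trans ?_
          rw [one_div, ENNReal.ofReal_inv_of_pos (by norm_num)]
          simp
  have hvol2 : A / 2 ≤ ENNReal.ofReal (cst m) * (∫⁻ y in midshell m, N (x + inc m q y)) := by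
    have hfin : A / 2 ≠ ⊤ := ENNReal.div_ne_top hA1 (by simp)
    have h1 : A / 2 + A / 2 ≤
        ENNReal.ofReal (cst m) * (∫⁻ y in midshell m, N (x + inc m q y)) + A / 2 := by
      rw [ENNReal.add_halves]; exact hvol
    exact (ENNReal.add_le_add_iff_right hfin).mp h1
  have h5 : A * (Q / 2) ≤ A * (ENNReal.ofReal (cst m) * I) := by
    calc A * (Q / 2) = (A / 2) * Q := by
          rw [ENNReal.div_eq_inv_mul, ENNReal.div_eq_inv_mul]; ring
      _ ≤ (ENNReal.ofReal (cst m) * (∫⁻ y in midshell m, N (x + inc m q y))) * Q := by gcongr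
      _ = ENNReal.ofReal (cst m) * ((∫⁻ y in midshell m, N (x + inc m q y)) * Q) := by ring
      _ ≤ ENNReal.ofReal (cst m) * (A * ∫⁻ X, N X) := by gcongr
      _ ≤ ENNReal.ofReal (cst m) * (A * I) := by gcongr
      _ = A * (ENNReal.ofReal (cst m) * I) := by ring
  exact (ENNReal.mul_le_mul_iff_right hA0 hA1).mp h5

end

end Pool.Agent.L5helper85.Tube
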