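import Pool.Agent.L5helper85.TubePos

/-!
# The collapsing map is not a strong limit of homeomorphisms of the tube
-/

set_option autoImplicit false

open MeasureTheory Set Filter Topology Metric
open scoped ENNReal NNReal InnerProductSpace

namespace Pool.Agent.L5helper85.Tube

open Pool.Agent.Results.MP_fc472d_an.ShellWeakNotStrong

noncomputable section

variable {m q : ℕ}

/-- lower bound of the `L^m` distance of the differentials -/
lemma far_eLpNorm (hm : 1 ≤ m) {F G : Eu (m + 1 + q) → Eu (m + 1 + q)}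
    {DF Df : Eu (m + 1 + q) → (Eu (m + 1 + q) →L[ℝ] Eu (m + 1 + q))}
    (hF : ContinuousOn F (tube m q)) (hG : ContinuousOn G (tube m q))
    (hbij : BijOn F (tube m q) (tube m q)) (hinv : InvOn G F (tube m q) (tube m q))
    (hS : IsSobolev (m : ℝ≥0∞) (tube m q) F DF)
    (hSf : IsSobolev (m : ℝ≥0∞) (tube m q) (fl m q) Df) :
    volume (ball (0 : Eu (m + 1 + q)) (del m)) / 2 ≤
      ENNReal.ofReal (cst m) *
        eLpNorm (fun x => DF x - Df x) (m : ℝ≥0∞) (volume.restrict (tube m q)) ^ m := by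
  have hfin : IsFiniteMeasure (volume.restrict (tube m q) : Measure (Eu (m + 1 + q))) :=
    ⟨by simpa using vol_tube_lt⟩
  have hm0 : m ≠ 0 := by omega
  have hp : 1 ≤ (m : ℝ≥0∞) := by exact_mod_cast hm
  have hms := (tube_open (m := m) (q := q)).measurableSet
  have hGm : MapsTo G (tube m q) (tube m q) := by
    intro y hy
    obtain ⟨x, hx, rfl⟩ := hbij.surjOn hy
    rw [hinv.1 hx]; exact hx
  have h1 := far_tube hm F G DF hF hG hbij.mapsTo hGm (fun x hx => hinv.1 hx)
    (hS.1.integrable hp) (hS.2.1.integrable hp) (dl_cont.aestronglyMeasurable hms) hS.2.2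
  have h2 : ∀ᵐ x ∂(volume.restrict (tube m q)), Df x = dl m q x := by
    filter_upwards [ae_eq_fderiv tube_open fl_contDiffOn hp hSf, ae_restrict_mem hms] with x hx hxt
    rw [hx, (fderiv_fl hxt).fderiv]
  rw [eLpNorm_pow hm0]
  refine h1.trans ?_
  gcongr ENNReal.ofReal (cst m) * ?_
  apply lintegral_mono_ae
  filter_upwards [h2] with x hx
  rw [hx]

/-- no sequence of homeomorphisms of the tube converges strongly to the collapsing map -/
lemma not_strong (hm : 1 ≤ m) {F G : ℕ → Eu (m + 1 + q) → Eu (m + 1 + q)}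
    {DF : ℕ → Eu (m + 1 + q) → (Eu (m + 1 + q) →L[ℝ] Eu (m + 1 + q))}
    {Df : Eu (m + 1 + q) → (Eu (m + 1 + q) →L[ℝ] Eu (m + 1 + q))}
    (hF : ∀ k, ContinuousOn (F k) (tube m q)) (hG : ∀ k, ContinuousOn (G k) (tube m q))
    (hbij : ∀ k, BijOn (F k) (tube m q) (tube m q))
    (hinv : ∀ k, InvOn (G k) (F k) (tube m q) (tube m q))
    (hS : ∀ k, IsSobolev (m : ℝ≥0∞) (tube m q) (F k) (DF k))
    (hSf : IsSobolev (m : ℝ≥0∞) (tube m q) (fl m q) Df)
    (hlim : StrongConv (m : ℝ≥0∞) (tube m q) F DF (fl m q) Df) : False := by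
  have hm0 : m ≠ 0 := by omega
  have hct : ENNReal.ofReal (cst m) ≠ ⊤ := ENNReal.ofReal_ne_top
  have h3 : ∀ k, volume (ball (0 : Eu (m + 1 + q)) (del m)) / 2 ≤ ENNReal.ofReal (cst m) *
      (eLpNorm (fun x => F k x - fl m q x) (m : ℝ≥0∞) (volume.restrict (tube m q)) +
      eLpNorm (fun x => DF k x - Df x) (m : ℝ≥0∞) (volume.restrict (tube m q))) ^ m := by
    intro k
    refine (far_eLpNorm hm (hF k) (hG k) (hbij k) (hinv k) (hS k) hSf).trans ?_
    gcongr
    exact le_add_self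
  have h4 : Tendsto (fun k => ENNReal.ofReal (cst m) *
      (eLpNorm (fun x => F k x - fl m q x) (m : ℝ≥0∞) (volume.restrict (tube m q)) +
      eLpNorm (fun x => DF k x - Df x) (m : ℝ≥0∞) (volume.restrict (tube m q))) ^ m) atTop
      (𝓝 (ENNReal.ofReal (cst m) * 0 ^ m)) := by
    apply ENNReal.Tendsto.const_mul _ (Or.inr hct)
    exact ((ENNReal.continuous_pow m).tendsto 0).comp hlim
  rw [zero_pow hm0, mul_zero] at h4
  have h5 := ge_of_tendsto' h4 h3
  have h6 : volume (ball (0 : Eu (m + 1 + q)) (del m)) / 2 ≠ 0 := by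
    apply ENNReal.div_ne_zero.mpr
    exact ⟨(measure_ball_pos _ _ (del_pos m)).ne', by simp⟩
  exact h6 (le_zero_iff.mp h5)

end

end Pool.Agent.L5helper85.Tube
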