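import Pool.Agent.L5helper85.TubeDefs
import Pool.Agent.L5helper85.TubeFar

/-!
# The collapsing map is a weak limit of diffeomorphisms of the tube
-/

set_option autoImplicit false

open MeasureTheory Set Filter Topology Metric
open scoped ENNReal NNReal InnerProductSpace

namespace Pool.Agent.L5helper85.Tube

open Pool.Agent.Results.MP_fc472d_an.ShellWeakNotStrong

noncomputable section

variable {m q : ℕ}

/-- lift of a map of the first factor -/
def lift (φ : Eu (m + 1) → Eu (m + 1)) (x : Eu (m + 1 + q)) : Eu (m + 1 + q) :=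
  x + inc m q (φ (pr m q x) - pr m q x)

/-- lift of a linear map -/
def liftD (A : Eu (m + 1) →L[ℝ] Eu (m + 1)) : Eu (m + 1 + q) →L[ℝ] Eu (m + 1 + q) :=
  ContinuousLinearMap.id ℝ _ + (inc m q) ∘L (A ∘L (pr m q) - pr m q)

lemma pr_lift (φ : Eu (m + 1) → Eu (m + 1)) (x : Eu (m + 1 + q)) :
    pr m q (lift φ x) = φ (pr m q x) := by
  unfold lift
  rw [map_add, pr_inc]; abel

lemma rest_lift (φ : Eu (m + 1) → Eu (m + 1)) (x : Eu (m + 1 + q)) :
    lift φ x - inc m q (pr m q (lift φ x)) = x - inc m q (pr m q x) := by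
  rw [pr_lift]
  unfold lift
  rw [map_sub]; abel

lemma lift_mapsTo {φ : Eu (m + 1) → Eu (m + 1)} (h : MapsTo φ (shell (m + 1)) (shell (m + 1))) :
    MapsTo (lift φ) (tube m q) (tube m q) := by
  intro x hx
  rw [mem_tube] at hx ⊢
  rw [rest_lift, pr_lift]
  exact ⟨h hx.1, hx.2⟩

lemma lift_leftInv {φ ψ : Eu (m + 1) → Eu (m + 1)} (h : LeftInvOn ψ φ (shell (m + 1))) :
    LeftInvOn (lift ψ) (lift φ) (tube m q) := by
  intro x hx
  have h1 := h (mem_tube.mp hx).1
  have h2 : lift ψ (lift φ x) = lift φ x + inc m q (ψ (pr m q (lift φ x)) - pr m q (lift φ x)) := rfl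
  rw [h2, pr_lift, h1]
  unfold lift
  rw [map_sub, map_sub]; abel

lemma hasFDerivAt_lift {φ : Eu (m + 1) → Eu (m + 1)} {A : Eu (m + 1) →L[ℝ] Eu (m + 1)}
    {x : Eu (m + 1 + q)} (h : HasFDerivAt φ A (pr m q x)) : HasFDerivAt (lift φ) (liftD A) x := by
  have h1 : HasFDerivAt (fun x => φ (pr m q x)) (A ∘L (pr m q)) x :=
    h.comp x (pr m q).hasFDerivAt
  have h2 := (inc m q).hasFDerivAt.comp x (h1.sub (pr m q).hasFDerivAt)
  exact (hasFDerivAt_id x).add h2

lemma contDiffAt_lift {r : WithTop ℕ∞} {φ : Eu (m + 1) → Eu (m + 1)}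
    {x : Eu (m + 1 + q)} (h : ContDiffAt ℝ r φ (pr m q x)) : ContDiffAt ℝ r (lift φ) x := by
  have h1 : ContDiffAt ℝ r (fun x => φ (pr m q x)) x := h.comp x (pr m q).contDiff.contDiffAt
  exact contDiffAt_id.add ((inc m q).contDiff.contDiffAt.comp x
    (h1.sub (pr m q).contDiff.contDiffAt))

lemma det_liftD (A : Eu (m + 1) →L[ℝ] Eu (m + 1)) : (liftD (q := q) A).det = A.det := by
  set b1 := (EuclideanSpace.basisFun (Fin (m + 1 + q)) ℝ).toBasis
  set b2 := (EuclideanSpace.basisFun (Fin (m + 1)) ℝ).toBasis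
  set I : Eu (m + 1) →ₗ[ℝ] Eu (m + 1 + q) := (inc m q : Eu (m + 1) →ₗ[ℝ] Eu (m + 1 + q)) with hI
  set B : Eu (m + 1 + q) →ₗ[ℝ] Eu (m + 1) :=
    ((A : Eu (m + 1) →ₗ[ℝ] Eu (m + 1)) - LinearMap.id) ∘ₗ (pr m q : Eu (m + 1 + q) →ₗ[ℝ] Eu (m + 1))
    with hB
  have e1 : ((liftD (q := q) A : Eu (m + 1 + q) →L[ℝ] Eu (m + 1 + q)) :
      Eu (m + 1 + q) →ₗ[ℝ] Eu (m + 1 + q)) = LinearMap.id + I ∘ₗ B := by
    ext x : 1
    simp [liftD, hI, hB]
  have e2 : (A : Eu (m + 1) →ₗ[ℝ] Eu (m + 1)) = LinearMap.id + B ∘ₗ I := by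
    ext x : 1
    simp [hI, hB]
  have h1 : LinearMap.det (LinearMap.id + I ∘ₗ B) =
      (1 + LinearMap.toMatrix b2 b1 I * LinearMap.toMatrix b1 b2 B).det := by
    rw [← LinearMap.det_toMatrix b1, map_add, LinearMap.toMatrix_id, LinearMap.toMatrix_comp b1 b2 b1]
  have h2 : LinearMap.det (LinearMap.id + B ∘ₗ I) =
      (1 + LinearMap.toMatrix b1 b2 B * LinearMap.toMatrix b2 b1 I).det := by
    rw [← LinearMap.det_toMatrix b2, map_add, LinearMap.toMatrix_id, LinearMap.toMatrix_comp b2 b1 b2]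
  rw [ContinuousLinearMap.det, ContinuousLinearMap.det, e1, h1, Matrix.det_one_add_mul_comm, ← h2,
    ← e2]

lemma norm_liftD_le (A : Eu (m + 1) →L[ℝ] Eu (m + 1)) : ‖liftD (q := q) A‖ ≤ 2 + ‖A‖ := by
  refine ContinuousLinearMap.opNorm_le_bound _ (by positivity) fun v => ?_
  have h1 : liftD (q := q) A v = v + inc m q (A (pr m q v) - pr m q v) := rfl
  rw [h1]
  refine (norm_add_le _ _).trans ?_
  rw [norm_inc]
  have h2 := norm_pr_le (m := m) (q := q) v
  have h3 := norm_sub_le (A (pr m q v)) (pr m q v)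
  have h4 := ContinuousLinearMap.le_opNorm A (pr m q v)
  have h5 : ‖A‖ * ‖pr m q v‖ ≤ ‖A‖ * ‖v‖ := by gcongr
  nlinarith

lemma norm_liftD_sub (A B : Eu (m + 1) →L[ℝ] Eu (m + 1)) :
    ‖liftD (q := q) A - liftD (q := q) B‖ ≤ ‖A - B‖ := by
  refine ContinuousLinearMap.opNorm_le_bound _ (by positivity) fun v => ?_
  have h1 : (liftD (q := q) A - liftD (q := q) B) v = inc m q ((A - B) (pr m q v)) := by
    have : (liftD (q := q) A - liftD (q := q) B) v =
      (v + inc m q (A (pr m q v) - pr m q v)) - (v + inc m q (B (pr m q v) - pr m q v)) := rfl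
    rw [this, sub_apply, map_sub, map_sub, map_sub]; abel
  rw [h1, norm_inc]
  refine (ContinuousLinearMap.le_opNorm _ _).trans ?_
  gcongr
  exact norm_pr_le v

lemma pr_ne {x : Eu (m + 1 + q)} (hx : x ∈ tube m q) : pr m q x ≠ 0 :=
  shell_ne (mem_tube.mp hx).1

/-- the approximating diffeomorphisms -/
def tf (m q : ℕ) (t : ℝ) : Eu (m + 1 + q) → Eu (m + 1 + q) := lift (fmap t (e0 m))

/-- the collapsing map `(y, z) ↦ (|y| e, z)` -/
def fl (m q : ℕ) : Eu (m + 1 + q) → Eu (m + 1 + q) := lift (flim m)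

lemma fderiv_tf {t : ℝ} (ht : 1 < t) {x : Eu (m + 1 + q)} (hx : x ∈ tube m q) :
    HasFDerivAt (tf m q t) (liftD (fder t (e0 m) (pr m q x))) x :=
  hasFDerivAt_lift (hasFDerivAt_fmap ht (norm_e0 m) (pr_ne hx))

lemma fderiv_fl {x : Eu (m + 1 + q)} (hx : x ∈ tube m q) :
    HasFDerivAt (fl m q) (dl m q x) x := by
  have h1 : HasFDerivAt (flim m) (dlim m (pr m q x)) (pr m q x) :=
    (hasFDerivAt_nrm (pr_ne hx)).smul_const (e0 m)
  exact hasFDerivAt_lift h1

lemma tf_diffeo {t : ℝ} (ht : 1 < t) :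
    IsDiffeo ((⊤ : ℕ∞) : WithTop ℕ∞) (tube m q) (tube m q) (tf m q t) := by
  have hm := lift_mapsTo (q := q) (mapsTo_fmap (m := m) ht)
  have hi := lift_leftInv (q := q) (leftInv_fmap (m := m) ht)
  have hc : ContDiffOn ℝ ((⊤ : ℕ∞) : WithTop ℕ∞) (tf m q t) (tube m q) := fun x hx =>
    (contDiffAt_lift (contDiffAt_fmap ht (norm_e0 m) (pr_ne hx))).contDiffWithinAt
  refine ⟨⟨hm, hi.injOn, ?_⟩, hc, tf m q t, ⟨hi, hi⟩, hc⟩
  intro y hy
  exact ⟨tf m q t y, hm hy, hi hy⟩

/-- total conformal energy -/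
lemma lintegral_kap_tube {t : ℝ} (ht : 1 < t) :
    ∫⁻ x in tube m q, ENNReal.ofReal (kap t (e0 m) (‖pr m q x‖⁻¹ • pr m q x) ^ m) ≤
      volume (tube m q) := by
  have h1 := lintegral_abs_det_fderiv_le_addHaar_image (volume : Measure (Eu (m + 1 + q)))
    (tube_open (m := m) (q := q)).measurableSet (f := tf m q t)
    (f' := fun x => liftD (fder t (e0 m) (pr m q x)))
    (fun x hx => (fderiv_tf ht hx).hasFDerivWithinAt)
    (tf_diffeo ht).1.injOn
  calc ∫⁻ x in tube m q, ENNReal.ofReal (kap t (e0 m) (‖pr m q x‖⁻¹ • pr m q x) ^ m)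
      = ∫⁻ x in tube m q, ENNReal.ofReal |(liftD (q := q) (fder t (e0 m) (pr m q x))).det| := by
        apply setLIntegral_congr_fun (tube_open (m := m) (q := q)).measurableSet
        intro x hx
        simp only [det_liftD, abs_det_fder (pr_ne hx)]
    _ ≤ volume (tf m q t '' tube m q) := h1
    _ ≤ volume (tube m q) := measure_mono (tf_diffeo ht).1.mapsTo.image_subset

/-- uniform energy bound -/
lemma energy_tube (hm : m ≠ 0) {t : ℝ} (ht : 1 < t) :
    eLpNorm (fderiv ℝ (tf m q t)) (m : ℝ≥0∞) (volume.restrict (tube m q)) ^ m ≤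
      4 ^ m * (volume (tube m q) + volume (tube m q)) := by
  have hms := (tube_open (m := m) (q := q)).measurableSet
  rw [eLpNorm_pow hm]
  calc ∫⁻ x in tube m q, ‖fderiv ℝ (tf m q t) x‖ₑ ^ m
      ≤ ∫⁻ x in tube m q, 4 ^ m *
          (1 + ENNReal.ofReal (kap t (e0 m) (‖pr m q x‖⁻¹ • pr m q x) ^ m)) := by
        apply setLIntegral_mono' hms
        intro x hx
        have hx0 := pr_ne hx
        rw [(fderiv_tf ht hx).fderiv]
        have hk : 0 ≤ kap t (e0 m) (‖pr m q x‖⁻¹ • pr m q x) := by unfold kap; positivity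
        set κ := kap t (e0 m) (‖pr m q x‖⁻¹ • pr m q x) with hκ
        have h1 : ‖liftD (q := q) (fder t (e0 m) (pr m q x))‖ ^ m ≤ 4 ^ m * (1 + κ ^ m) := by
          calc ‖liftD (q := q) (fder t (e0 m) (pr m q x))‖ ^ m ≤ (3 + κ) ^ m := by
                apply pow_le_pow_left₀ (norm_nonneg _)
                have h2 := norm_liftD_le (q := q) (fder t (e0 m) (pr m q x))
                have h3 := norm_fder_le (t := t) (e := e0 m) hx0
                linarith
            _ ≤ (4 * max 1 κ) ^ m := by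
                apply pow_le_pow_left₀ (by linarith)
                linarith [le_max_left 1 κ, le_max_right 1 κ]
            _ = 4 ^ m * (max 1 κ) ^ m := by rw [mul_pow]
            _ ≤ 4 ^ m * (1 + κ ^ m) := by
                gcongr
                rcases max_cases 1 κ with h | h
                · rw [h.1, one_pow]; linarith [pow_nonneg hk m]
                · rw [h.1]; linarith [pow_nonneg hk m]
        have h2 : ‖liftD (q := q) (fder t (e0 m) (pr m q x))‖ₑ ^ m =
            ENNReal.ofReal (‖liftD (q := q) (fder t (e0 m) (pr m q x))‖ ^ m) := by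
          rw [ENNReal.ofReal_pow (norm_nonneg _), ofReal_norm]
        rw [h2]
        calc ENNReal.ofReal (‖liftD (q := q) (fder t (e0 m) (pr m q x))‖ ^ m)
            ≤ ENNReal.ofReal (4 ^ m * (1 + κ ^ m)) := ENNReal.ofReal_le_ofReal h1
          _ = 4 ^ m * (1 + ENNReal.ofReal (κ ^ m)) := by
              rw [ENNReal.ofReal_mul (by positivity), ENNReal.ofReal_add (by norm_num) (by positivity),
                ENNReal.ofReal_pow (by norm_num)]
              simp
    _ = 4 ^ m * ∫⁻ x in tube m q,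
          (1 + ENNReal.ofReal (kap t (e0 m) (‖pr m q x‖⁻¹ • pr m q x) ^ m)) := by
        rw [lintegral_const_mul' _ _ (by simp)]
    _ = 4 ^ m * (volume (tube m q) +
          ∫⁻ x in tube m q, ENNReal.ofReal (kap t (e0 m) (‖pr m q x‖⁻¹ • pr m q x) ^ m)) := by
        rw [lintegral_add_left measurable_const]
        simp
    _ ≤ 4 ^ m * (volume (tube m q) + volume (tube m q)) := by
        gcongr
        exact lintegral_kap_tube ht

lemma norm_le_three {x : Eu (m + 1 + q)} (hx : x ∈ tube m q) : ‖x‖ ≤ 3 := by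
  have h := norm_sq_split x
  obtain ⟨h1, h2⟩ := mem_tube.mp hx
  have p1 := norm_nonneg (pr m q x)
  have p2 := norm_nonneg (x - inc m q (pr m q x))
  have p3 := norm_nonneg x
  have h3 := h1.2
  nlinarith

lemma fl_maps : MapsTo (fl m q) (tube m q) (tube m q) := by
  apply lift_mapsTo
  intro y hy
  simp only [shell, mem_ofPred_eq, flim, norm_smul, norm_e0, norm_norm, mul_one]
  exact hy

lemma norm_dl_le {x : Eu (m + 1 + q)} (hx : x ∈ tube m q) : ‖dl m q x‖ ≤ 3 := by
  have h1 := norm_liftD_le (q := q) (dlim m (pr m q x))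
  have h2 := norm_dlim_le (pr_ne hx)
  have h3 : dl m q x = liftD (q := q) (dlim m (pr m q x)) := rfl
  rw [h3]; linarith

lemma fl_contDiffOn : ContDiffOn ℝ 1 (fl m q) (tube m q) := fun _ hx =>
  (contDiffAt_lift (contDiffAt_flim (pr_ne hx))).contDiffWithinAt

lemma dl_cont : ContinuousOn (dl m q) (tube m q) := by
  have := fl_contDiffOn.continuousOn_fderiv_of_isOpen (tube_open (m := m) (q := q)) le_rfl
  exact this.congr fun x hx => (fderiv_fl hx).fderiv.symm

lemma isSobolev_fl (p : ℝ≥0∞) : IsSobolev p (tube m q) (fl m q) (dl m q) := by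
  have hfin : IsFiniteMeasure (volume.restrict (tube m q) : Measure (Eu (m + 1 + q))) :=
    ⟨by simpa using vol_tube_lt⟩
  have hms := (tube_open (m := m) (q := q)).measurableSet
  refine ⟨?_, ?_, ?_⟩
  · refine MemLp.of_bound (fl_contDiffOn.continuousOn.aestronglyMeasurable hms) 3 ?_
    rw [ae_restrict_iff' hms]
    filter_upwards with x hx
    exact norm_le_three (fl_maps hx)
  · refine MemLp.of_bound (dl_cont.aestronglyMeasurable hms) 3 ?_
    rw [ae_restrict_iff' hms]
    filter_upwards with x hx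
    exact norm_dl_le hx
  · intro φ h1 h2 h3 v
    rw [isWeakDiff_of_contDiffOn tube_open fl_contDiffOn φ h1 h2 h3 v]
    congr 1
    apply setIntegral_congr_fun hms
    intro x hx
    simp only [(fderiv_fl hx).fderiv]

lemma isSobolev_tf (hm : m ≠ 0) {t : ℝ} (ht : 1 < t) :
    IsSobolev (m : ℝ≥0∞) (tube m q) (tf m q t) (fderiv ℝ (tf m q t)) := by
  have hfin : IsFiniteMeasure (volume.restrict (tube m q) : Measure (Eu (m + 1 + q))) :=
    ⟨by simpa using vol_tube_lt⟩
  have hms := (tube_open (m := m) (q := q)).measurableSet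
  have hcd : ContDiffOn ℝ 1 (tf m q t) (tube m q) := (tf_diffeo ht).2.1.of_le (by
    exact_mod_cast le_top)
  have hcont := hcd.continuousOn_fderiv_of_isOpen tube_open le_rfl
  refine ⟨?_, ?_, isWeakDiff_of_contDiffOn tube_open hcd⟩
  · refine MemLp.of_bound (hcd.continuousOn.aestronglyMeasurable hms) 3 ?_
    rw [ae_restrict_iff' hms]
    filter_upwards with x hx
    exact norm_le_three ((tf_diffeo ht).1.mapsTo hx)
  · refine ⟨hcont.aestronglyMeasurable hms, ?_⟩
    have h1 := energy_tube (q := q) hm ht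
    have h2 : 4 ^ m * (volume (tube m q) + volume (tube m q)) < ⊤ :=
      ENNReal.mul_lt_top (by simp) (ENNReal.add_lt_top.mpr ⟨vol_tube_lt, vol_tube_lt⟩)
    by_contra hcon
    have : eLpNorm (fderiv ℝ (tf m q t)) (m : ℝ≥0∞) (volume.restrict (tube m q)) = ⊤ := by
      simpa using hcon
    rw [this, ENNReal.top_pow hm] at h1
    exact absurd h1 (not_le.mpr h2)

/-- almost every point is off the bad set -/
lemma ae_off (hm : 1 ≤ m) :
    ∀ᵐ x ∂((volume : Measure (Eu (m + 1 + q))).restrict (tube m q)),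
      ‖pr m q x‖⁻¹ • pr m q x ≠ e0 m := by
  apply ae_restrict_of_ae
  set L : Submodule ℝ (Eu (m + 1 + q)) :=
    (ℝ ∙ e0 m : Submodule ℝ (Eu (m + 1))).comap (pr m q : Eu (m + 1 + q) →ₗ[ℝ] Eu (m + 1)) with hL
  have h0 : (volume : Measure (Eu (m + 1 + q))) (L : Set (Eu (m + 1 + q))) = 0 := by
    apply Measure.addHaar_submodule
    intro htop
    have h1 : (ℝ ∙ e0 m : Submodule ℝ (Eu (m + 1))) = ⊤ := by
      rw [eq_top_iff]
      intro y _
      have h2 : inc m q y ∈ L := by rw [htop]; trivial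
      have h3 : pr m q (inc m q y) ∈ (ℝ ∙ e0 m : Submodule ℝ (Eu (m + 1))) := h2
      rwa [pr_inc] at h3
    have hne : e0 m ≠ 0 := by
      intro h
      have := norm_e0 m
      rw [h, norm_zero] at this
      exact zero_ne_one this
    have h4 : Module.finrank ℝ (ℝ ∙ e0 m : Submodule ℝ (Eu (m + 1))) = 1 :=
      finrank_span_singleton hne
    rw [h1, finrank_top, finrank_euclideanSpace, Fintype.card_fin] at h4
    omega
  rw [ae_iff]
  apply measure_mono_null _ h0
  intro x hx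
  have hx' : ‖pr m q x‖⁻¹ • pr m q x = e0 m := by simpa using hx
  have hx0 : ‖pr m q x‖ ≠ 0 := by
    intro h
    rw [h, inv_zero, zero_smul] at hx'
    have := norm_e0 m
    rw [← hx', norm_zero] at this
    exact zero_ne_one this
  have h5 : pr m q x ∈ (ℝ ∙ e0 m : Submodule ℝ (Eu (m + 1))) := by
    rw [Submodule.mem_span_singleton]
    exact ⟨‖pr m q x‖, by rw [← hx', smul_smul, mul_inv_cancel₀ hx0, one_smul]⟩
  exact h5

lemma tendsto_tf {x : Eu (m + 1 + q)} (hxe : ‖pr m q x‖⁻¹ • pr m q x ≠ e0 m) :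
    Tendsto (fun k => tf m q (tk k) x) atTop (𝓝 (fl m q x)) := by
  have h1 := tendsto_fmap hxe
  have h2 : Tendsto (fun k => x + inc m q (fmap (tk k) (e0 m) (pr m q x) - pr m q x)) atTop
      (𝓝 (x + inc m q (flim m (pr m q x) - pr m q x))) :=
    tendsto_const_nhds.add (((inc m q).continuous.tendsto _).comp (h1.sub_const _))
  exact h2

lemma tendsto_fderiv_tf {x : Eu (m + 1 + q)} (hx : x ∈ tube m q)
    (hxe : ‖pr m q x‖⁻¹ • pr m q x ≠ e0 m) :
    Tendsto (fun k => fderiv ℝ (tf m q (tk k)) x) atTop (𝓝 (dl m q x)) := by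
  have h1 := tendsto_fderiv_fmap (pr_ne hx) hxe
  rw [tendsto_iff_norm_sub_tendsto_zero] at h1 ⊢
  refine squeeze_zero (fun k => norm_nonneg _) (fun k => ?_) h1
  rw [(fderiv_tf (one_lt_tk k) hx).fderiv,
    (hasFDerivAt_fmap (one_lt_tk k) (norm_e0 m) (pr_ne hx)).fderiv]
  exact norm_liftD_sub _ _

lemma weakConv_tf (hm : 2 ≤ m) :
    WeakConv (m : ℝ≥0∞) (tube m q) (fun k => tf m q (tk k)) (fun k => fderiv ℝ (tf m q (tk k)))
      (fl m q) (dl m q) := by
  have hfin : IsFiniteMeasure (volume.restrict (tube m q) : Measure (Eu (m + 1 + q))) :=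
    ⟨by simpa using vol_tube_lt⟩
  have hm0 : m ≠ 0 := by omega
  have hms := (tube_open (m := m) (q := q)).measurableSet
  have hp : 1 < (m : ℝ≥0∞) := by exact_mod_cast (show 1 < m by omega)
  have hae := ae_off (m := m) (q := q) (by omega)
  have haeA : ∀ᵐ x ∂((volume : Measure (Eu (m + 1 + q))).restrict (tube m q)), x ∈ tube m q :=
    ae_restrict_mem hms
  refine ⟨?_, ?_⟩
  · intro r hr h hh
    obtain ⟨C, hC⟩ : ∃ C : ℝ≥0, ∀ k, eLpNorm (tf m q (tk k)) (m : ℝ≥0∞)
        (volume.restrict (tube m q)) ≤ C := by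
      set V := (volume.restrict (tube m q) (univ : Set (Eu (m + 1 + q)))) with hV
      have hVt : V ≠ ⊤ := measure_ne_top _ _
      refine ⟨(V ^ (m : ℝ≥0∞).toReal⁻¹ * ENNReal.ofReal 3).toNNReal, fun k => ?_⟩
      rw [ENNReal.coe_toNNReal]
      · apply eLpNorm_le_of_ae_bound
        filter_upwards [haeA] with x hx
        exact norm_le_three ((tf_diffeo (one_lt_tk k)).1.mapsTo hx)
      · apply ENNReal.mul_ne_top _ ENNReal.ofReal_ne_top
        exact (ENNReal.rpow_lt_top_of_nonneg (by positivity) hVt).ne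
    refine weak_of_ae_bdd hr hp (fun k => tf m q (tk k)) (fl m q)
      (fun k => (isSobolev_tf hm0 (one_lt_tk k)).1.1) C hC (isSobolev_fl _).1 ?_ h hh
    filter_upwards [haeA, hae] with x hx hxe
    exact tendsto_tf hxe
  · intro v r hr h hh
    set B : ℝ≥0∞ := 4 ^ m * (volume (tube m q) + volume (tube m q)) with hB
    have hBt : B < ⊤ :=
      ENNReal.mul_lt_top (by simp) (ENNReal.add_lt_top.mpr ⟨vol_tube_lt, vol_tube_lt⟩)
    obtain ⟨C, hC⟩ : ∃ C : ℝ≥0, ∀ k, eLpNorm (fderiv ℝ (tf m q (tk k))) (m : ℝ≥0∞)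
        (volume.restrict (tube m q)) ≤ C := by
      refine ⟨(B + 1).toNNReal, fun k => ?_⟩
      rw [ENNReal.coe_toNNReal (ENNReal.add_lt_top.mpr ⟨hBt, ENNReal.one_lt_top⟩).ne]
      by_contra hcon
      push Not at hcon
      have h1 := energy_tube (q := q) hm0 (one_lt_tk k)
      have h2 : B + 1 ≤ (B + 1) ^ m := by
        apply le_self_pow₀ (by simp) hm0
      have h3 : (B + 1) ^ m ≤ eLpNorm (fderiv ℝ (tf m q (tk k))) (m : ℝ≥0∞)
        (volume.restrict (tube m q)) ^ m := by gcongr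
      have h4 : B + 1 ≤ B := h2.trans (h3.trans h1)
      exact absurd h4 (not_le.mpr (ENNReal.lt_add_right hBt.ne one_ne_zero))
    have hmeas : ∀ k, AEStronglyMeasurable (fun x => fderiv ℝ (tf m q (tk k)) x v)
        (volume.restrict (tube m q)) := fun k =>
      (isSobolev_tf hm0 (one_lt_tk k)).2.1.1.apply_continuousLinearMap v
    refine weak_of_ae_bdd hr hp (fun k x => fderiv ℝ (tf m q (tk k)) x v)
      (fun x => dl m q x v) hmeas (C * ‖v‖₊) ?_ ?_ ?_ h hh
    · intro k
      have h1 : eLpNorm (fun x => fderiv ℝ (tf m q (tk k)) x v) (m : ℝ≥0∞)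
          (volume.restrict (tube m q)) ≤
          ENNReal.ofReal ‖v‖ * eLpNorm (fderiv ℝ (tf m q (tk k))) (m : ℝ≥0∞)
          (volume.restrict (tube m q)) := by
        apply eLpNorm_le_mul_eLpNorm_of_ae_le_mul
        filter_upwards with x
        rw [mul_comm]
        exact ContinuousLinearMap.le_opNorm _ _
      refine h1.trans ?_
      rw [mul_comm, ENNReal.coe_mul]
      gcongr
      · exact hC k
      · rw [ofReal_norm]; exact le_rfl
    · have h1 := (isSobolev_fl (m := m) (q := q) (m : ℝ≥0∞)).2.1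
      refine MemLp.of_le_mul h1 (c := ‖v‖) (h1.1.apply_continuousLinearMap v) ?_
      filter_upwards with x
      rw [mul_comm]
      exact ContinuousLinearMap.le_opNorm _ _
    · filter_upwards [haeA, hae] with x hx hxe
      exact ((ContinuousLinearMap.apply ℝ (Eu (m + 1 + q)) v).continuous.tendsto _).comp
        (tendsto_fderiv_tf hx hxe)

end

end Pool.Agent.L5helper85.Tube
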