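import Pool.Agent.L5helper85.TubeDefs
import Pool.Agent.Helper133.Brouwer

/-!
# A homeomorphism of the tube does not contract the spheres
-/

set_option autoImplicit false

open MeasureTheory Set Filter Topology Metric
open scoped ENNReal NNReal InnerProductSpace

namespace Pool.Agent.L5helper85.Tube

open Pool.Agent.L5helper85.Sob
open Pool.Agent.Results.MP_fc472d_an.ShellWeakNotStrong (shell)

noncomputable section

variable {m q : ℕ}

/-- radial clamp -/
def clampR (A1 A2 : ℝ) (v : Eu (m + 1)) : Eu (m + 1) := (max A1 (min A2 ‖v‖) / ‖v‖) • v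

lemma norm_clampR {A1 A2 : ℝ} (h1 : 0 < A1) {v : Eu (m + 1)} (hv : v ≠ 0) :
    ‖clampR A1 A2 v‖ = max A1 (min A2 ‖v‖) := by
  have hv' : ‖v‖ ≠ 0 := norm_ne_zero_iff.mpr hv
  have hp : 0 ≤ max A1 (min A2 ‖v‖) := h1.le.trans (le_max_left _ _)
  unfold clampR
  rw [norm_smul, norm_div, norm_norm, Real.norm_eq_abs, abs_of_nonneg hp]
  field_simp

lemma clampR_self {A1 A2 : ℝ} {v : Eu (m + 1)} (hv : v ≠ 0) (h1 : A1 ≤ ‖v‖) (h2 : ‖v‖ ≤ A2) :
    clampR A1 A2 v = v := by
  have hv' : ‖v‖ ≠ 0 := norm_ne_zero_iff.mpr hv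
  unfold clampR
  rw [min_eq_right h2, max_eq_right h1, div_self hv', one_smul]

lemma clampR_cont (A1 A2 : ℝ) : ContinuousOn (clampR (m := m) A1 A2) {0}ᶜ := by
  unfold clampR
  have h1 : ContinuousOn (fun v : Eu (m + 1) => max A1 (min A2 ‖v‖) / ‖v‖) {0}ᶜ := by
    apply ContinuousOn.div (by fun_prop) (by fun_prop)
    intro v hv
    exact norm_ne_zero_iff.mpr hv
  exact h1.smul continuousOn_id

lemma rest_bound {x : Eu (m + 1 + q)} (hx : x ∈ tube m q) : ‖x - inc m q (pr m q x)‖ < 1 :=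
  (mem_tube.mp hx).2

lemma mem_tube_of {v : Eu (m + 1)} {b : Eu (m + 1 + q)} (hv : v ∈ shell (m + 1))
    (hb : pr m q b = 0) (hb1 : ‖b‖ < 1) : inc m q v + b ∈ tube m q := by
  rw [mem_tube]
  have e : pr m q (inc m q v + b) = v := by rw [map_add, pr_inc, hb, add_zero]
  rw [e, add_sub_cancel_left]
  exact ⟨hv, hb1⟩

/-- The image of a sphere under a homeomorphism of the tube meets every direction, also after a
small perturbation. -/
theorem topo (F G : Eu (m + 1 + q) → Eu (m + 1 + q)) (hF : ContinuousOn F (tube m q))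
    (hG : ContinuousOn G (tube m q)) (hFm : MapsTo F (tube m q) (tube m q))
    (hGm : MapsTo G (tube m q) (tube m q)) (hGF : ∀ x ∈ tube m q, G (F x) = x)
    (x : Eu (m + 1 + q)) {r : ℝ} (hr : 0 < r) (hxr : ‖pr m q x‖ < r)
    (hS : ∀ y : Eu (m + 1), ‖y‖ = r → x + inc m q y ∈ tube m q)
    (w : Eu (m + 1) → Eu (m + 1)) (hw : ContinuousOn w (sphere 0 r))
    (hwF : ∀ y : Eu (m + 1), ‖y‖ = r → ‖w y - pr m q (F (x + inc m q y))‖ < 1)
    (u : Eu (m + 1)) (hu : ‖u‖ = 1) : ∃ y : Eu (m + 1), ‖y‖ = r ∧ ∃ l : ℝ, 0 ≤ l ∧ w y = l • u := by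
  by_contra hcon
  push Not at hcon
  -- compact range of the first component
  have hSc : IsCompact (sphere (0 : Eu (m + 1)) r) := isCompact_sphere _ _
  have hSn : (sphere (0 : Eu (m + 1)) r).Nonempty := NormedSpace.sphere_nonempty.mpr hr.le
  have hxc : Continuous (fun y : Eu (m + 1) => x + inc m q y) :=
    continuous_const.add (inc m q).continuous
  have hmS : MapsTo (fun y : Eu (m + 1) => x + inc m q y) (sphere 0 r) (tube m q) := fun y hy =>
    hS y (by simpa using hy)
  have hFx : ContinuousOn (fun y : Eu (m + 1) => F (x + inc m q y)) (sphere 0 r) :=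
    hF.comp hxc.continuousOn hmS
  have hac : ContinuousOn (fun y : Eu (m + 1) => ‖pr m q (F (x + inc m q y))‖) (sphere 0 r) :=
    ((pr m q).continuous.comp_continuousOn hFx).norm
  obtain ⟨y1, hy1, hm1⟩ := hSc.exists_isMinOn hSn hac
  obtain ⟨y2, hy2, hm2⟩ := hSc.exists_isMaxOn hSn hac
  set A1 := ‖pr m q (F (x + inc m q y1))‖ with hA1
  set A2 := ‖pr m q (F (x + inc m q y2))‖ with hA2
  have h1A1 : 1 < A1 := (mem_tube.mp (hFm (hmS hy1))).1.1
  have hA22 : A2 < 2 := (mem_tube.mp (hFm (hmS hy2))).1.2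
  have hA12 : A1 ≤ A2 := hm1 hy2
  have hA0 : 0 < A1 := by linarith
  -- the objects
  set D : Eu (m + 1) → Eu (m + 1) := fun Y => (r / ‖Y‖) • Y with hD
  have hDn : ∀ Y, Y ≠ 0 → ‖D Y‖ = r := by
    intro Y hY
    have : ‖Y‖ ≠ 0 := norm_ne_zero_iff.mpr hY
    rw [hD]; simp only
    rw [norm_smul, norm_div, norm_norm, Real.norm_eq_abs, abs_of_pos hr]
    field_simp
  set s : Eu (m + 1) → ℝ := fun Y => max 0 (min 1 (2 - 2 * ‖Y‖ / r)) with hs
  have hs0 : ∀ Y, 0 ≤ s Y := fun Y => le_max_left _ _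
  have hs1 : ∀ Y, s Y ≤ 1 := fun Y => max_le zero_le_one (min_le_left _ _)
  have hsc : Continuous s := by rw [hs]; fun_prop
  set a : Eu (m + 1) → Eu (m + 1) := fun Y => pr m q (F (x + inc m q (D Y))) with ha
  set b : Eu (m + 1) → Eu (m + 1 + q) := fun Y => F (x + inc m q (D Y)) - inc m q (a Y) with hb
  set P : Eu (m + 1) → Eu (m + 1) := fun Y =>
    (1 - max 0 (2 * s Y - 1)) • ((1 - min 1 (2 * s Y)) • a Y + min 1 (2 * s Y) • w (D Y)) -
      max 0 (2 * s Y - 1) • u with hP
  set K : Eu (m + 1) → Eu (m + 1 + q) := fun Y =>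
    inc m q (clampR A1 A2 (P Y)) + (1 - s Y) • b Y with hK
  have hprb : ∀ Y, pr m q (b Y) = 0 := by
    intro Y
    rw [hb]; simp only
    rw [map_sub, pr_inc]; simp only [ha, sub_self]
  have hun : -u ≠ 0 := by
    intro h
    have h2 : ‖-u‖ = 0 := by rw [h, norm_zero]
    rw [norm_neg, hu] at h2
    exact one_ne_zero h2
  -- the inner region
  have hinner : ∀ Y, ‖Y‖ ≤ r / 2 → K Y = inc m q (clampR A1 A2 (-u)) := by
    intro Y hY
    have h1 : s Y = 1 := by
      rw [hs]; simp only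
      have h2 : 1 ≤ 2 - 2 * ‖Y‖ / r := by
        have : 2 * ‖Y‖ / r ≤ 1 := by
          rw [div_le_one hr]; linarith
        linarith
      rw [min_eq_left h2, max_eq_right zero_le_one]
    rw [hK, hP]
    simp only [h1]
    norm_num
  have hab : ∀ Y, Y ≠ 0 → (a Y ∈ shell (m + 1) ∧ ‖b Y‖ < 1 ∧ ‖w (D Y) - a Y‖ < 1) := by
    intro Y hY
    have h1 := hS (D Y) (hDn Y hY)
    have h2 := mem_tube.mp (hFm h1)
    exact ⟨h2.1, h2.2, hwF _ (hDn Y hY)⟩
  have hPne : ∀ Y, Y ≠ 0 → P Y ≠ 0 := by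
    intro Y hY h0
    obtain ⟨h1, -, h3⟩ := hab Y hY
    rcases le_or_gt (2 * s Y) 1 with h | h
    · have e1 : max 0 (2 * s Y - 1) = 0 := max_eq_left (by linarith)
      have e2 : min 1 (2 * s Y) = 2 * s Y := min_eq_right h
      rw [hP] at h0
      simp only [e1, e2] at h0
      rw [sub_zero, one_smul, zero_smul, sub_zero] at h0
      have e3 : a Y = -((2 * s Y) • (w (D Y) - a Y)) := by
        have e4 : (1 - 2 * s Y) • a Y + (2 * s Y) • w (D Y) =
          a Y + (2 * s Y) • (w (D Y) - a Y) := by module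
        rw [e4] at h0
        exact eq_neg_of_add_eq_zero_left h0
      have e5 : ‖a Y‖ ≤ 1 := by
        rw [e3, norm_neg, norm_smul, Real.norm_eq_abs, abs_of_nonneg (by linarith [hs0 Y])]
        calc 2 * s Y * ‖w (D Y) - a Y‖ ≤ 1 * 1 := by
              apply mul_le_mul h h3.le (norm_nonneg _) zero_le_one
          _ = 1 := one_mul 1
      exact absurd h1.1 (not_lt.mpr e5)
    · have e1 : max 0 (2 * s Y - 1) = 2 * s Y - 1 := max_eq_right (by linarith)
      have e2 : min 1 (2 * s Y) = 1 := min_eq_left h.le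
      rw [hP] at h0
      simp only [e1, e2] at h0
      rw [sub_self, zero_smul, zero_add, one_smul, sub_eq_zero] at h0
      rcases eq_or_lt_of_le (hs1 Y) with h4 | h4
      · rw [h4] at h0
        norm_num at h0
        rw [← h0, norm_zero] at hu
        exact zero_ne_one hu
      · have h5 : 0 < 1 - (2 * s Y - 1) := by linarith
        have h6 : w (D Y) = ((1 - (2 * s Y - 1))⁻¹ * (2 * s Y - 1)) • u := by
          rw [← smul_smul, ← h0, smul_smul, inv_mul_cancel₀ h5.ne', one_smul]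
        exact hcon (D Y) (hDn Y hY) _ (by
          apply mul_nonneg (inv_nonneg.mpr h5.le); linarith) h6
  have hshell : ∀ v : Eu (m + 1), v ≠ 0 → clampR A1 A2 v ∈ shell (m + 1) := by
    intro v hv
    have h1 := norm_clampR (A2 := A2) hA0 hv
    refine ⟨?_, ?_⟩
    · rw [h1]; exact lt_max_of_lt_left h1A1
    · rw [h1]; exact max_lt (lt_of_le_of_lt hA12 hA22) (lt_of_le_of_lt (min_le_left _ _) hA22)
  have hKmem : ∀ Y, K Y ∈ tube m q := by
    intro Y
    by_cases hY : Y = 0
    · rw [hinner Y (by rw [hY, norm_zero]; positivity)]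
      have := mem_tube_of (q := q) (b := 0) (hshell _ hun) (map_zero _) (by simp)
      rwa [add_zero] at this
    · obtain ⟨-, h2, -⟩ := hab Y hY
      refine mem_tube_of (hshell _ (hPne Y hY)) ?_ ?_
      · rw [map_smul, hprb, smul_zero]
      · rw [norm_smul, Real.norm_eq_abs, abs_of_nonneg (by linarith [hs1 Y])]
        calc (1 - s Y) * ‖b Y‖ ≤ 1 * ‖b Y‖ := by
              gcongr; linarith [hs0 Y]
          _ < 1 := by rw [one_mul]; exact h2
  -- continuity
  have hDc : ContinuousOn D {0}ᶜ := by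
    rw [hD]
    have h1 : ContinuousOn (fun v : Eu (m + 1) => r / ‖v‖) {0}ᶜ := by
      apply ContinuousOn.div (by fun_prop) (by fun_prop)
      intro v hv
      exact norm_ne_zero_iff.mpr hv
    exact h1.smul continuousOn_id
  have hDm : MapsTo D {0}ᶜ (sphere 0 r) := by
    intro Y hY
    rw [mem_sphere_zero_iff_norm]
    exact hDn Y hY
  have hFD : ContinuousOn (fun Y => F (x + inc m q (D Y))) {0}ᶜ := hFx.comp hDc hDm
  have hac' : ContinuousOn a {0}ᶜ := (pr m q).continuous.comp_continuousOn hFD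
  have hbc' : ContinuousOn b {0}ᶜ := hFD.sub ((inc m q).continuous.comp_continuousOn hac')
  have hwc' : ContinuousOn (fun Y => w (D Y)) {0}ᶜ := hw.comp hDc hDm
  have hPc : ContinuousOn P {0}ᶜ := by
    rw [hP]
    fun_prop
  have hKc : ContinuousOn K {0}ᶜ := by
    have h1 : ContinuousOn (fun Y => clampR A1 A2 (P Y)) {0}ᶜ :=
      (clampR_cont A1 A2).comp hPc fun Y hY => hPne Y hY
    have h2 : ContinuousOn (fun Y => inc m q (clampR A1 A2 (P Y))) {0}ᶜ :=
      (inc m q).continuous.comp_continuousOn h1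
    have h3 : ContinuousOn (fun Y => (1 - s Y) • b Y) {0}ᶜ :=
      (continuous_const.sub hsc).continuousOn.smul hbc'
    exact h2.add h3
  set R : Eu (m + 1) → Eu (m + 1) := fun Y => pr m q (G (K Y)) with hR
  have hRc : Continuous R := by
    rw [continuous_iff_continuousAt]
    intro Y
    by_cases hY : Y = 0
    · have h1 : R =ᶠ[𝓝 Y] fun _ => pr m q (G (inc m q (clampR A1 A2 (-u)))) := by
        have h2 : ∀ᶠ Z in 𝓝 Y, ‖Z‖ < r / 2 := by
          have : ContinuousAt (fun Z : Eu (m + 1) => ‖Z‖) Y := continuous_norm.continuousAt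
          apply this.eventually_lt continuousAt_const
          rw [hY, norm_zero]; positivity
        filter_upwards [h2] with Z hZ
        rw [hR]; simp only
        rw [hinner Z hZ.le]
      exact continuousAt_const.congr h1.symm
    · have h1 : ContinuousOn R {0}ᶜ :=
        (pr m q).continuous.comp_continuousOn (hG.comp hKc fun Y _ => hKmem Y)
      exact h1.continuousAt (isOpen_compl_singleton.mem_nhds hY)
  have hR1 : ∀ Y, 1 < ‖R Y‖ := fun Y => (mem_tube.mp (hGm (hKmem Y))).1.1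
  have hRn : ∀ Y, ‖R Y‖ ≠ 0 := fun Y => by linarith [hR1 Y]
  set T : Eu (m + 1) → Eu (m + 1) := fun Y => -((r / ‖R Y‖) • R Y) with hT
  have hTc : Continuous T := by
    rw [hT]
    exact ((continuous_const.div hRc.norm hRn).smul hRc).neg
  have hTn : ∀ Y, ‖T Y‖ = r := by
    intro Y
    rw [hT]; simp only
    rw [norm_neg, norm_smul, norm_div, norm_norm, Real.norm_eq_abs, abs_of_pos hr]
    field_simp [hRn Y]
  obtain ⟨Y, hY⟩ := Pool.Agent.Helper133.Brouwer.brouwer T hTc r fun Y => (hTn Y).le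
  have hYn : ‖Y‖ = r := by rw [← hY, hTn]
  have hY0 : Y ≠ 0 := by
    intro h; rw [h, norm_zero] at hYn; linarith
  have hDY : D Y = Y := by
    rw [hD]; simp only
    rw [hYn, div_self hr.ne', one_smul]
  have hsY : s Y = 0 := by
    rw [hs]; simp only
    rw [hYn]
    have : 2 - 2 * r / r = 0 := by field_simp; ring
    rw [this, min_eq_right zero_le_one, max_self]
  have hPY : P Y = a Y := by
    rw [hP]; simp only [hsY]
    norm_num
  have hKY : K Y = F (x + inc m q Y) := by
    rw [hK]; simp only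
    rw [hPY, hsY, sub_zero, one_smul, clampR_self]
    · rw [hb]; simp only
      rw [hDY]; abel
    · intro h
      have := (hab Y hY0).1.1
      rw [h, norm_zero] at this
      linarith
    · have : D Y ∈ sphere (0 : Eu (m + 1)) r := hDm hY0
      exact hm1 this
    · have : D Y ∈ sphere (0 : Eu (m + 1)) r := hDm hY0
      exact hm2 this
  have hRY : R Y = pr m q x + Y := by
    rw [hR]; simp only
    rw [hKY, hGF _ (hS Y hYn), map_add, pr_inc]
  set c := r / ‖R Y‖ with hc
  have hc0 : 0 < c := div_pos hr (by linarith [hR1 Y])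
  have h1 : (1 + c) • Y = -(c • pr m q x) := by
    have h2 : Y = -(c • R Y) := hY.symm
    rw [hRY] at h2
    have h3 : (1 + c) • Y = Y + c • Y := by module
    rw [h3]
    nth_rewrite 1 [h2]
    module
  have h4 : (1 + c) * r = c * ‖pr m q x‖ := by
    have := congrArg norm h1
    rw [norm_neg, norm_smul, norm_smul, Real.norm_eq_abs, Real.norm_eq_abs,
      abs_of_pos (by linarith), abs_of_pos hc0, hYn] at this
    exact this
  have h5 : c * ‖pr m q x‖ < c * r := by gcongr
  nlinarith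

end

end Pool.Agent.L5helper85.Tube
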